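import Pool.Agent.Lib.MP_1a91b9_ntT.CT.Defs
import Pool.Agent.Lib.MP_1a91b9_ntT.S9.QB

/-!
# JOB Lb: good reduction: all points have nonsingular reduction

PROOF. This is `tam_good` of `S9/QB.lean`, for a general integral `M` with unit discriminant; copy it (the private lemmas
`qb_lift`, `qb_unit`, `qb_res`, `qb_point` too), with `I` given instead of obtained.
-/

set_option autoImplicit false

namespace Pool.Agent.Lib.MP_1a91b9_ntT.CT

open NumberField IsDedekindDomain WeierstrassCurve Pool.Agent.Lib.MP_1a91b9_ntT.S9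
open scoped Classical

variable {N : Type*} [Field N] [NumberField N]

/-- A monic quadratic relation makes an element of the fraction field integral. -/
private theorem Lb_lift {R K : Type*} [CommRing R] [IsDomain R] [IsIntegrallyClosed R]
    [Field K] [Algebra R K] [IsFractionRing R K] (x : K) (b c : R)
    (h : x ^ 2 + (algebraMap R K b * x + algebraMap R K c) = 0) :
    ∃ y : R, algebraMap R K y = x := by
  refine IsIntegrallyClosed.isIntegral_iff.mp
    ⟨Polynomial.X ^ 2 + (Polynomial.C b * Polynomial.X + Polynomial.C c), ?_, ?_⟩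
  · refine Polynomial.monic_X_pow_add ?_
    compute_degree!
  · simpa using h

private theorem Lb_unit (v : HeightOneSpectrum (𝓞 N)) (r : v.adicCompletionIntegers N)
    (h : IsLocalRing.residue (v.adicCompletionIntegers N) r ≠ 0) :
    Valued.v (r : v.adicCompletion N) = 1 := by
  rw [Ne, MP_1a91b9_nt.residue_eq_zero_iff_valued] at h
  exact le_antisymm r.2 (not_lt.1 h)

private theorem Lb_res (v : HeightOneSpectrum (𝓞 N)) (r : v.adicCompletionIntegers N)
    (h : Valued.v (r : v.adicCompletion N) ≠ 1) :
    IsLocalRing.residue (v.adicCompletionIntegers N) r = 0 := by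
  by_contra h1
  exact h (Lb_unit v r h1)

/-- An integral point of an integral model with unit discriminant is non-singular mod `v`. -/
private theorem Lb_point (v : HeightOneSpectrum (𝓞 N))
    (I : WeierstrassCurve (v.adicCompletionIntegers N))
    (hΔ : Valued.v (I.Δ : v.adicCompletion N) = 1) (X Y : v.adicCompletionIntegers N)
    (h : I.toAffine.Equation X Y) :
    Valued.v ((2 * Y + I.a₁ * X + I.a₃ : v.adicCompletionIntegers N) : v.adicCompletion N) = 1 ∨
      Valued.v ((3 * X ^ 2 + 2 * I.a₂ * X + I.a₄ - I.a₁ * Y : v.adicCompletionIntegers N) :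
        v.adicCompletion N) = 1 := by
  by_contra hcon
  rw [not_or] at hcon
  have h1 := Lb_res v _ hcon.1
  have h2 := Lb_res v _ hcon.2
  have h3 := h.map (IsLocalRing.residue (v.adicCompletionIntegers N))
  have h4 : (I.map (IsLocalRing.residue (v.adicCompletionIntegers N))).Δ ≠ 0 := by
    rw [WeierstrassCurve.map_Δ, Ne, MP_1a91b9_nt.residue_eq_zero_iff_valued, hΔ]
    exact lt_irrefl 1
  rw [WeierstrassCurve.Affine.equation_iff_nonsingular_of_Δ_ne_zero h4,
    WeierstrassCurve.Affine.nonsingular_iff'] at h3
  rcases h3.2 with h5 | h5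
  · apply h5
    simp only [WeierstrassCurve.map_a₁, WeierstrassCurve.map_a₂, WeierstrassCurve.map_a₄]
    simp only [map_add, map_sub, map_mul, map_pow, map_ofNat] at h2
    linear_combination -h2
  · apply h5
    simp only [WeierstrassCurve.map_a₁, WeierstrassCurve.map_a₃]
    simp only [map_add, map_mul, map_ofNat] at h1
    linear_combination h1

/-- An integral point of an integral model lifts to the ring of integers. -/
private theorem Lb_int {v : HeightOneSpectrum (𝓞 N)} (M : WeierstrassCurve (v.adicCompletion N))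
    (I : WeierstrassCurve (v.adicCompletionIntegers N))
    (hI : M = I.baseChange (v.adicCompletion N)) (x y : v.adicCompletion N)
    (h : M.toAffine.Equation x y) (hx : Valued.v x ≤ 1) :
    ∃ X Y : v.adicCompletionIntegers N,
      algebraMap (v.adicCompletionIntegers N) (v.adicCompletion N) X = x ∧
      algebraMap (v.adicCompletionIntegers N) (v.adicCompletion N) Y = y ∧
      I.toAffine.Equation X Y := by
  have hinj : Function.Injective
      (algebraMap (v.adicCompletionIntegers N) (v.adicCompletion N)) :=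
    IsFractionRing.injective _ _
  obtain ⟨X, hX⟩ : ∃ X : v.adicCompletionIntegers N,
      algebraMap (v.adicCompletionIntegers N) (v.adicCompletion N) X = x :=
    ⟨⟨x, hx⟩, rfl⟩
  have he := h
  rw [WeierstrassCurve.Affine.equation_iff'] at he
  have ha1 : M.a₁ =
    algebraMap (v.adicCompletionIntegers N) (v.adicCompletion N) I.a₁ := by rw [hI]; rfl
  have ha2 : M.a₂ =
    algebraMap (v.adicCompletionIntegers N) (v.adicCompletion N) I.a₂ := by rw [hI]; rfl
  have ha3 : M.a₃ =
    algebraMap (v.adicCompletionIntegers N) (v.adicCompletion N) I.a₃ := by rw [hI]; rfl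
  have ha4 : M.a₄ =
    algebraMap (v.adicCompletionIntegers N) (v.adicCompletion N) I.a₄ := by rw [hI]; rfl
  have ha6 : M.a₆ =
    algebraMap (v.adicCompletionIntegers N) (v.adicCompletion N) I.a₆ := by rw [hI]; rfl
  rw [ha1, ha2, ha3, ha4, ha6, ← hX] at he
  obtain ⟨Y, hY⟩ := Lb_lift (R := v.adicCompletionIntegers N) y (I.a₁ * X + I.a₃)
    (-(X ^ 3 + I.a₂ * X ^ 2 + I.a₄ * X + I.a₆)) (by
      simp only [map_neg, map_add, map_mul, map_pow]
      linear_combination he)
  refine ⟨X, Y, hX, hY, ?_⟩
  rw [← WeierstrassCurve.Affine.map_equation _ hinj,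
    WeierstrassCurve.Affine.equation_iff', hY]
  exact he

/-- An integral point: both coordinates come from the ring of integers. -/
theorem int_point {v : HeightOneSpectrum (𝓞 N)} (M : WeierstrassCurve (v.adicCompletion N))
    (I : WeierstrassCurve (v.adicCompletionIntegers N))
    (hI : M = I.baseChange (v.adicCompletion N)) (x y : v.adicCompletion N)
    (h : M.toAffine.Equation x y) (hx : Valued.v x ≤ 1) : Valued.v y ≤ 1 := by
  obtain ⟨X, Y, -, hY, -⟩ := Lb_int M I hI x y h hx
  rw [← hY]
  exact Y.2

theorem ns_unit {v : HeightOneSpectrum (𝓞 N)} (M : WeierstrassCurve (v.adicCompletion N))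
    (I : WeierstrassCurve (v.adicCompletionIntegers N))
    (hI : M = I.baseChange (v.adicCompletion N)) (hΔ : Valued.v M.Δ = 1) : ns M = ⊤ := by
  rw [eq_top_iff]
  rintro P -
  apply AddSubgroup.subset_closure
  rcases P with _ | ⟨x, y, h⟩
  · exact Or.inl rfl
  · refine Or.inr ⟨x, y, h, rfl, ?_⟩
    by_cases hx : 1 < Valued.v x
    · exact Or.inl hx
    refine Or.inr ?_
    have hΔ' : Valued.v (I.Δ : v.adicCompletion N) = 1 := by
      have h1 := hΔ
      rw [hI, WeierstrassCurve.baseChange, WeierstrassCurve.map_Δ] at h1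
      exact h1
    obtain ⟨X, Y, hX, hY, hE⟩ := Lb_int M I hI x y h.1 (not_lt.1 hx)
    have ha1 : M.a₁ =
      algebraMap (v.adicCompletionIntegers N) (v.adicCompletion N) I.a₁ := by rw [hI]; rfl
    have ha2 : M.a₂ =
      algebraMap (v.adicCompletionIntegers N) (v.adicCompletion N) I.a₂ := by rw [hI]; rfl
    have ha3 : M.a₃ =
      algebraMap (v.adicCompletionIntegers N) (v.adicCompletion N) I.a₃ := by rw [hI]; rfl
    have ha4 : M.a₄ =
      algebraMap (v.adicCompletionIntegers N) (v.adicCompletion N) I.a₄ := by rw [hI]; rfl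
    have hres := Lb_point v I hΔ' X Y hE
    have e1 : 2 * y + M.a₁ * x + M.a₃ =
        algebraMap (v.adicCompletionIntegers N) (v.adicCompletion N)
          (2 * Y + I.a₁ * X + I.a₃) := by
      rw [ha1, ha3, ← hX, ← hY]
      simp only [map_add, map_mul, map_ofNat]
    have e2 : 3 * x ^ 2 + 2 * M.a₂ * x + M.a₄ - M.a₁ * y =
        algebraMap (v.adicCompletionIntegers N) (v.adicCompletion N)
          (3 * X ^ 2 + 2 * I.a₂ * X + I.a₄ - I.a₁ * Y) := by
      rw [ha1, ha2, ha4, ← hX, ← hY]
      simp only [map_add, map_sub, map_mul, map_pow, map_ofNat]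
    rw [e1, e2]
    exact hres

end Pool.Agent.Lib.MP_1a91b9_ntT.CT
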