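import Pool.Agent.Lib.MP_1a91b9_ntT.CT.Pd1

/-!
# JOB Pd2: the number of infinite places of a quadratic extension

PROOF. Let `r` be the number of real places of `N` at which `d > 0`. Claim: `nrRealPlaces N' = 2 r`. Real embeddings
`φ' : N' →+* ℂ` (`InfinitePlace.card_real_embeddings`, or `N' →+* ℝ`) restrict to real embeddings `φ` of `N` with `φ d = (φ' x)²`
a non-zero real square, so `φ d > 0`; conversely over each real `φ` with `φ d > 0` there are exactly the two ring homs
`a + b x ↦ φ a ± φ b √(φ d)`, both real. (With `ℝ`: `N' →+* ℝ` is in bijection with pairs of `φ : N →+* ℝ`, `0 < φ d`, and a sign; to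
construct the hom use `N' ≃ AdjoinRoot (X² - d)` or `(minpoly ..)`/`IntermediateField`/`PowerBasis.lift` for the power basis of `x`
(`hgen`), or count `N' →ₐ[N] ℝ` by `AlgHom.card_of_powerBasis`/`PowerBasis.liftEquiv`.)
Then `card_add_two_mul_card_eq_rank` for `N'` and `N` (`r₁ + 2 r₂ = n`, `finrank ℚ N' = 2 n`),
`card_eq_nrRealPlaces_add_nrComplexPlaces`: `#IP(N') = 2 r + (2 n - 2 r)/2 = r + n`, `#IP(N) = r₁ + r₂`,
`npos d = r + r₂` (real positive places and the complex places), and `r + n = (r₁ + r₂) + (r + r₂)`.
-/

set_option autoImplicit false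

namespace Pool.Agent.Lib.MP_1a91b9_ntT.CT

open NumberField WeierstrassCurve Pool.Agent.Lib.MP_1a91b9_ntT.Per
open Pool.Agent.Lib.MP_1a91b9_ntT.TW

private theorem Pd2_finrank {N N' : Type*} [Field N] [Field N'] [Algebra N N'] (x : N')
    (hn : ¬ ∃ y : N, algebraMap N N' y = x)
    (hgen : ∀ z : N', ∃ a b : N, z = algebraMap N N' a + algebraMap N N' b * x) :
    Module.finrank N N' = 2 := by
  let f : (N × N) →ₗ[N] N' :=
    { toFun := fun p => algebraMap N N' p.1 + algebraMap N N' p.2 * x
      map_add' := fun p q => by
        simp only [Prod.fst_add, Prod.snd_add, map_add]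
        ring
      map_smul' := fun c p => by
        change algebraMap N N' (c * p.1) + algebraMap N N' (c * p.2) * x =
          c • (algebraMap N N' p.1 + algebraMap N N' p.2 * x)
        rw [Algebra.smul_def, map_mul, map_mul]
        ring }
  have hinj : Function.Injective f := by
    rw [← LinearMap.ker_eq_bot, LinearMap.ker_eq_bot']
    rintro ⟨a, b⟩ h
    have h1 : algebraMap N N' a + algebraMap N N' b * x = 0 := h
    by_cases hb : b = 0
    · rw [hb, map_zero, zero_mul, add_zero] at h1
      have h2 : a = 0 := (map_eq_zero (algebraMap N N')).1 h1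
      rw [hb, h2]
      rfl
    · exfalso
      apply hn
      refine ⟨-a / b, ?_⟩
      have hb' : algebraMap N N' b ≠ 0 := fun h2 => hb ((map_eq_zero (algebraMap N N')).1 h2)
      rw [map_div₀, map_neg, div_eq_iff hb']
      linear_combination -h1
  have hsurj : Function.Surjective f := by
    intro z
    obtain ⟨a, b, h⟩ := hgen z
    exact ⟨(a, b), h.symm⟩
  have h := (LinearEquiv.ofBijective f ⟨hinj, hsurj⟩).finrank_eq
  rw [← h, Module.finrank_prod, Module.finrank_self]

private theorem Pd2_emb {N N' : Type*} [Field N] [NumberField N] [Field N'] [NumberField N']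
    [Algebra N N'] {w : InfinitePlace N} (hw : w.IsReal) {v : InfinitePlace N'}
    (hv : v.comap (algebraMap N N') = w) :
    v.embedding.comp (algebraMap N N') = w.embedding := by
  have h1 : InfinitePlace.mk (v.embedding.comp (algebraMap N N')) =
      InfinitePlace.mk w.embedding := by
    rw [InfinitePlace.mk_embedding, ← hv, ← InfinitePlace.comap_mk, InfinitePlace.mk_embedding]
  have hc := InfinitePlace.conjugate_embedding_eq_of_isReal hw
  rcases InfinitePlace.mk_eq_iff.1 h1 with h2 | h2
  · exact h2
  · have h3 := congrArg ComplexEmbedding.conjugate h2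
    rw [hc] at h3
    rw [← h3]
    exact (star_star (v.embedding.comp (algebraMap N N'))).symm

private theorem Pd2_iff {N N' : Type*} [Field N] [NumberField N] [Field N'] [NumberField N']
    [Algebra N N'] [Algebra.IsAlgebraic N N'] (d : N) (x : N') (hx : x ^ 2 = algebraMap N N' d)
    (hx0 : x ≠ 0)
    (hgen : ∀ z : N', ∃ a b : N, z = algebraMap N N' a + algebraMap N N' b * x)
    (w : InfinitePlace N) : w.IsUnramifiedIn N' ↔ Pos d w := by
  constructor
  · intro h hw
    obtain ⟨v, hv⟩ := InfinitePlace.comap_surjective (k := N) (K := N') w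
    have h1 := InfinitePlace.isUnramified_iff.1 (h v hv)
    have hv' : v.comap (algebraMap N N') = w := hv
    rw [hv'] at h1
    have hvr : v.IsReal := by
      rcases h1 with h1 | h1
      · exact h1
      · exact absurd h1 (InfinitePlace.not_isComplex_iff_isReal.2 hw)
    have e := Pd2_emb hw hv'
    have h2 : ((InfinitePlace.embedding_of_isReal hw d : ℝ) : ℂ) =
        ((InfinitePlace.embedding_of_isReal hvr x ^ 2 : ℝ) : ℂ) := by
      rw [InfinitePlace.embedding_of_isReal_apply, ← e, RingHom.comp_apply, ← hx, map_pow,
        Complex.ofReal_pow, InfinitePlace.embedding_of_isReal_apply]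
    have h3 : InfinitePlace.embedding_of_isReal hw d =
        InfinitePlace.embedding_of_isReal hvr x ^ 2 := by exact_mod_cast h2
    rw [h3]
    have h4 : InfinitePlace.embedding_of_isReal hvr x ≠ 0 :=
      fun h5 => hx0 ((map_eq_zero _).1 h5)
    positivity
  · intro h v hv
    rw [InfinitePlace.isUnramified_iff, hv]
    rcases InfinitePlace.isReal_or_isComplex w with hw | hw
    · left
      have e := Pd2_emb hw hv
      have hpos := h hw
      set r := InfinitePlace.embedding_of_isReal hw d with hr
      have h1 : v.embedding x ^ 2 = ((r : ℝ) : ℂ) := by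
        rw [hr, InfinitePlace.embedding_of_isReal_apply, ← e, RingHom.comp_apply, ← hx, map_pow]
      have h2 : (v.embedding x - ((Real.sqrt r : ℝ) : ℂ)) *
          (v.embedding x + ((Real.sqrt r : ℝ) : ℂ)) = 0 := by
        have h3 : ((Real.sqrt r : ℝ) : ℂ) ^ 2 = ((r : ℝ) : ℂ) := by
          rw [← Complex.ofReal_pow, Real.sq_sqrt hpos.le]
        linear_combination h1 - h3
      have h4 : (starRingEnd ℂ) (v.embedding x) = v.embedding x := by
        rcases mul_eq_zero.1 h2 with h3 | h3
        · rw [sub_eq_zero.1 h3, Complex.conj_ofReal]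
        · rw [eq_neg_of_add_eq_zero_left h3, map_neg, Complex.conj_ofReal]
      have hc := InfinitePlace.conjugate_embedding_eq_of_isReal hw
      have h5 : ∀ a : N, (starRingEnd ℂ) (v.embedding (algebraMap N N' a)) =
          v.embedding (algebraMap N N' a) := by
        intro a
        have h6 := RingHom.congr_fun hc a
        rw [← e] at h6
        exact h6
      rw [InfinitePlace.isReal_iff]
      rw [ComplexEmbedding.isReal_iff]
      ext z
      rw [ComplexEmbedding.conjugate_coe_eq]
      obtain ⟨a, b, rfl⟩ := hgen z
      rw [map_add, map_mul, map_add, map_mul, h5, h5, h4]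
    · right
      exact hw

theorem card_places {N N' : Type*} [Field N] [NumberField N] [Field N'] [NumberField N']
    [Algebra N N'] (d : N) (x : N') (hx : x ^ 2 = algebraMap N N' d)
    (hn : ¬ ∃ y : N, algebraMap N N' y = x)
    (hgen : ∀ z : N', ∃ a b : N, z = algebraMap N N' a + algebraMap N N' b * x) :
    Fintype.card (InfinitePlace N') = Fintype.card (InfinitePlace N) + npos d := by
  classical
  have hx0 : x ≠ 0 := by
    rintro rfl
    exact hn ⟨0, map_zero _⟩
  have hfr := Pd2_finrank x hn hgen
  have hfin : FiniteDimensional N N' := Module.finite_of_finrank_pos (by rw [hfr]; norm_num)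
  have hq : Algebra.IsQuadraticExtension N N' := ⟨hfr⟩
  have hgal : IsGalois N N' := inferInstance
  rw [InfinitePlace.card_eq_card_isUnramifiedIn (k := N) (K := N'), hfr]
  have h1 : npos d =
      (Finset.univ.filter fun w : InfinitePlace N => w.IsUnramifiedIn N').card := by
    rw [npos, Nat.card_eq_fintype_card, Fintype.card_subtype]
    congr 1
    ext w
    simp only [Finset.mem_filter, Finset.mem_univ, true_and]
    exact (Pd2_iff d x hx hx0 hgen w).symm
  have h2 := Finset.card_add_card_compl
    (Finset.univ.filter fun w : InfinitePlace N => w.IsUnramifiedIn N')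
  rw [h1]
  omega

theorem npos_one {N : Type*} [Field N] [NumberField N] :
    npos (1 : N) = Fintype.card (InfinitePlace N) := by
  rw [npos, ← Nat.card_eq_fintype_card]
  refine Nat.card_congr (Equiv.subtypeUnivEquiv fun v h => ?_)
  rw [map_one]
  exact one_pos

end Pool.Agent.Lib.MP_1a91b9_ntT.CT
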