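import Pool.Agent.Lib.MP_1a91b9_ntT.Base
import Pool.Agent.Lib.MP_1a91b9_ntT.Rq.D1

/-!
# JOB Pe: the discriminant of a quadratic extension, up to squares

PROOF. Let `b` be a `ℚ`-basis of `N` (for instance `integralBasis N`), indexed by `ι`, and `b'` the basis `(b i, b i * x)` of `N'`
indexed by `ι ⊕ ι`. The trace of `N'/ℚ`: `Tr(z) = 2 Tr_N(z)` for `z ∈ N`, `Tr(z x) = 0` (`Algebra.trace_trace`, `Tr_{N'/N}(x) = 0`: the
minimal polynomial is `X² - d`). So the trace matrix of `b'` is block diagonal with blocks `2 T` and `2 T_d`, `T = (Tr (b i b j))`,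
`T_d = (Tr (b i b j d))`, and `det T_d = norm d * det T` (`T_d = T * (matrix of multiplication by d)`; `Algebra.norm_eq_matrix_det`,
`leftMulMatrix`). So `discr ℚ b' = 4^n norm(d) (discr ℚ b)²`. With `b = integralBasis N`: `discr ℚ b = discr N`
(`coe_discr`); `discr ℚ b'` and `discr N'` differ by the square of the determinant of a rational matrix, non-zero
(`Algebra.discr_of_matrix_vecMul`, `Module.Basis.toMatrix`; `Algebra.discr_not_zero_of_basis`); the index types
`ι ⊕ ι` and `Free.ChooseBasisIndex ℤ (𝓞 N')` have the same cardinality: `Algebra.discr_reindex`. See also `Rq/D1.lean`, `Rq/D2.lean` for similar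
computations. So `discr N' * q² = 4^n norm(d) (discr N)²`; take absolute values and square roots.
-/

set_option autoImplicit false

namespace Pool.Agent.Lib.MP_1a91b9_ntT.CT

open NumberField

section basisTwo

variable {N N' : Type*} [Field N] [Field N'] [Algebra N N']

private theorem Pe_basis (x : N')
    (hn : ¬ ∃ y : N, algebraMap N N' y = x)
    (hgen : ∀ z : N', ∃ a b : N, z = algebraMap N N' a + algebraMap N N' b * x) :
    ∃ β : Module.Basis (Fin 2) N N', β 0 = 1 ∧ β 1 = x := by
  have hli : LinearIndependent N ![(1 : N'), x] := by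
    rw [LinearIndependent.pair_iff]
    intro s t hst
    rw [Algebra.smul_def, Algebra.smul_def, mul_one] at hst
    have ht : t = 0 := by
      by_contra ht
      apply hn
      have ht' : algebraMap N N' t ≠ 0 := by rwa [Ne, map_eq_zero]
      refine ⟨-s / t, ?_⟩
      rw [map_div₀, map_neg, div_eq_iff ht']
      linear_combination -hst
    refine ⟨?_, ht⟩
    rw [ht, map_zero, zero_mul, add_zero, map_eq_zero] at hst
    exact hst
  have hsp : ⊤ ≤ Submodule.span N (Set.range ![(1 : N'), x]) := by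
    intro z _
    obtain ⟨a, b, rfl⟩ := hgen z
    have h1 : algebraMap N N' a + algebraMap N N' b * x = a • (1 : N') + b • x := by
      rw [Algebra.smul_def, Algebra.smul_def, mul_one]
    rw [h1]
    refine Submodule.add_mem _ (Submodule.smul_mem _ _ (Submodule.subset_span ⟨0, rfl⟩))
      (Submodule.smul_mem _ _ (Submodule.subset_span ⟨1, rfl⟩))
  refine ⟨Module.Basis.mk hli hsp, ?_, ?_⟩
  · rw [Module.Basis.mk_apply]; rfl
  · rw [Module.Basis.mk_apply]; rfl

private theorem Pe_trace (β : Module.Basis (Fin 2) N N') (d : N) (x : N')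
    (hx : x ^ 2 = algebraMap N N' d) (h0 : β 0 = 1) (h1 : β 1 = x) :
    Algebra.trace N N' x = 0 := by
  classical
  rw [Algebra.trace_eq_matrix_trace β, Matrix.trace_fin_two, Algebra.leftMulMatrix_eq_repr_mul,
    Algebra.leftMulMatrix_eq_repr_mul, h0, mul_one]
  have e1 : β.repr x 0 = 0 := by
    rw [← h1, β.repr_self]
    simp
  have e2 : β.repr (x * β 1) 1 = 0 := by
    have : x * β 1 = d • β 0 := by
      rw [h0, h1, Algebra.smul_def, mul_one, ← hx, sq]
    rw [this, map_smul, β.repr_self]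
    simp
  rw [e1, e2, add_zero]

private theorem Pe_trace_base (β : Module.Basis (Fin 2) N N') (c : N) :
    Algebra.trace N N' (algebraMap N N' c) = 2 * c := by
  rw [Algebra.trace_algebraMap_of_basis β]
  simp

end basisTwo

theorem disc_quad {N N' : Type*} [Field N] [NumberField N] [Field N'] [NumberField N']
    [Algebra N N'] (d : N) (x : N') (hx : x ^ 2 = algebraMap N N' d)
    (hn : ¬ ∃ y : N, algebraMap N N' y = x)
    (hgen : ∀ z : N', ∃ a b : N, z = algebraMap N N' a + algebraMap N N' b * x) :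
    ∃ q : ℚ, q ≠ 0 ∧ 2 ^ Module.finrank ℚ N * Real.sqrt |(Algebra.norm ℚ d : ℝ)| *
      |(discr N : ℝ)| = q * Real.sqrt |(discr N' : ℝ)| := by
  classical
  have : IsScalarTower ℚ N N' := IsScalarTower.of_algebraMap_eq' (Subsingleton.elim _ _)
  obtain ⟨β, hβ0, hβ1⟩ := Pe_basis x hn hgen
  have hfin : FiniteDimensional N N' := Module.Finite.of_basis β
  have htx : Algebra.trace N N' x = 0 := Pe_trace β d x hx hβ0 hβ1
  set n := Module.finrank ℚ N with hndef
  let b : Module.Basis (Fin n) ℚ N := Module.finBasis ℚ N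
  let e : Fin 2 × Fin n ≃ Fin n ⊕ Fin n :=
    (finTwoEquiv.prodCongr (Equiv.refl _)).trans (Equiv.boolProdEquivSum (Fin n))
  let B : Module.Basis (Fin n ⊕ Fin n) ℚ N' := ((b.smulTower' β)).reindex e
  have hB1 : ∀ i, B (Sum.inl i) = algebraMap N N' (b i) := by
    intro i
    have h1 : e.symm (Sum.inl i) = (0, i) := by
      rw [Equiv.symm_apply_eq]
      rfl
    show ((b.smulTower' β)).reindex e (Sum.inl i) = _
    rw [Module.Basis.reindex_apply, h1, Module.Basis.smulTower'_apply, hβ0, Algebra.smul_def,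
      mul_one]
  have hB2 : ∀ i, B (Sum.inr i) = algebraMap N N' (b i) * x := by
    intro i
    have h1 : e.symm (Sum.inr i) = (1, i) := by
      rw [Equiv.symm_apply_eq]
      rfl
    show ((b.smulTower' β)).reindex e (Sum.inr i) = _
    rw [Module.Basis.reindex_apply, h1, Module.Basis.smulTower'_apply, hβ1, Algebra.smul_def]
  -- traces
  have ht0 : ∀ c : N, Algebra.trace ℚ N' (algebraMap N N' c) = 2 * Algebra.trace ℚ N c := by
    intro c
    rw [← Algebra.trace_trace (S := N), Pe_trace_base β, two_mul, map_add, two_mul]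
  have ht1 : ∀ c : N, Algebra.trace ℚ N' (algebraMap N N' c * x) = 0 := by
    intro c
    rw [← Algebra.trace_trace (S := N), ← Algebra.smul_def, map_smul, htx, smul_zero, map_zero]
  obtain ⟨q, hq0, hq⟩ := Rq.disc_basis b
  obtain ⟨q', hq'0, hq'⟩ := Rq.disc_basis B
  set T : Matrix (Fin n) (Fin n) ℚ := Algebra.traceMatrix ℚ b with hT
  have hM : Algebra.traceMatrix ℚ B = Matrix.fromBlocks ((2 : ℚ) • T) 0 0
      ((2 : ℚ) • (T * Algebra.leftMulMatrix b d)) := by
    ext i j
    rcases i with i | i <;> rcases j with j | j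
    · rw [Matrix.fromBlocks_apply₁₁, Algebra.traceMatrix_apply, Algebra.traceForm_apply, hB1, hB1,
        ← map_mul, ht0, Matrix.smul_apply, smul_eq_mul, hT, Algebra.traceMatrix_apply,
        Algebra.traceForm_apply]
    · rw [Matrix.fromBlocks_apply₁₂, Algebra.traceMatrix_apply, Algebra.traceForm_apply, hB1, hB2,
        ← mul_assoc, ← map_mul, ht1]
      rfl
    · rw [Matrix.fromBlocks_apply₂₁, Algebra.traceMatrix_apply, Algebra.traceForm_apply, hB1, hB2,
        mul_right_comm, ← map_mul, ht1]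
      rfl
    · have e1 : algebraMap N N' (b i) * x * (algebraMap N N' (b j) * x) =
          algebraMap N N' (b i * (d * b j)) := by
        rw [map_mul, map_mul, ← hx]
        ring
      rw [Matrix.fromBlocks_apply₂₂, Algebra.traceMatrix_apply, Algebra.traceForm_apply, hB2, hB2,
        e1, ht0, Matrix.smul_apply, smul_eq_mul]
      congr 1
      rw [Matrix.mul_apply]
      have e2 : d * b j = ∑ k, Algebra.leftMulMatrix b d k j • b k := by
        have h3 := b.sum_repr (d * b j)
        rw [← h3]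
        refine Finset.sum_congr rfl fun k _ => ?_
        rw [Algebra.leftMulMatrix_eq_repr_mul]
      rw [e2, Finset.mul_sum, map_sum]
      refine Finset.sum_congr rfl fun k _ => ?_
      rw [mul_smul_comm, map_smul, smul_eq_mul, hT, Algebra.traceMatrix_apply,
        Algebra.traceForm_apply, mul_comm]
  have hdet : Algebra.discr ℚ B = 4 ^ n * Algebra.norm ℚ d * (Algebra.discr ℚ b) ^ 2 := by
    rw [Algebra.discr_def, Algebra.discr_def, hM, Matrix.det_fromBlocks_zero₂₁, Matrix.det_smul,
      Matrix.det_smul, Matrix.det_mul, ← Algebra.norm_eq_matrix_det, Fintype.card_fin]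
    have h4 : (4 : ℚ) ^ n = 2 ^ n * 2 ^ n := by
      rw [← mul_pow]; norm_num
    rw [h4]
    ring
  rw [hq, hq'] at hdet
  refine ⟨|q'| / q ^ 2, div_ne_zero (abs_ne_zero.2 hq'0) (pow_ne_zero 2 hq0), ?_⟩
  have hdetR : (q' : ℝ) ^ 2 * (discr N' : ℝ) =
      4 ^ n * (Algebra.norm ℚ d : ℝ) * ((q : ℝ) ^ 2 * (discr N : ℝ)) ^ 2 := by
    exact_mod_cast hdet
  have hq0R : (q : ℝ) ≠ 0 := by exact_mod_cast hq0
  have habs : |(q' : ℝ)| ^ 2 * |(discr N' : ℝ)| =
      (2 ^ n) ^ 2 * |(Algebra.norm ℚ d : ℝ)| * ((q : ℝ) ^ 2 * |(discr N : ℝ)|) ^ 2 := by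
    have h5 := congrArg abs hdetR
    rw [abs_mul, abs_pow, abs_mul, abs_mul, abs_pow, abs_pow, abs_mul, abs_pow] at h5
    rw [h5]
    have h6 : |(4 : ℝ)| ^ n = (2 ^ n) ^ 2 := by
      rw [abs_of_pos (by norm_num : (0 : ℝ) < 4), ← pow_mul, mul_comm n 2, pow_mul]
      norm_num
    rw [h6, sq_abs]
  have hsq : (|(q' : ℝ)| * Real.sqrt |(discr N' : ℝ)|) ^ 2 =
      (2 ^ n * Real.sqrt |(Algebra.norm ℚ d : ℝ)| * ((q : ℝ) ^ 2 * |(discr N : ℝ)|)) ^ 2 := by
    have h8 := Real.sq_sqrt (abs_nonneg (Algebra.norm ℚ d : ℝ))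
    rw [mul_pow, Real.sq_sqrt (abs_nonneg _), habs]
    linear_combination (-((2 ^ n) ^ 2 * ((q : ℝ) ^ 2 * |(discr N : ℝ)|) ^ 2)) * h8
  have h7 := (pow_left_inj₀ (by positivity) (by positivity) two_ne_zero).1 hsq
  push_cast
  rw [div_mul_eq_mul_div, h7]
  field_simp

end Pool.Agent.Lib.MP_1a91b9_ntT.CT
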