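import Pool.Agent.Lib.MP_1a91b9_ntT.CT.A1
import Pool.Agent.Lib.MP_1a91b9_ntT.CT.Pd2
import Pool.Agent.Lib.MP_1a91b9_ntT.CT.Pe
import Pool.Agent.Lib.MP_1a91b9_ntT.Rq.Fin

/-!
# JOB A2: the value of the L-function of a twist

PROOF. `twist_coreE` gives `g` (entire, `= W.LSeries` for `Re s > 3/2`, `g 1 ≠ 0`). `Rq.fin_N` for `N` and for `M`
(`Tower M` by `Tower.step`) gives `g₀, q₀` and `g', q'`. `LSeries_fac` and `entire_eq` (S4) : `g' = g₀ g`, so
`g' 1 = g₀ 1 * g 1`. With `P = ∏ perAt (E N)`, `P' = ∏ perAt (E M)`, `T = ∏ perAt (tw δ)`, `n = finrank ℚ N`: `Per.prod_perAt` (for `N` and `M`),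
`card_places`, `prod_tw`: `P' = P * T * 2^n * √|norm δ|` (`finrank ℚ M = 2 n`). `disc_quad`: `2^n √|norm δ| |D| = q₃ √|D'|`.
`g₀ 1 √|D| = q₀ P`, `g' 1 √|D'| = q' P'`. So `g 1 √|D| = (q' / q₀) q₃ T`, `q = q' q₃ / (q₀ 2^n)`.
Odd: `Rq.odd_of_unit`; for `A` with `Two A`: `A.valuation √|D| = 1` (`Per.val_sqrt_odd`), so from the first formulas
`A.valuation (g₀ 1) = A.valuation Om ^ n`, `A.valuation (g' 1) = A.valuation Om ^ (2 n)` (`Per.val_prod`; `val` of `q₀`, `q'` is 1: odd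
numerator and denominator, `S3.v_odd`, see `h3` in `Rq/TwoPartQ.lean`), `A.valuation (g 1) = A.valuation Om ^ n`, and
`A.valuation (2^n T) = A.valuation Om ^ n` from `prod_tw` (`Per.val_sqrt_three`, `Per.val_norm_Om`, and
`A.valuation √|norm δ| = 1`: `norm δ` is an odd integer since `IsCoprime δ 2`; `Per.val_sqrt_odd` with `d = Algebra.norm ℤ δ`,
`Algebra.coe_norm_int`/`RingOfIntegers` lemmas).
(`ana_one`): the case `δ = 1`: `Rq.fin_N`, `P = 2^n * ∏ perAt (tw 1)` (`prod_tw`, `npos_one`, `Per.prod_perAt`, `norm 1 = 1`), `LSeries`: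
`S7.half_tower`.
-/

set_option autoImplicit false

namespace Pool.Agent.Lib.MP_1a91b9_ntT.CT

open NumberField IsDedekindDomain
open Pool.Agent.Lib.MP_1a91b9_ntT.S4 Pool.Agent.Lib.MP_1a91b9_ntT.S7 Pool.Agent.Lib.MP_1a91b9_nt
open Pool.Agent.Lib.MP_1a91b9_ntT.S10 Pool.Agent.Lib.MP_1a91b9_ntT.TW

universe u

/-- The analytic statement. -/
def Ana {N : Type u} [Field N] [NumberField N] (W : WeierstrassCurve N) (δ : N) : Prop :=
  ∃ (g : ℂ → ℂ) (q : ℚ), Differentiable ℂ g ∧ (∀ s : ℂ, 3 / 2 < s.re → g s = W.LSeries s) ∧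
    g 1 ≠ 0 ∧ Odd q.num ∧ Odd q.den ∧
    g 1 * (Real.sqrt |(discr N : ℝ)| : ℝ) =
      (q : ℂ) * ((2 ^ Module.finrank ℚ N * ∏ v : InfinitePlace N, Per.perAt (tw δ) v : ℝ) : ℂ)

private theorem a2_norm_odd_aux {F : Type*} [Field F] [NumberField F] (c : 𝓞 F) :
    Odd (Algebra.norm ℤ (1 - c * 2)) := by
  classical
  rw [Algebra.norm_eq_matrix_det (RingOfIntegers.basis F)]
  have h1 : (Int.castRingHom (ZMod 2)) (Algebra.leftMulMatrix (RingOfIntegers.basis F)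
      (1 - c * 2)).det = 1 := by
    rw [RingHom.map_det]
    have h2 : (Int.castRingHom (ZMod 2)).mapMatrix (Algebra.leftMulMatrix (RingOfIntegers.basis F)
        (1 - c * 2)) = 1 := by
      have h3 : (2 : 𝓞 F) = 1 + 1 := by norm_num
      rw [h3, mul_add, mul_one, map_sub, map_add, map_one, map_sub, map_add, map_one]
      have h4 : ∀ M : Matrix (Module.Free.ChooseBasisIndex ℤ (𝓞 F))
          (Module.Free.ChooseBasisIndex ℤ (𝓞 F)) (ZMod 2), M + M = 0 := by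
        intro M
        ext i j
        rw [Matrix.add_apply, Matrix.zero_apply]
        exact CharTwo.add_self_eq_zero _
      rw [h4, sub_zero]
    rw [h2, Matrix.det_one]
  rw [← Int.not_even_iff_odd, even_iff_two_dvd]
  intro h
  rw [eq_intCast, (ZMod.intCast_zmod_eq_zero_iff_dvd _ 2).2 (by exact_mod_cast h)] at h1
  exact zero_ne_one h1

private theorem a2_norm_odd {F : Type*} [Field F] [NumberField F] (δ : 𝓞 F)
    (h : IsCoprime δ 2) : Odd (Algebra.norm ℤ δ) := by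
  obtain ⟨a, b, hab⟩ := h
  have h1 : a * δ = 1 - b * 2 := by linear_combination hab
  have h2 := a2_norm_odd_aux b
  rw [← h1, map_mul] at h2
  exact (Int.odd_mul.1 h2).2

/-- a rational number with odd numerator and denominator is a unit at `2` -/
private theorem a2_val_rat {A : ValuationSubring ℂ} (hA : Two A) {q : ℚ} (hn : Odd q.num)
    (hd : Odd q.den) : A.valuation (q : ℂ) = 1 := by
  have h4 : (q : ℂ) * ((q.den : ℤ) : ℂ) = (q.num : ℂ) := by
    rw [Rat.cast_def, Int.cast_natCast, div_mul_cancel₀ _ (by exact_mod_cast q.den_nz)]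
  have h5 := congrArg A.valuation h4
  rw [map_mul, S3.v_odd hA (by exact_mod_cast hd), mul_one, S3.v_odd hA hn] at h5
  exact h5

/-- the valuation of the period of the twist -/
private theorem a2_val_tw {A : ValuationSubring ℂ} (hA : Two A) {F : Type*} [Field F]
    [NumberField F] (d : F) (m : ℤ) (hm : Odd m) (hd : (m : ℚ) = Algebra.norm ℚ d) (hd0 : d ≠ 0) :
    A.valuation ((2 ^ Module.finrank ℚ F * ∏ v : InfinitePlace F, Per.perAt (tw d) v : ℝ) : ℂ)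
      = A.valuation Om ^ Module.finrank ℚ F := by
  have hnd : A.valuation ((Real.sqrt |((Algebra.norm ℚ d : ℚ) : ℝ)| : ℝ) : ℂ) = 1 := by
    have h1 := Per.val_sqrt_odd hA hm
    rw [← hd, Rat.cast_intCast]
    exact h1
  have hn0 : Real.sqrt |((Algebra.norm ℚ d : ℚ) : ℝ)| ≠ 0 := by
    intro h0
    rw [h0] at hnd
    simp at hnd
  have e : (2 ^ Module.finrank ℚ F * ∏ v : InfinitePlace F, Per.perAt (tw d) v : ℝ) *
      Real.sqrt |((Algebra.norm ℚ d : ℚ) : ℝ)| =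
      Real.sqrt 3 ^ npos d * ‖Om‖ ^ Module.finrank ℚ F := by
    rw [prod_tw d hd0]
    field_simp
  have h2 := congrArg (fun z : ℝ => A.valuation (z : ℂ)) e
  simp only [Complex.ofReal_mul, map_mul, hnd, mul_one, Complex.ofReal_pow, map_pow,
    Per.val_sqrt_three hA, Per.val_norm_Om, one_pow, one_mul] at h2
  rw [Complex.ofReal_mul, map_mul, Complex.ofReal_pow, map_pow]
  exact h2

theorem ana_twist (N M : Type u) [Field N] [NumberField N] [Field M] [NumberField M]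
    [Algebra N M] (hT : Tower N) (hdN : Odd (discr N)) (hdM : Odd (discr M))
    (δ : 𝓞 N) (hδ : Adm N δ) (x : M)
    (hx : x ^ 2 = algebraMap N M δ) (hn : ¬ ∃ y : N, algebraMap N M y = x)
    (hgen : ∀ z : M, ∃ a b : N, z = algebraMap N M a + algebraMap N M b * x)
    (W : WeierstrassCurve N) (hW : TwistLoc M W) : Ana W (δ : N) := by
  have hTM : Tower M := Tower.step N M δ hδ x hx hn hgen hT
  obtain ⟨g, hg, hgs, hg1⟩ := twist_coreE N M hT δ hδ x hx hn hgen W hW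
  obtain ⟨g₀, q₀, hg₀, hgs₀, hg₀1, hn₀, hd₀, hq₀⟩ := Rq.fin_N N hT hdN
  obtain ⟨g', q', hg', hgs', hg'1, hn', hd', hq'⟩ := Rq.fin_N M hTM hdM
  obtain ⟨q₃, hq₃, hdisc⟩ := disc_quad (δ : N) x hx hn hgen
  have hfac : g' 1 = g₀ 1 * g 1 := by
    have h1 := entire_eq hg' (hg₀.mul hg) fun s hs => by
      rw [hgs' s hs, LSeries_fac N M hT δ hδ x hx hn hgen W hW s hs]
      change _ = g₀ s * g s
      rw [hgs₀ s hs, hgs s (by linarith)]
    exact congrFun h1 1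
  have hδ0 : (δ : N) ≠ 0 := by
    intro h0
    apply hn
    refine ⟨0, ?_⟩
    rw [map_zero]
    have h1 : x ^ 2 = 0 := by rw [hx, h0, map_zero]
    exact (pow_eq_zero_iff two_ne_zero).1 h1 |>.symm
  have hfr : Module.finrank ℚ M = 2 * Module.finrank ℚ N := by
    rw [← Module.finrank_mul_finrank ℚ N M, S4.finrank_step _ x hx hn hgen, mul_comm]
  have hnorm : ((Algebra.norm ℤ δ : ℤ) : ℚ) = Algebra.norm ℚ (δ : N) := Algebra.coe_norm_int δ
  have hodd := a2_norm_odd δ hδ.odd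
  -- the periods
  obtain ⟨n, hnn⟩ : ∃ n, n = Module.finrank ℚ N := ⟨_, rfl⟩
  obtain ⟨P, hP⟩ : ∃ P : ℝ, P = ∏ v : InfinitePlace N, Per.perAt (E N) v := ⟨_, rfl⟩
  obtain ⟨P', hP'⟩ : ∃ P : ℝ, P = ∏ v : InfinitePlace M, Per.perAt (E M) v := ⟨_, rfl⟩
  obtain ⟨T, hT'⟩ : ∃ P : ℝ, P = ∏ v : InfinitePlace N, Per.perAt (tw (δ : N)) v := ⟨_, rfl⟩
  obtain ⟨nd, hnd⟩ : ∃ r : ℝ, r = Real.sqrt |((Algebra.norm ℚ (δ : N) : ℚ) : ℝ)| := ⟨_, rfl⟩
  obtain ⟨sD, hsD⟩ : ∃ r : ℝ, r = Real.sqrt |(discr N : ℝ)| := ⟨_, rfl⟩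
  obtain ⟨sD', hsD'⟩ : ∃ r : ℝ, r = Real.sqrt |(discr M : ℝ)| := ⟨_, rfl⟩
  have hnd0 : nd ≠ 0 := by
    rw [hnd, Real.sqrt_ne_zero (abs_nonneg _), abs_ne_zero, Rat.cast_ne_zero]
    exact Algebra.norm_ne_zero_iff.2 hδ0
  have hsD'0 : sD' ≠ 0 := by
    rw [hsD', Real.sqrt_ne_zero (abs_nonneg _), abs_ne_zero, Int.cast_ne_zero]
    exact discr_ne_zero M
  have hP0 : P ≠ 0 := hP ▸ Per.prod_perAt_pos.ne'
  have hsq : sD * sD = |(discr N : ℝ)| := by rw [hsD, Real.mul_self_sqrt (abs_nonneg _)]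
  have hPP : P' = P * T * (2 ^ n * nd) := by
    rw [hP', hP, hT', Per.prod_perAt, Per.prod_perAt, prod_tw _ hδ0, hfr,
      card_places (δ : N) x hx hn hgen, ← hnn, ← hnd]
    field_simp
    ring
  have hdisc2 : 2 ^ n * nd * (sD * sD) = q₃ * sD' := by
    rw [hsq, hnn, hnd, hsD']
    exact hdisc
  rw [← hsD, ← hP] at hq₀
  rw [← hsD', ← hP'] at hq'
  have hq₀0 : (q₀ : ℂ) ≠ 0 := by
    have h1 : q₀ ≠ 0 := by
      rintro rfl
      simp at hn₀
    exact_mod_cast h1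
  have hPc : (P : ℂ) ≠ 0 := by exact_mod_cast hP0
  have hsDc : (sD' : ℂ) ≠ 0 := by exact_mod_cast hsD'0
  -- the main identity
  have key : g 1 * (sD : ℂ) * (q₀ : ℂ) = (q' : ℂ) * (q₃ : ℂ) * (T : ℂ) := by
    have e1 : (P' : ℂ) = P * T * (2 ^ n * nd) := by exact_mod_cast hPP
    have e2 : (2 : ℂ) ^ n * nd * (sD * sD) = q₃ * sD' := by exact_mod_cast hdisc2
    rw [e1, hfac] at hq'
    have e3 : (g 1 * (sD : ℂ) * (q₀ : ℂ)) * ((P : ℂ) * sD') =
        ((q' : ℂ) * (q₃ : ℂ) * (T : ℂ)) * ((P : ℂ) * sD') := by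
      calc (g 1 * (sD : ℂ) * (q₀ : ℂ)) * ((P : ℂ) * sD')
          = g 1 * (sD : ℂ) * ((q₀ : ℂ) * (P : ℂ)) * sD' := by ring
        _ = g 1 * (sD : ℂ) * (g₀ 1 * (sD : ℂ)) * sD' := by rw [hq₀]
        _ = (g₀ 1 * g 1 * (sD' : ℂ)) * (sD * sD) := by ring
        _ = (q' : ℂ) * (P * T * (2 ^ n * nd)) * (sD * sD) := by rw [hq']
        _ = (q' : ℂ) * P * T * (2 ^ n * nd * (sD * sD)) := by ring
        _ = (q' : ℂ) * P * T * (q₃ * sD') := by rw [e2]
        _ = ((q' : ℂ) * (q₃ : ℂ) * (T : ℂ)) * ((P : ℂ) * sD') := by ring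
    exact mul_right_cancel₀ (mul_ne_zero hPc hsDc) e3
  have hmain : g 1 * (sD : ℂ) =
      ((q' * q₃ / (q₀ * 2 ^ n) : ℚ) : ℂ) * ((2 ^ n * T : ℝ) : ℂ) := by
    push_cast
    field_simp
    linear_combination key
  -- the valuations
  have hO : ∀ A : ValuationSubring ℂ, A.valuation Om ≠ 0 := fun A => (map_ne_zero _).2 Om_ne_zero
  have hval : ∀ A : ValuationSubring ℂ, Two A →
      A.valuation (((q' * q₃ / (q₀ * 2 ^ n) : ℚ)) : ℂ) = 1 := by
    intro A hA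
    have v0 : A.valuation (g₀ 1) = A.valuation Om ^ n := by
      have h1 := congrArg A.valuation hq₀
      rw [map_mul, map_mul, hsD, Per.val_sqrt_odd hA hdN, a2_val_rat hA hn₀ hd₀, hP,
        Per.val_prod hA, mul_one, one_mul, ← hnn] at h1
      exact h1
    have v1 : A.valuation (g' 1) = A.valuation Om ^ (2 * n) := by
      have h1 := congrArg A.valuation hq'
      rw [map_mul, map_mul, hsD', Per.val_sqrt_odd hA hdM, a2_val_rat hA hn' hd', hP',
        Per.val_prod hA, mul_one, one_mul, hfr, ← hnn] at h1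
      exact h1
    have v2 : A.valuation (g 1) = A.valuation Om ^ n := by
      rw [hfac, map_mul, v0, two_mul, pow_add] at v1
      exact mul_left_cancel₀ (pow_ne_zero _ (hO A)) v1
    have v3 : A.valuation ((2 ^ n * T : ℝ) : ℂ) = A.valuation Om ^ n := by
      rw [hnn, hT']
      exact a2_val_tw hA (δ : N) _ hodd hnorm hδ0
    have h1 := congrArg A.valuation hmain
    rw [map_mul, map_mul, v2, v3, hsD, Per.val_sqrt_odd hA hdN, mul_one] at h1
    exact (mul_eq_right₀ (pow_ne_zero _ (hO A))).1 h1.symm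
  obtain ⟨o1, o2⟩ := Rq.odd_of_unit hval
  refine ⟨g, _, hg, hgs, hg1, o1, o2, ?_⟩
  rw [← hsD, ← hnn, ← hT']
  exact hmain

theorem ana_one (N : Type u) [Field N] [NumberField N] (hT : Tower N) (hdN : Odd (discr N))
    (W : WeierstrassCurve N) (hW : ∀ v, locPoly W v = locPoly (E N) v) : Ana W (1 : N) := by
  obtain ⟨g₀, q₀, hg₀, hgs₀, hg₀1, hn₀, hd₀, hq₀⟩ := Rq.fin_N N hT hdN
  refine ⟨g₀, q₀, hg₀, fun s hs => ?_, hg₀1, hn₀, hd₀, ?_⟩
  · rw [LSeries_congr_loc W (E N) hW]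
    exact S7.half_tower N hT hg₀ hgs₀ s hs
  · rw [hq₀]
    congr 2
    rw [prod_tw (1 : N) one_ne_zero, npos_one, Per.prod_perAt, map_one]
    simp only [Rat.cast_one, abs_one, Real.sqrt_one, mul_one]
    field_simp

end Pool.Agent.Lib.MP_1a91b9_ntT.CT
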