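import Pool.Agent.Lib.MP_1a91b9_ntT.CT.La
import Pool.Agent.Lib.MP_1a91b9_ntT.CT.Lb

/-!
# JOB Ld: the places of good reduction of the twists

`ns_even`: choose `p : N_v` with `v(p) = exp (-k)` (`HeightOneSpectrum.valuedAdicCompletion_surjective`), `δ' = δ p²` is a unit;
`tw δ'` is integral (it is `(tw d').baseChange` for `d' : O_v`, `tw_map`) with unit discriminant (`tw_Δ`, `v(2) = v(3) = 1`);
`C₁ • tw δ = tw δ'` with `C₁ = ⟨p⁻¹, 0, 0, 0⟩` (`exists_tw_scale`), so `C • tw δ = (C * C₁⁻¹) • tw δ'`; `unit_min`, `min_int`,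
`ns_unit`.
`ns_two`: `twm a b` is integral (`twm_map`), `Δ = -(3^3 (a² + 4 b)^6)` is a unit (`v(3) = 1` since `v(2) < 1`); the explicit change
`C₁ = ⟨2, 0, 0, 4 a³⟩` of `exists_twm` (do the computation again, the statement of `exists_twm` hides `u = 2`) has
`C₁ • tw (a² + 4 b) = twm a b`; `unit_min` for `C * C₁⁻¹` gives `v(u(C)) v(2)⁻¹ = 1`.
`u_even`: the same for `v ∤ 6`, `δ` a unit: here `tw δ` itself is integral with unit discriminant.
-/

set_option autoImplicit false

namespace Pool.Agent.Lib.MP_1a91b9_ntT.CT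

open NumberField IsDedekindDomain WeierstrassCurve WithZero Pool.Agent.Lib.MP_1a91b9_ntT.S9
open Pool.Agent.Lib.MP_1a91b9_ntT.TW
open scoped Classical

variable {N : Type*} [Field N] [NumberField N]

private theorem ld_unit {v : HeightOneSpectrum (𝓞 N)}
    {W W₀ : WeierstrassCurve (v.adicCompletion N)}
    (I : WeierstrassCurve (v.adicCompletionIntegers N))
    (hI : W₀ = I.baseChange (v.adicCompletion N)) (hΔ : Valued.v W₀.Δ = 1)
    (C₁ C : VariableChange (v.adicCompletion N)) (h1 : C₁ • W = W₀)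
    (hm : IsMinimal (v.adicCompletionIntegers N) (C • W)) :
    ns (C • W) = ⊤ ∧
      Valued.v (C.u : v.adicCompletion N) = Valued.v (C₁.u : v.adicCompletion N) := by
  have h2 : C • W = (C * C₁⁻¹) • W₀ := by
    rw [mul_smul, ← h1, inv_smul_smul]
  have hm' := hm
  rw [h2] at hm'
  obtain ⟨h3, h4⟩ := unit_min W₀ I hI hΔ (C * C₁⁻¹) hm'
  obtain ⟨I', hI'⟩ := min_int (C • W) hm
  refine ⟨ns_unit (C • W) I' hI' (by rw [h2]; exact h3), ?_⟩
  have h5 : ((C * C₁⁻¹).u : v.adicCompletion N) =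
      (C.u : v.adicCompletion N) * ((C₁.u⁻¹ : (v.adicCompletion N)ˣ) : v.adicCompletion N) := by
    rw [VariableChange.mul_def, VariableChange.inv_def, Units.val_mul]
  rw [h5] at h4
  have h6 : (C.u : v.adicCompletion N) =
      ((C.u : v.adicCompletion N) * ((C₁.u⁻¹ : (v.adicCompletion N)ˣ) : v.adicCompletion N)) *
        (C₁.u : v.adicCompletion N) := by
    rw [mul_assoc, ← Units.val_mul, inv_mul_cancel, Units.val_one, mul_one]
  rw [h6, map_mul, h4, one_mul]

private theorem ld_two (v : HeightOneSpectrum (𝓞 N)) :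
    Valued.v (2 : v.adicCompletion N) = v.valuation N 2 := by
  have h : algebraMap N (v.adicCompletion N) 2 = 2 := map_ofNat _ 2
  rw [← Pool.Agent.Lib.MP_1a91b9_nt.valued_algebraMap, h]

private theorem ld_three (v : HeightOneSpectrum (𝓞 N)) :
    Valued.v (3 : v.adicCompletion N) = v.valuation N 3 := by
  have h : algebraMap N (v.adicCompletion N) 3 = 3 := map_ofNat _ 3
  rw [← Pool.Agent.Lib.MP_1a91b9_nt.valued_algebraMap, h]

private theorem ld_twm {k : Type*} [Field k] (h2 : (2 : k) ≠ 0) (a b : k) :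
    (⟨Units.mk0 2 h2, 0, 0, 4 * a ^ 3⟩ : VariableChange k) • tw (a ^ 2 + 4 * b) = twm a b := by
  rw [WeierstrassCurve.variableChange_def]
  ext
  · simp [tw, twm]
  · simp [tw, twm]
  · simp only [tw, twm, Units.val_inv_eq_inv_val, Units.val_mk0]
    field_simp
    ring
  · simp [tw, twm]
  · simp only [tw, twm, Units.val_inv_eq_inv_val, Units.val_mk0]
    field_simp
    ring

private theorem ld_int {v : HeightOneSpectrum (𝓞 N)} (x : v.adicCompletion N)
    (hx : Valued.v x ≤ 1) : ∃ r : v.adicCompletionIntegers N,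
      algebraMap (v.adicCompletionIntegers N) (v.adicCompletion N) r = x :=
  ⟨⟨x, hx⟩, rfl⟩

private theorem ld_tw {v : HeightOneSpectrum (𝓞 N)} (δ : v.adicCompletion N)
    (hδ : Valued.v δ = 1) : ∃ I : WeierstrassCurve (v.adicCompletionIntegers N),
      tw δ = I.baseChange (v.adicCompletion N) := by
  obtain ⟨r, hr⟩ := ld_int δ hδ.le
  refine ⟨tw r, ?_⟩
  rw [WeierstrassCurve.baseChange, tw_map, hr]

private theorem ld_twΔ {v : HeightOneSpectrum (𝓞 N)} (h2 : v.valuation N 2 = 1)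
    (h3 : v.valuation N 3 = 1) (δ : v.adicCompletion N)
    (hδ : Valued.v δ = 1) : Valued.v (tw δ).Δ = 1 := by
  rw [tw_Δ, Valuation.map_neg, map_mul, map_mul, map_pow, map_pow, map_pow, ld_two, ld_three,
    h2, h3, hδ, one_pow, one_pow, one_pow, one_mul, one_mul]

theorem ns_even {v : HeightOneSpectrum (𝓞 N)} (h2 : v.valuation N 2 = 1)
    (h3 : v.valuation N 3 = 1) (δ : v.adicCompletion N) (k : ℤ) (hδ : Valued.v δ = exp (2 * k))
    (C : VariableChange (v.adicCompletion N))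
    (hm : IsMinimal (v.adicCompletionIntegers N) (C • tw δ)) : ns (C • tw δ) = ⊤ := by
  obtain ⟨p, hp⟩ := HeightOneSpectrum.valuedAdicCompletion_surjective N v (exp (-k))
  have hp0 : p ≠ 0 := by
    rintro rfl
    rw [map_zero] at hp
    exact exp_ne_zero hp.symm
  have hδ' : Valued.v (δ * p ^ 2) = 1 := by
    rw [map_mul, map_pow, hδ, hp, ← exp_nsmul, ← exp_add, ← exp_zero]
    congr 1
    rw [nsmul_eq_mul]
    push_cast
    ring
  obtain ⟨C₁, hC₁⟩ := exists_tw_scale δ p hp0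
  obtain ⟨I, hI⟩ := ld_tw (δ * p ^ 2) hδ'
  exact (ld_unit I hI (ld_twΔ h2 h3 _ hδ') C₁ C hC₁ hm).1

theorem u_even {v : HeightOneSpectrum (𝓞 N)} (h2 : v.valuation N 2 = 1)
    (h3 : v.valuation N 3 = 1) (δ : v.adicCompletion N) (hδ : Valued.v δ = 1)
    (C : VariableChange (v.adicCompletion N))
    (hm : IsMinimal (v.adicCompletionIntegers N) (C • tw δ)) :
    Valued.v (C.u : v.adicCompletion N) = 1 := by
  obtain ⟨I, hI⟩ := ld_tw δ hδ
  have h4 := (ld_unit I hI (ld_twΔ h2 h3 _ hδ) 1 C (one_smul _ _) hm).2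
  rw [h4, VariableChange.one_def, Units.val_one, map_one]

theorem ns_two {v : HeightOneSpectrum (𝓞 N)} (h2 : v.valuation N 2 < 1)
    (a b : v.adicCompletion N) (ha : Valued.v a ≤ 1) (hb : Valued.v b ≤ 1)
    (hδ : Valued.v (a ^ 2 + 4 * b) = 1) (C : VariableChange (v.adicCompletion N))
    (hm : IsMinimal (v.adicCompletionIntegers N) (C • tw (a ^ 2 + 4 * b))) :
    ns (C • tw (a ^ 2 + 4 * b)) = ⊤ ∧
      Valued.v (C.u : v.adicCompletion N) = v.valuation N 2 := by
  have h20 : (2 : v.adicCompletion N) ≠ 0 := by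
    rw [← map_ofNat (algebraMap N (v.adicCompletion N)) 2]
    exact (map_ne_zero _).2 two_ne_zero
  have h3 : Valued.v (3 : v.adicCompletion N) = 1 := by
    have h4 : (3 : v.adicCompletion N) = 1 + 2 := by norm_num
    rw [h4]
    apply Valuation.map_one_add_of_lt
    rw [ld_two]
    exact h2
  have hC₁ : (⟨Units.mk0 2 h20, 0, 0, 4 * a ^ 3⟩ : VariableChange (v.adicCompletion N)) •
      tw (a ^ 2 + 4 * b) = twm a b := ld_twm h20 a b
  obtain ⟨a', ha'⟩ := ld_int a ha
  obtain ⟨b', hb'⟩ := ld_int b hb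
  have hI : twm a b = (twm a' b').baseChange (v.adicCompletion N) := by
    rw [WeierstrassCurve.baseChange, twm_map, ha', hb']
  have hΔ : Valued.v (twm a b).Δ = 1 := by
    rw [twm_Δ, Valuation.map_neg, map_mul, map_pow, map_pow, h3, hδ, one_pow, one_pow, one_mul]
  obtain ⟨h5, h6⟩ := ld_unit (twm a' b') hI hΔ _ C hC₁ hm
  refine ⟨h5, ?_⟩
  rw [h6, ← ld_two]
  rfl

end Pool.Agent.Lib.MP_1a91b9_ntT.CT
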