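import Pool.Agent.Lib.MP_1a91b9_ntT.CT.Le1
import Pool.Agent.Lib.MP_1a91b9_ntT.S9.EB
import Pool.Agent.Lib.MP_1a91b9_ntT.TW.Curve

/-!
# JOB Le2: halving on `y² = x³ + k`

(half_k) The line through `-Q = (x₀, -y₀)` of slope `l`: `x₁ = (l² - x₀)/2`, `y₁ = l (x₁ - x₀) - y₀`. From the quartic
`l⁴ - 6 x₀ l² - 8 y₀ l - 3 x₀² = 0` and `y₀² = x₀³ + k` one gets `y₁² = x₁³ + k` and `3 x₁² = 2 l y₁`. `y₁ ≠ 0`: otherwise `x₁ = 0` (char ≠ 3)
and `k = 0`. The tangent at `P = (x₁, y₁)` has slope `3 x₁²/(2 y₁) = l`, `2 P = (l² - 2 x₁, ...) = (x₀, y₀)`. See `half` and `eqn_iff`,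
`nons_iff` in `S9/EA.lean`, `S9/EB.lean` for the same with `y² + y = x³`.
(div_tw) `δ ≠ 0`; point `(x₀, y₀)` of `y² = x³ + 16 δ³`: `X = x₀/(4 δ)`, `γ = 4 X³ + 1`, `y₀² = 16 δ³ γ`; `t` from `exists_t`,
`l = y₀ t/(2 δ)`: `l⁴ - 6 x₀ l² - 8 y₀ l - 3 x₀² = 16 δ² (γ² t⁴ - 6 X γ t² - 4 γ t - 3 X²)` (using `y₀² = 16 δ³ γ`). `half_k`.
-/

set_option autoImplicit false

namespace Pool.Agent.Lib.MP_1a91b9_ntT.CT

open NumberField IsDedekindDomain WithZero WeierstrassCurve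
open Pool.Agent.Lib.MP_1a91b9_ntT.S9 Pool.Agent.Lib.MP_1a91b9_ntT.TW
open scoped Classical

theorem half_k {F : Type*} [Field F] (h2 : (2 : F) ≠ 0) (h3 : (3 : F) ≠ 0) {W : Affine F} {k : F}
    (hk : k ≠ 0) (hW : W = ⟨0, 0, 0, 0, k⟩) {x₀ y₀ : F} (h : W.Nonsingular x₀ y₀) (l : F)
    (hl : l ^ 4 - 6 * x₀ * l ^ 2 - 8 * y₀ * l - 3 * x₀ ^ 2 = 0) :
    ∃ P : W.Point, P + P = Affine.Point.some x₀ y₀ h := by
  have a1 : W.a₁ = 0 := by rw [hW]
  have a2 : W.a₂ = 0 := by rw [hW]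
  have a3 : W.a₃ = 0 := by rw [hW]
  have a4 : W.a₄ = 0 := by rw [hW]
  have a6 : W.a₆ = k := by rw [hW]
  have h4 : (4 : F) ≠ 0 := by
    have : (4 : F) = 2 * 2 := by norm_num
    rw [this]
    exact mul_ne_zero h2 h2
  have he : y₀ ^ 2 = x₀ ^ 3 + k := by
    have h1 := h.1
    rw [Affine.equation_iff, a1, a2, a3, a4, a6] at h1
    linear_combination h1
  obtain ⟨X, hX⟩ : ∃ X : F, X = (l ^ 2 - x₀) / 2 := ⟨_, rfl⟩
  obtain ⟨Y, hY⟩ : ∃ Y : F, Y = l * ((l ^ 2 - 3 * x₀) / 2) - y₀ := ⟨_, rfl⟩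
  have hX' : 2 * X = l ^ 2 - x₀ := by rw [hX]; field_simp
  have hY' : 2 * Y = l ^ 3 - 3 * x₀ * l - 2 * y₀ := by
    rw [hY]; field_simp
  have e1 : Y ^ 2 = X ^ 3 + k := by
    have h8 : (8 : F) ≠ 0 := by
      have : (8 : F) = 2 * 4 := by norm_num
      rw [this]
      exact mul_ne_zero h2 h4
    have key : 8 * Y ^ 2 = 8 * (X ^ 3 + k) := by
      have hx3 : 8 * (X ^ 3 + k) = (l ^ 2 - x₀) ^ 3 + 8 * k := by
        rw [← hX']; ring
      have hy2 : 8 * Y ^ 2 = 2 * (l ^ 3 - 3 * x₀ * l - 2 * y₀) ^ 2 := by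
        rw [← hY']; ring
      rw [hx3, hy2]
      linear_combination (l ^ 2 - 3 * x₀) * hl + 8 * he
    exact mul_left_cancel₀ h8 key
  have e2 : 3 * X ^ 2 = l * (2 * Y) := by
    have key : 4 * (3 * X ^ 2) = 4 * (l * (2 * Y)) := by
      have hx2 : 4 * (3 * X ^ 2) = 3 * (l ^ 2 - x₀) ^ 2 := by
        rw [← hX']; ring
      rw [hx2, hY']
      linear_combination (-1) * hl
    exact mul_left_cancel₀ h4 key
  have e3 : Y ≠ 0 := by
    intro h0
    have hX0 : X = 0 := by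
      have : 3 * X ^ 2 = 0 := by rw [e2, h0, mul_zero, mul_zero]
      rcases mul_eq_zero.1 this with h' | h'
      · exact absurd h' h3
      · exact pow_eq_zero_iff (two_ne_zero) |>.1 h'
    apply hk
    rw [h0, hX0] at e1
    linear_combination (-1) * e1
  have e4 : 2 * Y ≠ 0 := mul_ne_zero h2 e3
  have hne : Y ≠ -Y - (0 : F) * X - 0 := by
    intro h0
    apply e4
    linear_combination h0
  have hns : W.Nonsingular X Y := by
    rw [Affine.nonsingular_iff]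
    refine ⟨?_, Or.inr ?_⟩
    · rw [Affine.equation_iff, a1, a2, a3, a4, a6]
      linear_combination e1
    · rw [a1, a3]
      exact hne
  have hneg : Y ≠ W.negY X Y := by
    rw [Affine.negY, a1, a3]
    exact hne
  have hsl : W.slope X X Y Y = l := by
    rw [Affine.slope_of_Y_ne rfl hneg]
    simp only [Affine.negY]
    rw [a1, a2, a3, a4]
    have hden : Y - (-Y - 0 * X - 0) = 2 * Y := by ring
    rw [hden, div_eq_iff e4]
    linear_combination e2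
  refine ⟨Affine.Point.some X Y hns, ?_⟩
  rw [Affine.Point.add_self_of_Y_ne hneg]
  have hx : W.addX X X (W.slope X X Y Y) = x₀ := by
    rw [hsl, Affine.addX, a1, a2]
    linear_combination (-1) * hX'
  have hy : W.addY X X Y (W.slope X X Y Y) = y₀ := by
    rw [Affine.addY, Affine.negAddY, hx, Affine.negY, hsl, a1, a3]
    have : 2 * (-(l * (x₀ - X) + Y) - 0 * x₀ - 0) = 2 * y₀ := by
      linear_combination l * hX' - hY'
    exact mul_left_cancel₀ h2 this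
  simp only [Affine.Point.some.injEq]
  exact ⟨hx, hy⟩

variable {N : Type*} [Field N] [NumberField N]

theorem div_tw {v : HeightOneSpectrum (𝓞 N)} (h3 : v.valuation N 3 < 1)
    (ht : ∀ m : ℤ, v.valuation N 3 ≠ exp (3 * m)) (δ : v.adicCompletion N) (hδ : δ ≠ 0)
    (Q : (tw δ).toAffine.Point) : ∃ P : (tw δ).toAffine.Point, P + P = Q := by
  have : CharZero (v.adicCompletion N) :=
    charZero_of_injective_algebraMap (algebraMap N (v.adicCompletion N)).injective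
  rcases Q with _ | ⟨x₀, y₀, h⟩
  · exact ⟨0, by rw [add_zero]; rfl⟩
  · have he : y₀ ^ 2 = x₀ ^ 3 + 16 * δ ^ 3 := by
      have h1 := h.1
      rw [Affine.equation_iff] at h1
      simp only [tw] at h1
      linear_combination h1
    obtain ⟨X, hX⟩ : ∃ X, X = x₀ / (4 * δ) := ⟨_, rfl⟩
    have hX' : x₀ = 4 * δ * X := by
      rw [hX]
      field_simp
    obtain ⟨t, ht'⟩ := exists_t v h3 ht X
    have hy : y₀ ^ 2 = 16 * δ ^ 3 * (4 * X ^ 3 + 1) := by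
      rw [he, hX']
      ring
    refine half_k (k := 16 * δ ^ 3) two_ne_zero three_ne_zero
      (mul_ne_zero (by norm_num) (pow_ne_zero 3 hδ)) rfl h (y₀ * t / (2 * δ)) ?_
    have hl2 : (y₀ * t / (2 * δ)) ^ 2 = 4 * δ * (4 * X ^ 3 + 1) * t ^ 2 := by
      rw [div_pow, mul_pow, hy]
      field_simp
      ring
    have hl1 : y₀ * (y₀ * t / (2 * δ)) = 8 * δ ^ 2 * (4 * X ^ 3 + 1) * t := by
      have h5 : y₀ * (y₀ * t / (2 * δ)) = y₀ ^ 2 * t / (2 * δ) := by ring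
      rw [h5, hy]
      field_simp
      ring
    have hl4 : (y₀ * t / (2 * δ)) ^ 4 = (4 * δ * (4 * X ^ 3 + 1) * t ^ 2) ^ 2 := by
      rw [← hl2]
      ring
    rw [mul_assoc 8, hl1, hl4, hl2, hX']
    linear_combination (16 * δ ^ 2) * ht'

end Pool.Agent.Lib.MP_1a91b9_ntT.CT
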