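import Pool.Agent.Lib.MP_1a91b9_ntT.S9.QG
import Pool.Agent.Lib.MP_1a91b9_ntT.TW.Curve

/-!
# JOB Le3: finitely many classes modulo the points with large coordinates, on `y² = x³ + k`

The copy of `close` and `cover` (with `qg_ybound`, `qg_eps`) of `S9/QG.lean` for `W = ⟨0,0,0,0,k⟩`, `β ≤ v(y)²` for all points.
(close_k) `P = (x₁,y₁)`, `Q = (x₂,y₂)`, `P ≠ Q`; `y₁ + y₂ = 2 y₁ - (y₁ - y₂)` has value `v(y₁)` since `v(2) = 1`,
`v(y₁-y₂)² < β ≤ v(y₁)²`; so `y₁ + y₂ ≠ 0`, and if `x₁ = x₂` then `(y₁ - y₂)(y₁ + y₂) = 0` gives `P = Q`. So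
`P - Q = P + (x₂, -y₂)` has x-coordinate `l² - x₁ - x₂` with `l = (y₁ + y₂)/(x₁ - x₂)`, `v(l)² ≥ β/v(x₁-x₂)² > M`.
(cover_k) as `cover`, with `finite_ball` for `x` (`v(x) ≤ M'`) and for `y` (`v(y)² ≤ max (M'^3) (v(k))`, so `v(y) ≤ max (M'^3) (v k)` if
that is `≥ 1`; put `M' = max 1 M` and `M'' = max (M'^3) (v k)`).
-/

set_option autoImplicit false

namespace Pool.Agent.Lib.MP_1a91b9_ntT.CT

open NumberField IsDedekindDomain WithZero WeierstrassCurve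
open Pool.Agent.Lib.MP_1a91b9_ntT.S9
open scoped Classical

variable {N : Type*} [Field N] [NumberField N]

private theorem le3_eqn {F : Type*} [Field F] {W : Affine F} {k : F} (hW : W = ⟨0, 0, 0, 0, k⟩)
    (x y : F) : W.Equation x y ↔ y ^ 2 = x ^ 3 + k := by
  rw [hW, Affine.equation_iff]
  simp

theorem close_k {v : HeightOneSpectrum (𝓞 N)} (h2 : v.valuation N 2 = 1)
    {W : Affine (v.adicCompletion N)} {k : v.adicCompletion N} (hW : W = ⟨0, 0, 0, 0, k⟩)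
    (β : ℤᵐ⁰) (hβ0 : β ≠ 0)
    (hβ : ∀ x y : v.adicCompletion N, y ^ 2 = x ^ 3 + k → β ≤ Valued.v y ^ 2)
    (M : ℤᵐ⁰) (hM : 1 ≤ M) {x₁ y₁ x₂ y₂ : v.adicCompletion N}
    (h₁ : W.Nonsingular x₁ y₁) (h₂ : W.Nonsingular x₂ y₂) (hx₁ : Valued.v x₁ ≤ M)
    (hx₂ : Valued.v x₂ ≤ M) (hx : Valued.v (x₁ - x₂) ^ 2 * M < β)
    (hy : Valued.v (y₁ - y₂) ^ 2 < β)
    (hne : Affine.Point.some x₁ y₁ h₁ ≠ Affine.Point.some x₂ y₂ h₂) :
    ∃ (x y : v.adicCompletion N) (h : W.Nonsingular x y),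
      Affine.Point.some x₁ y₁ h₁ - Affine.Point.some x₂ y₂ h₂ = Affine.Point.some x y h ∧
        M < Valued.v x := by
  have e1 := (le3_eqn hW x₁ y₁).mp h₁.1
  have e2 := (le3_eqn hW x₂ y₂).mp h₂.1
  have hg := hβ x₁ y₁ e1
  have hv2 : Valued.v (2 : v.adicCompletion N) = 1 := by
    rw [← h2, ← Pool.Agent.Lib.MP_1a91b9_nt.valued_algebraMap v 2, map_ofNat (algebraMap N _) 2]
  have hv2y : Valued.v (2 * y₁) = Valued.v y₁ := by rw [map_mul, hv2, one_mul]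
  have hγ : Valued.v (y₁ + y₂) = Valued.v y₁ := by
    rw [show y₁ + y₂ = 2 * y₁ - (y₁ - y₂) by ring, ← hv2y]
    refine Valuation.map_sub_eq_of_lt_left _ ?_
    rw [hv2y]
    exact lt_of_pow_lt_pow_left' 2 (hy.trans_le hg)
  have hγ0 : Valued.v (y₁ + y₂) ≠ 0 := by
    intro h0
    rw [← hγ, h0, zero_pow two_ne_zero] at hg
    exact hβ0 (le_zero_iff.mp hg)
  have hs0 : y₁ + y₂ ≠ 0 := (Valuation.ne_zero_iff _).mp hγ0
  have hx12 : x₁ ≠ x₂ := by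
    intro h0
    have h1 : (y₁ - y₂) * (y₁ + y₂) = 0 := by
      rw [h0] at e1
      linear_combination e1 - e2
    have h2 : y₁ = y₂ := sub_eq_zero.mp ((mul_eq_zero.mp h1).resolve_right hs0)
    subst h0
    subst h2
    exact hne rfl
  have hneg : W.negY x₂ y₂ = -y₂ := by
    rw [hW]
    simp [Affine.negY]
  have hns : W.Nonsingular x₂ (W.negY x₂ y₂) := (Affine.nonsingular_neg x₂ y₂).mpr h₂
  have hslope : W.slope x₁ x₂ y₁ (W.negY x₂ y₂) = (y₁ + y₂) / (x₁ - x₂) := by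
    rw [Affine.slope_of_X_ne hx12, hneg]
    congr 1
    ring
  have hX : W.addX x₁ x₂ (W.slope x₁ x₂ y₁ (W.negY x₂ y₂)) =
      ((y₁ + y₂) / (x₁ - x₂)) ^ 2 - (x₁ + x₂) := by
    rw [hslope]
    rw [hW]
    simp only [Affine.addX]
    ring
  refine ⟨W.addX x₁ x₂ (W.slope x₁ x₂ y₁ (W.negY x₂ y₂)),
    W.addY x₁ x₂ y₁ (W.slope x₁ x₂ y₁ (W.negY x₂ y₂)),
    Affine.nonsingular_add h₁ hns fun h => hx12 h.1, ?_, ?_⟩
  · rw [sub_eq_add_neg, Affine.Point.neg_some]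
    exact Affine.Point.add_of_X_ne hx12
  · have hd0 : x₁ - x₂ ≠ 0 := sub_ne_zero.mpr hx12
    have hdv : 0 < Valued.v (x₁ - x₂) ^ 2 :=
      pow_pos (zero_lt_iff.mpr ((Valuation.ne_zero_iff _).mpr hd0)) 2
    have h5 : M < Valued.v (((y₁ + y₂) / (x₁ - x₂)) ^ 2) := by
      rw [map_pow, map_div₀, hγ, div_pow, lt_div_iff₀ hdv, mul_comm]
      exact hx.trans_le hg
    have h6 : Valued.v (x₁ + x₂) ≤ M := (Valuation.map_add _ _ _).trans (max_le hx₁ hx₂)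
    rw [hX, Valuation.map_sub_eq_of_lt_left _ (h6.trans_lt h5)]
    exact h5

private theorem le3_eps (β : ℤᵐ⁰) (hβ0 : β ≠ 0) (M : ℤᵐ⁰) (hM : 1 ≤ M) :
    ∃ e : ℤᵐ⁰, e ≠ 0 ∧ e ^ 2 * M < β ∧ e ^ 2 < β := by
  obtain ⟨ρ, hρ⟩ : ∃ ρ : ℤᵐ⁰, ρ = exp (min (log β) 0 - 1) := ⟨_, rfl⟩
  have hρ0 : ρ ≠ 0 := hρ ▸ exp_ne_zero
  have hρβ : ρ < β := by
    rw [hρ, ← exp_log hβ0, exp_lt_exp, log_exp]
    omega
  have hρ1 : ρ < 1 := by
    rw [hρ, ← exp_zero, exp_lt_exp]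
    omega
  have hM0 : M ≠ 0 := (zero_lt_one.trans_le hM).ne'
  have h1 : ρ * ρ < ρ := mul_lt_of_lt_one_right (zero_lt_iff.mpr hρ0) hρ1
  have hMi : M⁻¹ ≤ 1 := inv_le_one_of_one_le₀ hM
  have h2 : (ρ * M⁻¹) ^ 2 * M < ρ := by
    have h3 : (ρ * M⁻¹) ^ 2 * M = ρ * ρ * M⁻¹ := by
      field_simp
    rw [h3]
    exact (mul_le_of_le_one_right' hMi).trans_lt h1
  refine ⟨ρ * M⁻¹, mul_ne_zero hρ0 (inv_ne_zero hM0), h2.trans hρβ, ?_⟩
  exact ((le_mul_of_one_le_right' hM).trans_lt h2).trans hρβ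

private theorem le3_ybound (v : HeightOneSpectrum (𝓞 N)) {M : ℤᵐ⁰} (hM : 1 ≤ M)
    {x y k : v.adicCompletion N} (hx : Valued.v x ≤ M) (h : y ^ 2 = x ^ 3 + k) :
    Valued.v y ≤ max (M ^ 3) (Valued.v k) := by
  rcases le_or_gt (Valued.v y) 1 with hy | hy
  · exact (hy.trans (one_le_pow_of_one_le' hM 3)).trans (le_max_left _ _)
  · have h1 : Valued.v y ≤ Valued.v y ^ 2 := by
      rw [pow_two]
      exact le_mul_of_one_le_right' hy.le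
    refine h1.trans ?_
    rw [← map_pow, h]
    refine (Valuation.map_add _ _ _).trans (max_le_max ?_ le_rfl)
    rw [map_pow]
    exact pow_le_pow_left' hx 3

theorem cover_k {v : HeightOneSpectrum (𝓞 N)} (h2 : v.valuation N 2 = 1)
    {W : Affine (v.adicCompletion N)} {k : v.adicCompletion N} (hW : W = ⟨0, 0, 0, 0, k⟩)
    (β : ℤᵐ⁰) (hβ0 : β ≠ 0)
    (hβ : ∀ x y : v.adicCompletion N, y ^ 2 = x ^ 3 + k → β ≤ Valued.v y ^ 2)
    (M : ℤᵐ⁰) :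
    ∃ T : Finset W.Point, ∀ P : W.Point, ∃ t ∈ T, P - t = 0 ∨
      ∃ (x y : v.adicCompletion N) (h : W.Nonsingular x y), P - t = Affine.Point.some x y h ∧
        M < Valued.v x := by
  obtain ⟨M', hM'⟩ : ∃ M', M' = max 1 M := ⟨_, rfl⟩
  have hM1 : 1 ≤ M' := hM' ▸ le_max_left 1 M
  have hMM : M ≤ M' := hM' ▸ le_max_right 1 M
  obtain ⟨e, he0, he1, he2⟩ := le3_eps β hβ0 M' hM1
  obtain ⟨S, hS⟩ := finite_ball v M' e he0
  obtain ⟨S', hS'⟩ := finite_ball v (max (M' ^ 3) (Valued.v k)) e he0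
  obtain ⟨t, ht'⟩ : ∃ t : (v.adicCompletion N) × (v.adicCompletion N) → W.Point,
      ∀ q, (∃ Q : W.Point, ∃ (x y : v.adicCompletion N) (h : W.Nonsingular x y),
        Q = Affine.Point.some x y h ∧ Valued.v x ≤ M' ∧ Valued.v (x - q.1) ≤ e ∧
          Valued.v (y - q.2) ≤ e) →
        ∃ (x y : v.adicCompletion N) (h : W.Nonsingular x y),
        t q = Affine.Point.some x y h ∧ Valued.v x ≤ M' ∧ Valued.v (x - q.1) ≤ e ∧
          Valued.v (y - q.2) ≤ e := by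
    refine ⟨fun q => if H : (∃ Q : W.Point, ∃ (x y : v.adicCompletion N) (h : W.Nonsingular x y),
        Q = Affine.Point.some x y h ∧ Valued.v x ≤ M' ∧ Valued.v (x - q.1) ≤ e ∧
          Valued.v (y - q.2) ≤ e) then H.choose else 0, fun q H => ?_⟩
    beta_reduce
    rw [dif_pos H]
    exact H.choose_spec
  refine ⟨insert 0 ((S ×ˢ S').image t), fun P => ?_⟩
  rcases P with (_ | ⟨x₁, y₁, h₁⟩)
  · exact ⟨0, Finset.mem_insert_self _ _, Or.inl (sub_self _)⟩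
  rcases lt_or_ge M' (Valued.v x₁) with hx₁ | hx₁
  · refine ⟨0, Finset.mem_insert_self _ _, Or.inr ⟨x₁, y₁, h₁, sub_zero _, hMM.trans_lt hx₁⟩⟩
  · have e1 := (le3_eqn hW x₁ y₁).mp h₁.1
    have hy₁ := le3_ybound v hM1 hx₁ e1
    obtain ⟨s, hs, hs1⟩ := hS x₁ hx₁
    obtain ⟨s', hs', hs1'⟩ := hS' y₁ hy₁
    obtain ⟨x₂, y₂, h₂, hQ, hx₂, hxs, hys⟩ := ht' (s, s') ⟨_, x₁, y₁, h₁, rfl, hx₁, hs1, hs1'⟩
    refine ⟨t (s, s'), Finset.mem_insert_of_mem (Finset.mem_image_of_mem _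
      (Finset.mem_product.mpr ⟨hs, hs'⟩)), ?_⟩
    rw [hQ]
    have hdx : Valued.v (x₁ - x₂) ≤ e := by
      rw [show x₁ - x₂ = (x₁ - s) - (x₂ - s) by ring]
      exact (Valuation.map_sub _ _ _).trans (max_le hs1 hxs)
    have hdy : Valued.v (y₁ - y₂) ≤ e := by
      rw [show y₁ - y₂ = (y₁ - s') - (y₂ - s') by ring]
      exact (Valuation.map_sub _ _ _).trans (max_le hs1' hys)
    by_cases hPQ : Affine.Point.some x₁ y₁ h₁ = Affine.Point.some x₂ y₂ h₂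
    · left
      rw [hPQ, sub_self]
    · right
      obtain ⟨x, y, h, h5, h6⟩ := close_k h2 hW β hβ0 hβ M' hM1 h₁ h₂ hx₁ hx₂
        ((mul_le_mul' (pow_le_pow_left' hdx 2) le_rfl).trans_lt he1)
        ((pow_le_pow_left' hdy 2).trans_lt he2) hPQ
      exact ⟨x, y, h, h5, hMM.trans_lt h6⟩

end Pool.Agent.Lib.MP_1a91b9_ntT.CT
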