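import Pool.Agent.Lib.MP_1a91b9_ntT.CT.Defs
import Pool.Agent.Lib.MP_1a91b9_ntT.CT.Le2
import Pool.Agent.Lib.MP_1a91b9_ntT.CT.Le3
import Pool.Agent.Lib.MP_1a91b9_ntT.S9.QH

/-!
# JOB Le4: the index at the tame places above 3 is odd

PROOF. The copy of `div_min`, `nonsing_finiteIndex` and the end of `tam_odd` of `S9/QH.lean`, for the model `C • tw δ` of `tw δ`:
`e : (C • tw δ).Point ≃+ (tw δ).Point` from `Pool.Agent.Lib.MP_1a91b9_nt.exists_point_equiv (tw δ) C`; 2-divisibility by `div_tw`; the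
finite index by `cover_k` with `k = 16 δ³` and `β = v(16 δ³) v(3)` (`hβ`: for a point `(x, y)` with `X = x/(4 δ)`,
`y² = 16 δ³ (4 X³ + 1)` and `bound_y`; `β ≠ 0`); `v(2) = 1` since `v(3) < 1`; `odd_index_of_div`.
-/

set_option autoImplicit false

namespace Pool.Agent.Lib.MP_1a91b9_ntT.CT

open NumberField IsDedekindDomain WithZero WeierstrassCurve
open Pool.Agent.Lib.MP_1a91b9_ntT.S9 Pool.Agent.Lib.MP_1a91b9_ntT.TW
open scoped Classical

variable {N : Type*} [Field N] [NumberField N]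

private theorem le4_equiv {v : HeightOneSpectrum (𝓞 N)} (δ : v.adicCompletion N)
    (C : VariableChange (v.adicCompletion N)) :
    ∃ e : (C • tw δ).toAffine.Point ≃+ (tw δ).toAffine.Point,
      ∀ (x y : v.adicCompletion N) (h : (C • tw δ).toAffine.Nonsingular x y), ∃ h',
        e (Affine.Point.some x y h) = Affine.Point.some
          ((C.u : v.adicCompletion N) ^ 2 * x + C.r)
          ((C.u : v.adicCompletion N) ^ 3 * y + (C.u : v.adicCompletion N) ^ 2 * C.s * x + C.t) h' :=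
  Pool.Agent.Lib.MP_1a91b9_nt.exists_point_equiv (tw δ) C

private theorem le4_two {v : HeightOneSpectrum (𝓞 N)} (h3 : v.valuation N 3 < 1) :
    v.valuation N 2 = 1 := by
  have h1 : v.valuation N (3 - 1) = v.valuation N 1 := by
    rw [Valuation.map_sub_swap]
    refine Valuation.map_sub_eq_of_lt_left _ ?_
    rw [Valuation.map_one]
    exact h3
  rwa [Valuation.map_one, show (3 : N) - 1 = 2 by norm_num] at h1

private theorem le4_bound {v : HeightOneSpectrum (𝓞 N)} (h3 : v.valuation N 3 < 1)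
    (ht : ∀ m : ℤ, v.valuation N 3 ≠ exp (3 * m)) (δ : v.adicCompletion N) (hδ : δ ≠ 0)
    (x y : v.adicCompletion N) (h : y ^ 2 = x ^ 3 + 16 * δ ^ 3) :
    Valued.v (16 * δ ^ 3) * v.valuation N 3 ≤ Valued.v y ^ 2 := by
  have h4 : (4 : v.adicCompletion N) ≠ 0 := by
    have h5 : (4 : N) ≠ 0 := by norm_num
    rw [← map_ofNat (algebraMap N (v.adicCompletion N)) 4]
    exact (map_ne_zero _).mpr h5
  have e1 : y ^ 2 = 16 * δ ^ 3 * (4 * (x / (4 * δ)) ^ 3 + 1) := by
    rw [h]
    field_simp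
    ring
  rw [← map_pow, e1, map_mul Valued.v (16 * δ ^ 3) (4 * (x / (4 * δ)) ^ 3 + 1)]
  exact mul_le_mul' le_rfl (bound_y v h3 ht _)

private theorem le4_div {v : HeightOneSpectrum (𝓞 N)} (h3 : v.valuation N 3 < 1)
    (ht : ∀ m : ℤ, v.valuation N 3 ≠ exp (3 * m)) (δ : v.adicCompletion N) (hδ : δ ≠ 0)
    (C : VariableChange (v.adicCompletion N)) (Q : (C • tw δ).toAffine.Point) :
    ∃ P, P + P = Q := by
  obtain ⟨e, _⟩ := le4_equiv (N := N) δ C
  obtain ⟨P, hP⟩ := div_tw h3 ht δ hδ (e Q)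
  refine ⟨e.symm P, ?_⟩
  rw [← _root_.map_add, hP]
  exact e.symm_apply_apply Q

private theorem le4_finiteIndex {v : HeightOneSpectrum (𝓞 N)} (h3 : v.valuation N 3 < 1)
    (ht : ∀ m : ℤ, v.valuation N 3 ≠ exp (3 * m)) (δ : v.adicCompletion N) (hδ : δ ≠ 0)
    (C : VariableChange (v.adicCompletion N)) : (ns (C • tw δ)).FiniteIndex := by
  obtain ⟨e, he⟩ := le4_equiv (N := N) δ C
  obtain ⟨M, hM⟩ : ∃ M, M = max (Valued.v C.r)
    (Valued.v (C.u : v.adicCompletion N) ^ 2) := ⟨_, rfl⟩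
  have hβ0 : Valued.v (16 * δ ^ 3) * v.valuation N 3 ≠ 0 := by
    have h5 : (16 : N) ≠ 0 := by norm_num
    have h6 : (16 : v.adicCompletion N) ≠ 0 := by
      rw [← map_ofNat (algebraMap N (v.adicCompletion N)) 16]
      exact (map_ne_zero _).mpr h5
    refine mul_ne_zero ((Valuation.ne_zero_iff _).mpr (mul_ne_zero h6 (pow_ne_zero 3 hδ)))
      ((Valuation.ne_zero_iff _).mpr ?_)
    norm_num
  obtain ⟨T, hT⟩ := cover_k (le4_two h3) (W := (tw δ).toAffine) (k := 16 * δ ^ 3) rfl
    (Valued.v (16 * δ ^ 3) * v.valuation N 3) hβ0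
    (fun x y h => le4_bound h3 ht δ hδ x y h) M
  have hu0 : Valued.v (C.u : v.adicCompletion N) ≠ 0 :=
    (Valuation.ne_zero_iff _).mpr C.u.ne_zero
  have hkey : ∀ P : (C • tw δ).toAffine.Point, ∃ t ∈ T,
      P - e.symm t ∈ ns (C • tw δ) := by
    intro P
    obtain ⟨t, ht1, ht2⟩ := hT (e P)
    refine ⟨t, ht1, ?_⟩
    obtain ⟨R, hR⟩ : ∃ R, R = P - e.symm t := ⟨_, rfl⟩
    have heR : e R = e P - t := by
      rw [hR, _root_.map_sub]
      congr 1
      exact e.apply_symm_apply t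
    rw [← hR]
    rw [← heR] at ht2
    apply AddSubgroup.subset_closure
    rcases ht2 with h0 | ⟨X, Y, h, hXY, hX⟩
    · left
      exact (map_eq_zero_iff e e.injective).mp h0
    · right
      rcases R with (_ | ⟨x, y, hxy⟩)
      · exfalso
        have h1 : e (0 : (C • tw δ).toAffine.Point) = Affine.Point.some X Y h := hXY
        rw [_root_.map_zero] at h1
        exact Affine.Point.some_ne_zero _ h1.symm
      · refine ⟨x, y, hxy, rfl, Or.inl ?_⟩
        obtain ⟨h', hh'⟩ := he x y hxy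
        rw [hh'] at hXY
        obtain ⟨hX1, _⟩ := (Affine.Point.some.injEq ..).mp hXY
        have h5 : Valued.v ((C.u : v.adicCompletion N) ^ 2 * x) = Valued.v X := by
          rw [show (C.u : v.adicCompletion N) ^ 2 * x = X - C.r by rw [← hX1]; ring]
          refine Valuation.map_sub_eq_of_lt_left _ (lt_of_le_of_lt ?_ hX)
          rw [hM]
          exact le_max_left _ _
        have h6 : Valued.v (C.u : v.adicCompletion N) ^ 2 <
            Valued.v (C.u : v.adicCompletion N) ^ 2 * Valued.v x := by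
          rw [← map_pow, ← map_mul, h5, map_pow]
          refine lt_of_le_of_lt ?_ hX
          rw [hM]
          exact le_max_right _ _
        by_contra hc
        rw [not_lt] at hc
        exact (mul_le_of_le_one_right' hc).not_gt h6
  have hfin : Finite ((C • tw δ).toAffine.Point ⧸ ns (C • tw δ)) := by
    refine Finite.of_surjective (fun t : T => (QuotientAddGroup.mk (e.symm t) :
      (C • tw δ).toAffine.Point ⧸ ns (C • tw δ))) ?_
    intro q
    obtain ⟨P, rfl⟩ := QuotientAddGroup.mk_surjective q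
    obtain ⟨t, ht1, ht2⟩ := hkey P
    refine ⟨⟨t, ht1⟩, ?_⟩
    rw [QuotientAddGroup.eq]
    rw [neg_add_eq_sub]
    exact ht2
  exact AddSubgroup.finiteIndex_of_finite_quotient

theorem ns_three {v : HeightOneSpectrum (𝓞 N)} (h3 : v.valuation N 3 < 1)
    (ht : ∀ m : ℤ, v.valuation N 3 ≠ exp (3 * m)) (δ : v.adicCompletion N) (hδ : δ ≠ 0)
    (C : VariableChange (v.adicCompletion N)) : Odd (ns (C • tw δ)).index := by
  have := le4_finiteIndex h3 ht δ hδ C
  exact odd_index_of_div (ns (C • tw δ)) (le4_div h3 ht δ hδ C)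

end Pool.Agent.Lib.MP_1a91b9_ntT.CT
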