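import Pool.Agent.Lib.MP_1a91b9_ntT.CT.Defs
import Pool.Agent.Lib.MP_1a91b9_ntT.S9.QA

/-!
# JOB Lf: the minimal model of a twist

(`minModel_tw`) `minModel W v = minChange W v • W_v` and `D_v • W_v = tw δ` over `N_v` (`WeierstrassCurve.map_variableChange`,
`tw_map`), so `minModel W v = (minChange W v * D_v⁻¹) • tw (δ : N_v)`, and the factor `u` of `minChange W v * D_v⁻¹` is the quotient
(`VariableChange.mul_def`, `inv_def`).
(`adm_ne_zero`) `IsCoprime 0 2` says that `2` is a unit of `𝓞 N`; its norm `2 ^ n`, `n ≥ 1`, is not a unit of `ℤ`.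
-/

set_option autoImplicit false

namespace Pool.Agent.Lib.MP_1a91b9_ntT.CT

open NumberField IsDedekindDomain WeierstrassCurve WithZero Pool.Agent.Lib.MP_1a91b9_ntT.S9
open Pool.Agent.Lib.MP_1a91b9_ntT.TW
open scoped Classical

variable {N : Type*} [Field N] [NumberField N]

/-- The scaling factor of the change from `tw δ` to the minimal model of `W` at `v`. -/
noncomputable def uu (W : WeierstrassCurve N) (D : VariableChange N) (v : HeightOneSpectrum (𝓞 N)) :
    v.adicCompletion N :=
  ((minChange W v).u : v.adicCompletion N) / algebraMap N (v.adicCompletion N) (D.u : N)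

theorem adm_ne_zero {δ : 𝓞 N} (hδ : Adm N δ) : δ ≠ 0 := by
  rintro rfl
  have h1 := hδ.odd
  have h2 : IsUnit (2 : 𝓞 N) := by
    have := isCoprime_zero_left.mp h1
    exact this
  have h3 : IsUnit ((2 : ℕ) : 𝓞 N) := by exact_mod_cast h2
  have h4 : IsUnit (Algebra.norm ℤ ((2 : ℕ) : 𝓞 N)) := h3.map (Algebra.norm ℤ)
  rw [show ((2 : ℕ) : 𝓞 N) = algebraMap ℤ (𝓞 N) 2 by simp, Algebra.norm_algebraMap] at h4
  have h5 : Module.finrank ℤ (𝓞 N) ≠ 0 := by
    rw [RingOfIntegers.rank]
    exact Module.finrank_pos.ne'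
  have h6 := (isUnit_pow_iff h5).mp h4
  rw [Int.isUnit_iff] at h6
  omega

theorem minModel_tw {W : WeierstrassCurve N} {D : VariableChange N} {δ : N} (hD : D • W = tw δ)
    (v : HeightOneSpectrum (𝓞 N)) : ∃ C : VariableChange (v.adicCompletion N),
      (C.u : v.adicCompletion N) = uu W D v ∧
      minModel W v = C • tw (algebraMap N (v.adicCompletion N) δ) := by
  have e : (tw δ).baseChange (v.adicCompletion N) = tw (algebraMap N (v.adicCompletion N) δ) :=
    tw_map _ _
  have eC : (D.map (algebraMap N (v.adicCompletion N))) • (W.baseChange (v.adicCompletion N)) =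
      tw (algebraMap N (v.adicCompletion N) δ) := by
    rw [← e, ← hD]
    exact (WeierstrassCurve.map_variableChange _ _ _)
  refine ⟨minChange W v * (D.map (algebraMap N (v.adicCompletion N)))⁻¹, ?_, ?_⟩
  · simp [uu, VariableChange.mul_def, VariableChange.inv_def, div_eq_mul_inv]
  · rw [← eC, mul_smul, inv_smul_smul]
    rfl

end Pool.Agent.Lib.MP_1a91b9_ntT.CT
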