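import Pool.Agent.Lib.MP_1a91b9_ntT.CT.Lc
import Pool.Agent.Lib.MP_1a91b9_ntT.CT.Ld
import Pool.Agent.Lib.MP_1a91b9_ntT.CT.Le4
import Pool.Agent.Lib.MP_1a91b9_ntT.CT.Lf
import Pool.Agent.Lib.MP_1a91b9_ntT.S5.Tower

/-!
# Lf1: the Tamagawa numbers of the twists are odd

Use `minModel_tw` (the curve `C • tw δ_v` is minimal by `minModel_isMinimal`, S9/QA.lean); `tam W v = (ns (minModel W v)).index`.
Write `δ_v` for the image of `δ` in `N_v`; `Valued.v δ_v = v.valuation N δ` (`MP_1a91b9_nt.valued_algebraMap` or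
`HeightOneSpectrum.valuedAdicCompletion_eq_valuation'`).
(`tam_tw`) four cases.
`v(3) < 1`: `ns_three`. Otherwise `v(3) = 1` (`v.valuation_le_one` for `3 : 𝓞 N`).
`v(2) < 1`: `δ = a² + 4 b` (`hδ.sq`), `v(δ) = 1` (`hδ.odd`: `IsCoprime δ 2`): `ns_two`, the index of `⊤` is 1.
`v(2) = v(3) = 1`, `v(δ)` a square (`exp (2 k)`; `δ ≠ 0`): `ns_even`.
`v(2) = v(3) = 1`, `v(δ)` not a square, so `exp (2 k + 1)`: `ns_bad`; `hc`: `(adm_stepCond δ hδ).odd v` says `x ^ 3 - 2 ∉ v` for all
`x : 𝓞 N`, and for `x : N_v` integral there is `r : 𝓞 N` with `Valued.v (x - r) < 1` (density; compare `qg2_int` of S9/QG.lean, or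
`residue_surjective` in `MP_1a91b9_nt`), then `x³ - 2 ≡ r³ - 2`.
-/

set_option autoImplicit false

namespace Pool.Agent.Lib.MP_1a91b9_ntT.CT

open NumberField IsDedekindDomain WeierstrassCurve WithZero Pool.Agent.Lib.MP_1a91b9_ntT.S9
open Pool.Agent.Lib.MP_1a91b9_ntT.TW
open scoped Classical

variable {N : Type*} [Field N] [NumberField N]

private theorem Lf1_int (v : HeightOneSpectrum (𝓞 N)) (x : v.adicCompletion N)
    (hx : Valued.v x ≤ 1) :
    ∃ r : 𝓞 N, Valued.v (x - algebraMap N (v.adicCompletion N) (r : N)) < 1 := by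
  obtain ⟨c, hc⟩ := HeightOneSpectrum.valuedAdicCompletion_surjective N v (exp (-(1 : ℤ)))
  have hcr : Valued.v.restrict c ≠ 0 := by
    rw [Ne, Valuation.restrict_eq_zero_iff, hc]
    exact exp_ne_zero
  have hO : IsOpen ((fun y : v.adicCompletion N => x - y) ⁻¹'
      {z : v.adicCompletion N | Valued.v.restrict z ≤ Valued.v.restrict c}) :=
    (Valued.isOpen_closedBall _ hcr).preimage (continuous_const.sub continuous_id)
  obtain ⟨z, hz⟩ := (HeightOneSpectrum.denseRange_algebraMap N v).exists_mem_open hO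
    ⟨x, by
      rw [Set.mem_preimage, sub_self, Set.mem_ofPred_eq, map_zero]
      exact zero_le⟩
  rw [Set.mem_preimage, Set.mem_ofPred_eq, Valuation.restrict_le_iff, hc] at hz
  have hn1 : exp (-(1 : ℤ)) < (1 : ℤᵐ⁰) := by
    rw [← exp_zero, exp_lt_exp]
    omega
  have e1 : Valued.v (algebraMap N (v.adicCompletion N) z) = v.valuation N z :=
    HeightOneSpectrum.valuedAdicCompletion_eq_valuation' v _
  have hvz : v.valuation N z ≤ 1 := by
    rw [← e1]
    have e2 : algebraMap N (v.adicCompletion N) z =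
      x - (x - algebraMap N (v.adicCompletion N) z) := by rw [sub_sub_cancel]
    rw [e2]
    exact Valuation.map_sub_le _ hx (hz.trans hn1.le)
  obtain ⟨r, hr⟩ := v.exists_valuation_sub_lt_of_integer hvz (Units.mk0 (exp (-(1 : ℤ))) exp_ne_zero)
  rw [Units.val_mk0] at hr
  refine ⟨r, ?_⟩
  have e3 : x - algebraMap N (v.adicCompletion N) (r : N) =
      (x - algebraMap N (v.adicCompletion N) z) +
        algebraMap N (v.adicCompletion N) (z - (r : N)) := by
    rw [map_sub]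
    ring
  rw [e3]
  refine Valuation.map_add_lt _ (hz.trans_lt hn1) ?_
  rw [MP_1a91b9_nt.valued_algebraMap]
  refine lt_trans ?_ hn1
  first
    | exact hr
    | (rw [Valuation.map_sub_swap]; exact hr)

private theorem Lf1_cube (v : HeightOneSpectrum (𝓞 N)) (hv : ∀ x : 𝓞 N, x ^ 3 - 2 ∉ v.asIdeal)
    (x : v.adicCompletion N) (hx : Valued.v x ≤ 1) : Valued.v (x ^ 3 - 2) = 1 := by
  obtain ⟨r, hr⟩ := Lf1_int v x hx
  obtain ⟨s, hs⟩ : ∃ s : v.adicCompletion N, s = algebraMap N (v.adicCompletion N) (r : N) :=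
    ⟨_, rfl⟩
  rw [← hs] at hr
  have hs1 : Valued.v s ≤ 1 := by
    rw [hs, MP_1a91b9_nt.valued_algebraMap]
    exact HeightOneSpectrum.valuation_le_one v r
  have h1 : Valued.v (s ^ 3 - 2) = 1 := by
    have h2 : s ^ 3 - 2 = algebraMap N (v.adicCompletion N) ((r ^ 3 - 2 : 𝓞 N) : N) := by
      rw [hs]
      have h3 : ((r ^ 3 - 2 : 𝓞 N) : N) = (r : N) ^ 3 - 2 := by
        show algebraMap (𝓞 N) N (r ^ 3 - 2) = (algebraMap (𝓞 N) N r) ^ 3 - 2
        rw [map_sub, map_pow, map_ofNat]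
      rw [h3, map_sub, map_pow, map_ofNat]
    rw [h2, MP_1a91b9_nt.valued_algebraMap]
    exact (HeightOneSpectrum.valuation_eq_one_iff_notMem (K := N) v).2 (hv r)
  have h4 : Valued.v ((x - s) * (x ^ 2 + x * s + s ^ 2)) < 1 := by
    have h5 : Valued.v (x ^ 2 + x * s + s ^ 2) ≤ 1 := by
      refine Valuation.map_add_le _ (Valuation.map_add_le _ ?_ ?_) ?_
      · rw [map_pow]; exact pow_le_one' hx 2
      · rw [map_mul]; exact mul_le_one' hx hs1
      · rw [map_pow]; exact pow_le_one' hs1 2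
    rw [map_mul]
    exact (mul_le_of_le_one_right' h5).trans_lt hr
  have e : x ^ 3 - 2 = (x - s) * (x ^ 2 + x * s + s ^ 2) + (s ^ 3 - 2) := by ring
  rw [e, Valuation.map_add_eq_of_lt_right, h1]
  rw [h1]
  exact h4

theorem tam_tw {W : WeierstrassCurve N} {D : VariableChange N} {δ : 𝓞 N} (hδ : Adm N δ)
    (hD : D • W = tw (δ : N))
    (ht : ∀ v : HeightOneSpectrum (𝓞 N), v.valuation N 3 < 1 →
      ∀ m : ℤ, v.valuation N 3 ≠ exp (3 * m)) (v : HeightOneSpectrum (𝓞 N)) :
    Odd (tam W v) := by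
  obtain ⟨C, -, hC⟩ := minModel_tw hD v
  have hm : IsMinimal (v.adicCompletionIntegers N) (minModel W v) := minModel_isMinimal W v
  have htam : tam W v = (ns (minModel W v)).index := rfl
  rw [hC] at hm
  rw [htam, hC]
  obtain ⟨d, hd⟩ : ∃ d : v.adicCompletion N, d = algebraMap N (v.adicCompletion N) (δ : N) :=
    ⟨_, rfl⟩
  rw [← hd] at hm ⊢
  have hδ0 : (δ : N) ≠ 0 := by
    intro h
    exact adm_ne_zero hδ (RingOfIntegers.ext h)
  have hd0 : d ≠ 0 := by
    rw [hd]
    exact (map_ne_zero _).mpr hδ0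
  have hdv : Valued.v d = v.valuation N (δ : N) := by
    rw [hd, MP_1a91b9_nt.valued_algebraMap]
  have hint : ∀ n : ℕ, v.valuation N (n : N) ≤ 1 := by
    intro n
    have h : v.valuation N (algebraMap (𝓞 N) N (n : 𝓞 N)) ≤ 1 :=
      HeightOneSpectrum.valuation_le_one (K := N) v (n : 𝓞 N)
    rwa [map_natCast (algebraMap (𝓞 N) N) n] at h
  by_cases h3 : v.valuation N 3 < 1
  · exact ns_three h3 (ht v h3) d hd0 C
  have h3' : v.valuation N 3 = 1 := le_antisymm (by exact_mod_cast hint 3) (not_lt.1 h3)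
  by_cases h2 : v.valuation N 2 < 1
  · obtain ⟨a, b, hab⟩ := hδ.sq
    have e : d = (algebraMap N (v.adicCompletion N) (a : N)) ^ 2 +
        4 * algebraMap N (v.adicCompletion N) (b : N) := by
      have h5 : (δ : N) = (a : N) ^ 2 + 4 * (b : N) := by
        show algebraMap (𝓞 N) N δ = (algebraMap (𝓞 N) N a) ^ 2 + 4 * algebraMap (𝓞 N) N b
        rw [hab, map_add, map_mul, map_pow, map_ofNat]
      rw [hd, h5, map_add, map_mul, map_pow, map_ofNat]
    have h2m : (2 : 𝓞 N) ∈ v.asIdeal := by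
      rw [← HeightOneSpectrum.valuation_lt_one_iff_mem (K := N)]
      show v.valuation N (algebraMap (𝓞 N) N 2) < 1
      rw [map_ofNat]
      exact h2
    have hδv : δ ∉ v.asIdeal := by
      intro h
      obtain ⟨u, w, huw⟩ := hδ.odd
      apply v.isPrime.ne_top
      rw [Ideal.eq_top_iff_one, ← huw]
      exact v.asIdeal.add_mem (v.asIdeal.mul_mem_left _ h) (v.asIdeal.mul_mem_left _ h2m)
    have hδ1 : Valued.v d = 1 := by
      rw [hdv]
      exact (HeightOneSpectrum.valuation_eq_one_iff_notMem (K := N) v).2 hδv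
    rw [e] at hm hδ1 ⊢
    have h6 := (ns_two h2 (algebraMap N (v.adicCompletion N) (a : N))
      (algebraMap N (v.adicCompletion N) (b : N))
      (by rw [MP_1a91b9_nt.valued_algebraMap]; exact HeightOneSpectrum.valuation_le_one v a)
      (by rw [MP_1a91b9_nt.valued_algebraMap]; exact HeightOneSpectrum.valuation_le_one v b)
      hδ1 C hm).1
    rw [h6, AddSubgroup.index_top]
    exact odd_one
  have h2' : v.valuation N 2 = 1 := le_antisymm (by exact_mod_cast hint 2) (not_lt.1 h2)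
  have hv0 : Valued.v d ≠ 0 := (Valuation.ne_zero_iff _).mpr hd0
  obtain ⟨n, hn⟩ : ∃ n : ℤ, Valued.v d = exp n := ⟨log (Valued.v d), (exp_log hv0).symm⟩
  rcases Int.even_or_odd' n with ⟨k, hk | hk⟩
  · rw [hk] at hn
    rw [ns_even h2' h3' d k hn C hm, AddSubgroup.index_top]
    exact odd_one
  · rw [hk] at hn
    have hsq : ¬ IsSquare (v.valuation N (δ : N)) := by
      rw [← hdv, hn, S5.isSquare_exp, Int.not_even_iff_odd]
      exact ⟨k, rfl⟩
    have hc : ∀ x : v.adicCompletion N, Valued.v x ≤ 1 → Valued.v (x ^ 3 - 2) = 1 :=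
      Lf1_cube v ((S5.adm_stepCond δ hδ).odd v h2' h3' hsq)
    rw [ns_bad h2' h3' hc d k hn C hm, AddSubgroup.index_top]
    exact odd_one

end Pool.Agent.Lib.MP_1a91b9_ntT.CT
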