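import Pool.Agent.Lib.MP_1a91b9_ntT.Base

/-!
# Lg1: the product formula

`(absNorm v) ^ (-log (v x)) = ‖x‖_v⁻¹`. PROOF. Mathlib: `NumberField.FinitePlace.prod_eq_inv_abs_norm` (file
`Mathlib/NumberTheory/NumberField/ProductFormula.lean`, its proof of the integral case shows how to pass to `HeightOneSpectrum` with
`FinitePlace.equivHeightOneSpectrum`, `finprod_comp_equiv`), `FinitePlace.norm_embedding`, `adicAbv_def`
(`toNNReal (absNorm_ne_zero v) (v.valuation K x)`), `WithZeroMulInt.toNNReal` of `exp n` is `(absNorm v) ^ n`. Then the inverse of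
a finprod (`finprod_inv_distrib`). Finite support: `FinitePlace.hasFiniteMulSupport` (for `x : N`) or from that for `𝓞 N`.
-/

set_option autoImplicit false

namespace Pool.Agent.Lib.MP_1a91b9_ntT.CT

open NumberField IsDedekindDomain WithZero

variable {N : Type*} [Field N] [NumberField N]

/-- The power of the norm of `v` with exponent the order of an element of value `a`. -/
noncomputable def qp (v : HeightOneSpectrum (𝓞 N)) (a : ℤᵐ⁰) : ℝ :=
  (Ideal.absNorm v.asIdeal : ℝ) ^ (-(log a))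

private theorem lg1_ne (v : HeightOneSpectrum (𝓞 N)) : (Ideal.absNorm v.asIdeal : ℝ) ≠ 0 := by
  have h : Ideal.absNorm v.asIdeal ≠ 0 := Ideal.absNorm_ne_zero_iff_mem_nonZeroDivisors.2
    (mem_nonZeroDivisors_of_ne_zero v.ne_bot)
  exact_mod_cast h

theorem qp_one (v : HeightOneSpectrum (𝓞 N)) : qp v 1 = 1 := by
  rw [qp, log_one, neg_zero, zpow_zero]

theorem qp_ne_zero (v : HeightOneSpectrum (𝓞 N)) (a : ℤᵐ⁰) : qp v a ≠ 0 :=
  zpow_ne_zero _ (lg1_ne v)

theorem qp_mul (v : HeightOneSpectrum (𝓞 N)) {a b : ℤᵐ⁰} (ha : a ≠ 0) (hb : b ≠ 0) :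
    qp v (a * b) = qp v a * qp v b := by
  rw [qp, qp, qp, log_mul ha hb, neg_add, zpow_add₀ (lg1_ne v)]

private theorem lg1_emb (v : HeightOneSpectrum (𝓞 N)) (x : N) (hx : x ≠ 0) :
    qp v (v.valuation N x) = ((FinitePlace.equivHeightOneSpectrum.symm v) x)⁻¹ := by
  have h0 : v.valuation N x ≠ 0 := (Valuation.ne_zero_iff _).2 hx
  rw [FinitePlace.equivHeightOneSpectrum_symm_apply, FinitePlace.norm_embedding',
    WithZeroMulInt.toNNReal_neg_apply _ h0, toAdd_unzero_eq_log, qp, zpow_neg]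
  push_cast
  rfl

theorem qp_finite (x : N) (hx : x ≠ 0) :
    (Function.mulSupport fun v : HeightOneSpectrum (𝓞 N) => qp v (v.valuation N x)).Finite := by
  have h1 : (Function.mulSupport fun w : FinitePlace N => w x).Finite :=
    FinitePlace.hasFiniteMulSupport hx
  refine (h1.image FinitePlace.equivHeightOneSpectrum).subset ?_
  intro v hv
  refine ⟨FinitePlace.equivHeightOneSpectrum.symm v, ?_, Equiv.apply_symm_apply _ _⟩
  intro h2
  apply hv
  change qp v (v.valuation N x) = 1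
  have h3 : (FinitePlace.equivHeightOneSpectrum.symm v) x = 1 := h2
  rw [lg1_emb v x hx, h3, inv_one]

theorem prod_qp (x : N) (hx : x ≠ 0) :
    ∏ᶠ v : HeightOneSpectrum (𝓞 N), qp v (v.valuation N x) = |(Algebra.norm ℚ x : ℝ)| := by
  have h1 : ∏ᶠ v : HeightOneSpectrum (𝓞 N), qp v (v.valuation N x) =
      ∏ᶠ v : HeightOneSpectrum (𝓞 N), ((FinitePlace.equivHeightOneSpectrum.symm v) x)⁻¹ :=
    finprod_congr fun v => lg1_emb v x hx
  have h2 : ∏ᶠ v : HeightOneSpectrum (𝓞 N), ((FinitePlace.equivHeightOneSpectrum.symm v) x)⁻¹ =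
      ∏ᶠ w : FinitePlace N, (w x)⁻¹ :=
    finprod_comp_equiv (f := fun w : FinitePlace N => (w x)⁻¹)
      FinitePlace.equivHeightOneSpectrum.symm
  rw [h1, h2, finprod_inv_distrib, FinitePlace.prod_eq_inv_abs_norm hx]
  push_cast
  rw [inv_inv]

end Pool.Agent.Lib.MP_1a91b9_ntT.CT
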