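import Pool.Agent.Lib.MP_1a91b9_ntT.CT.Lf2
import Pool.Agent.Lib.MP_1a91b9_ntT.CT.Lg1
import Pool.Agent.Lib.MP_1a91b9_ntT.S9.Nf

/-!
# JOB Lg2: the finite part of the period of a twist

PROOF. `normFactor W v = qp v (v(u_min))`, `u_min = (uu W D v / 2) * D.u * 2` in `N_v`, so by `qp_mul`
`normFactor W v = qp v (v(uu W D v / 2)) * qp v (v(D.u)) * qp v (v(2))` (`Valued.v (algebraMap x) = v.valuation N x`). The three
families have finite support (`finite_bad`: `Valued.v (uu W D v) = v.valuation N 2` for almost all `v`; `qp_finite`), so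
`finprod_mul_distrib`, `prod_qp`: `∏ᶠ normFactor = κ' * |norm D.u| * |norm 2|`, `norm 2 = 2 ^ n` (`Algebra.norm_algebraMap`).
`κ' = ∏ᶠ v, qp v (v(uu W D v / 2))` is the image of the rational number `κ = ∏ᶠ v, (absNorm v : ℚ) ^ (...)`
(`finprod_induction` as `Rq.rat_normFactor` in `Rq/TwoPartQ.lean`; prove by `finprod_induction` the existence of a rational number
`q` with `(q : ℝ) = κ'` and at the same time `A.valuation q = 1` for all `A`): each factor is `1` if `v(2) < 1` (`val_u_two`),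
and an integral power of the odd number `absNorm v` otherwise (`v(2) = 1`: `2 ∉ v`; the norm of `v` is odd: if `2 ∣ absNorm v` then
`2 ∈ v` by `Ideal.absNorm_mem` and primality... the residue field has `absNorm v` elements, characteristic `p` with `p ∈ v`; compare
`absNorm_odd` in S9/Nf.lean); `val_natCast`.
-/

set_option autoImplicit false

namespace Pool.Agent.Lib.MP_1a91b9_ntT.CT

open NumberField IsDedekindDomain WeierstrassCurve WithZero Pool.Agent.Lib.MP_1a91b9_ntT.S9
open Pool.Agent.Lib.MP_1a91b9_ntT.TW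
open scoped Classical

variable {N : Type*} [Field N] [NumberField N]

theorem absNorm_odd' (v : HeightOneSpectrum (𝓞 N)) (h2 : v.valuation N 2 = 1) :
    Odd (Ideal.absNorm v.asIdeal) := by
  rw [← Nat.not_even_iff_odd]
  intro he
  have hfin : Finite (𝓞 N ⧸ v.asIdeal) := Ideal.finiteQuotientOfFreeOfNeBot v.asIdeal v.ne_bot
  have hcard : Ideal.absNorm v.asIdeal = Nat.card (𝓞 N ⧸ v.asIdeal) := by
    rw [Ideal.absNorm_apply, Submodule.cardQuot_apply]
  rw [hcard] at he
  have hp : Fact (Nat.Prime 2) := ⟨Nat.prime_two⟩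
  obtain ⟨x, hx⟩ := exists_prime_addOrderOf_dvd_card' (G := 𝓞 N ⧸ v.asIdeal) 2 he.two_dvd
  have hx0 : x ≠ 0 := by
    rintro rfl
    rw [addOrderOf_zero] at hx
    norm_num at hx
  have h2x : (2 : 𝓞 N ⧸ v.asIdeal) * x = 0 := by
    have h := addOrderOf_nsmul_eq_zero x
    rw [hx, nsmul_eq_mul] at h
    exact_mod_cast h
  have hpr : v.asIdeal.IsPrime := v.isPrime
  have h20 : (2 : 𝓞 N ⧸ v.asIdeal) = 0 := (mul_eq_zero.1 h2x).resolve_right hx0
  have hmem : (2 : 𝓞 N) ∈ v.asIdeal := by
    rw [← Ideal.Quotient.eq_zero_iff_mem, map_ofNat]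
    exact h20
  have hlt : v.valuation N (algebraMap (𝓞 N) N 2) < 1 :=
    (v.valuation_lt_one_iff_mem (K := N) 2).2 hmem
  rw [map_ofNat, h2] at hlt
  exact lt_irrefl _ hlt

theorem finprod_norm {W : WeierstrassCurve N} {D : VariableChange N} {δ : 𝓞 N} (hδ : Adm N δ)
    (hD : D • W = tw (δ : N)) :
    ∃ κ : ℚ, (∀ A : ValuationSubring ℂ, Two A → A.valuation (κ : ℂ) = 1) ∧
      ∏ᶠ v : HeightOneSpectrum (𝓞 N), normFactor W v =
        (κ : ℝ) * |(Algebra.norm ℚ (D.u : N) : ℝ)| * 2 ^ Module.finrank ℚ N := by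
  have h20 : (2 : N) ≠ 0 := two_ne_zero
  have hD0 : (D.u : N) ≠ 0 := D.u.ne_zero
  have hv2 : ∀ v : HeightOneSpectrum (𝓞 N), v.valuation N 2 ≠ 0 := fun v =>
    (Valuation.ne_zero_iff _).2 h20
  have hvD : ∀ v : HeightOneSpectrum (𝓞 N), v.valuation N (D.u : N) ≠ 0 := fun v =>
    (Valuation.ne_zero_iff _).2 hD0
  have hum : ∀ v : HeightOneSpectrum (𝓞 N), ((minChange W v).u : v.adicCompletion N) =
      uu W D v * algebraMap N (v.adicCompletion N) (D.u : N) := by
    intro v
    rw [uu, div_mul_cancel₀]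
    exact (map_ne_zero _).2 hD0
  have hvu : ∀ v : HeightOneSpectrum (𝓞 N), Valued.v (uu W D v) ≠ (0 : ℤᵐ⁰) := by
    intro v
    rw [Valuation.ne_zero_iff]
    intro h0
    have := hum v
    rw [h0, zero_mul] at this
    exact (minChange W v).u.ne_zero this
  set a : HeightOneSpectrum (𝓞 N) → ℤᵐ⁰ := fun v => Valued.v (uu W D v) / v.valuation N 2 with ha
  have ha0 : ∀ v, a v ≠ 0 := fun v => div_ne_zero (hvu v) (hv2 v)
  have hfac : ∀ v : HeightOneSpectrum (𝓞 N), normFactor W v =
      qp v (a v) * qp v (v.valuation N 2) * qp v (v.valuation N (D.u : N)) := by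
    intro v
    have e1 : normFactor W v = qp v (Valued.v ((minChange W v).u : v.adicCompletion N)) := rfl
    have e2 : Valued.v ((minChange W v).u : v.adicCompletion N) =
        a v * v.valuation N 2 * v.valuation N (D.u : N) := by
      rw [hum, map_mul, MP_1a91b9_nt.valued_algebraMap, ha]
      simp only
      rw [div_mul_cancel₀ _ (hv2 v)]
    rw [e1, e2, qp_mul v (mul_ne_zero (ha0 v) (hv2 v)) (hvD v), qp_mul v (ha0 v) (hv2 v)]
  have hs1 : (Function.mulSupport fun v : HeightOneSpectrum (𝓞 N) => qp v (a v)).Finite := by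
    refine (finite_bad hδ hD).subset fun v hv => ?_
    rw [Function.mem_mulSupport] at hv
    intro h
    apply hv
    have : a v = 1 := by
      rw [ha]
      simp only
      rw [h, div_self (hv2 v)]
    rw [this, qp_one]
  have hs2 := qp_finite (N := N) 2 h20
  have hs3 := qp_finite (N := N) (D.u : N) hD0
  have hs12 : (Function.mulSupport fun v : HeightOneSpectrum (𝓞 N) =>
      qp v (a v) * qp v (v.valuation N 2)).Finite :=
    (hs1.union hs2).subset (Function.mulSupport_mul _ _)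
  have hprod : ∏ᶠ v : HeightOneSpectrum (𝓞 N), normFactor W v =
      (∏ᶠ v : HeightOneSpectrum (𝓞 N), qp v (a v)) * 2 ^ Module.finrank ℚ N *
        |(Algebra.norm ℚ (D.u : N) : ℝ)| := by
    rw [finprod_congr hfac, finprod_mul_distrib hs12 hs3, finprod_mul_distrib hs1 hs2,
      prod_qp _ h20, prod_qp _ hD0]
    congr 2
    have e : (2 : N) = algebraMap ℚ N 2 := by rw [map_ofNat]
    rw [e, Algebra.norm_algebraMap]
    push_cast
    rw [abs_of_pos (by positivity)]
  have hκ : ∃ q : ℚ, (q : ℝ) = ∏ᶠ v : HeightOneSpectrum (𝓞 N), qp v (a v) ∧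
      ∀ A : ValuationSubring ℂ, Two A → A.valuation (q : ℂ) = 1 := by
    refine finprod_induction (p := fun x : ℝ => ∃ q : ℚ, (q : ℝ) = x ∧
      ∀ A : ValuationSubring ℂ, Two A → A.valuation (q : ℂ) = 1) ?_ ?_ ?_
    · exact ⟨1, by norm_num, fun A _ => by rw [Rat.cast_one, map_one]⟩
    · rintro x y ⟨q, hq, hq'⟩ ⟨r, hr, hr'⟩
      refine ⟨q * r, by rw [← hq, ← hr]; push_cast; rfl, fun A hA => ?_⟩
      rw [Rat.cast_mul, map_mul, hq' A hA, hr' A hA, one_mul]
    · intro v
      rcases (v.valuation_le_one (K := N) (2 : 𝓞 N)).lt_or_eq with h | h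
      · have h2 : v.valuation N 2 < 1 := h
        refine ⟨1, ?_, fun A _ => by rw [Rat.cast_one, map_one]⟩
        have e : a v = 1 := by
          rw [ha]
          simp only
          rw [val_u_two hδ hD v h2, div_self (hv2 v)]
        rw [e, qp_one, Rat.cast_one]
      · have h2 : v.valuation N 2 = 1 := h
        refine ⟨(Ideal.absNorm v.asIdeal : ℚ) ^ (-(log (a v))), ?_, fun A hA => ?_⟩
        · rw [qp]
          push_cast
          rfl
        · rw [Rat.cast_zpow, Rat.cast_natCast, map_zpow₀, val_natCast hA (absNorm_odd' v h2),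
            one_zpow]
  obtain ⟨q, hq, hqA⟩ := hκ
  refine ⟨q, hqA, ?_⟩
  rw [hprod, hq]
  ring

end Pool.Agent.Lib.MP_1a91b9_ntT.CT
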