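import Pool.Agent.Lib.MP_1a91b9_ntT.TW.Iso

/-!
# JOB Red: the reduction, with all the data

PROOF. The copy of `reduction` (TW/Iso.lean) and `exists_adm` (TW/Main.lean), keeping more data. `Odd (discr N')`: `N'` is a
subfield of `L`, `2 ∣ discr N'` would give `2 ∣ discr L` (`discr_dvd_discr`), and `hL 2` is contradicted by `0 ^ 3 = 2` in `ZMod 2`
(see `hd` in `Pool/Agent/Results/MP_1a91b9_nt/TwoPart.lean`). First alternative (`x` comes from `y ∈ N`, `d = y²`): `D • W = tw (y²)`, and
`tw (y²) = (change) • tw 1` by `exists_tw_scale 1 y`. `hC' : C' • W.baseChange N = E N`: `exists_iso_sq`, `W.baseChange N = W`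
(`map_id`). Second alternative: `D' • W = tw δ` by `exists_tw_scale d α` and `hα2`, over `N'`: `tw δ = tw (x'²)` and `exists_iso_sq x'`.
`TwistLoc N' W` as there.
-/

set_option autoImplicit false

namespace Pool.Agent.Lib.MP_1a91b9_ntT.CT

open NumberField IsDedekindDomain WeierstrassCurve
open Pool.Agent.Lib.MP_1a91b9_ntT.S4 Pool.Agent.Lib.MP_1a91b9_ntT.S7
open Pool.Agent.Lib.MP_1a91b9_ntT.S8 Pool.Agent.Lib.MP_1a91b9_nt Pool.Agent.Lib.MP_1a91b9_ntT.TW

universe u

theorem odd_discr {N : Type u} [Field N] [NumberField N] (hN : RamCond N) : Odd (discr N) := by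
  rw [← Int.not_even_iff_odd, even_iff_two_dvd]
  intro h2
  exact hN 2 Nat.prime_two (by norm_num) (by exact_mod_cast h2) 0 (by decide)

/-- the data for the twist by a non-square, with the parity of the discriminant -/
private theorem exists_adm_odd (N L M : Type u) [Field N] [NumberField N] [Field L] [NumberField L]
    [Field M] [NumberField M] [Algebra N L] [Algebra L M] [IsGalois ℚ M] (n : ℕ)
    (hM : Module.finrank ℚ M = 2 ^ n) (hL : RamCond L) (d : N)
    (x : L) (hx : x ^ 2 = algebraMap N L d) (hnx : ¬ ∃ y : N, algebraMap N L y = x) :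
    ∃ (N' : Type u) (_ : Field N') (_ : NumberField N') (_ : Algebra N N') (δ : 𝓞 N) (x' : N')
      (α : N), Odd (discr N') ∧ Adm N δ ∧ x' ^ 2 = algebraMap N N' δ ∧
      (¬ ∃ y : N, algebraMap N N' y = x') ∧
      (∀ z : N', ∃ a b : N, z = algebraMap N N' a + algebraMap N N' b * x') ∧ α ≠ 0 ∧
      (δ : N) = d * α ^ 2 := by
  have hrN : RamCond N := fun p hp hp3 hd => hL p hp hp3 (hd.trans (discr_dvd_discr N L))
  let algNM : Algebra N M := ((algebraMap L M).comp (algebraMap N L)).toAlgebra
  have hNC : NC N := nc_of_galois N M n hM hrN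
  let N' : IntermediateField N L := IntermediateField.adjoin N {x}
  have hxN' : x ∈ N' := IntermediateField.subset_adjoin N {x} rfl
  let x₀ : N' := ⟨x, hxN'⟩
  have hx0 : x₀ ^ 2 = algebraMap N N' d := Subtype.ext hx
  have hnx0 : ¬ ∃ y : N, algebraMap N N' y = x₀ := by
    rintro ⟨y, hy⟩
    exact hnx ⟨y, congrArg Subtype.val hy⟩
  have hint : IsIntegral N x := by
    refine ⟨Polynomial.X ^ 2 - Polynomial.C d, Polynomial.monic_X_pow_sub_C d two_ne_zero, ?_⟩
    rw [Polynomial.eval₂_sub, Polynomial.eval₂_pow, Polynomial.eval₂_X, Polynomial.eval₂_C, hx,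
      sub_self]
  have hdeg : Module.finrank N N' = 2 := by
    have h1 : Module.finrank N N' = (minpoly N x).natDegree :=
      IntermediateField.adjoin.finrank hint
    rw [h1]
    have h2 : minpoly N x ∣ Polynomial.X ^ 2 - Polynomial.C d := by
      refine minpoly.dvd N x ?_
      rw [map_sub, map_pow, Polynomial.aeval_X, Polynomial.aeval_C, hx, sub_self]
    have h3 : (minpoly N x).natDegree ≤ 2 := by
      have := Polynomial.natDegree_le_of_dvd h2
        (Polynomial.monic_X_pow_sub_C d two_ne_zero).ne_zero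
      rwa [Polynomial.natDegree_X_pow_sub_C] at this
    have h4 := minpoly.natDegree_pos hint
    have h5 : (minpoly N x).natDegree ≠ 1 := by
      intro h
      have h6 := (minpoly.natDegree_eq_one_iff (A := N) (x := x)).mp h
      obtain ⟨y, hy⟩ := h6
      exact hnx ⟨y, hy⟩
    omega
  have hrN' : RamCond N' := fun p hp hp3 hd => hL p hp hp3 (hd.trans (discr_dvd_discr N' L))
  obtain ⟨δ, x', hδ, hx', hn', hgen⟩ := adm_step hdeg hrN' hNC
  obtain ⟨α, hα, hα2⟩ := sqrt_ratio d x₀ hx0 hnx0 (δ : N) x' hx' hn' hgen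
  exact ⟨N', inferInstance, inferInstance, inferInstance, δ, x', α, odd_discr hrN', hδ, hx', hn',
    hgen, hα, hα2⟩

theorem reductionD (N L M : Type u) [Field N] [NumberField N] [Field L] [NumberField L]
    [Field M] [NumberField M] [Algebra N L] [Algebra L M] [IsGalois ℚ M] (n : ℕ)
    (hM : Module.finrank ℚ M = 2 ^ n) (hL : RamCond L) (W : WeierstrassCurve N)
    (C : WeierstrassCurve.VariableChange L) (hC : C • (W.baseChange L) = E L) :
    Tower N ∧ Odd (discr N) ∧
      (((∀ v, locPoly W v = locPoly (E N) v) ∧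
        (∃ D : VariableChange N, D • W = tw (1 : N)) ∧
        ∃ C' : VariableChange N, C' • W.baseChange N = E N) ∨
      ∃ (N' : Type u) (_ : Field N') (_ : NumberField N') (_ : Algebra N N') (δ : 𝓞 N) (x' : N')
        (D : VariableChange N) (C' : VariableChange N'),
        Odd (discr N') ∧ Adm N δ ∧ x' ^ 2 = algebraMap N N' δ ∧
        (¬ ∃ y : N, algebraMap N N' y = x') ∧
        (∀ z : N', ∃ a b : N, z = algebraMap N N' a + algebraMap N N' b * x') ∧
        TwistLoc N' W ∧ D • W = tw (δ : N) ∧ C' • W.baseChange N' = E N') := by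
  have hrN : RamCond N := fun p hp hp3 hd => hL p hp hp3 (hd.trans (discr_dvd_discr N L))
  have hT : Tower N := by
    let algNM : Algebra N M := ((algebraMap L M).comp (algebraMap N L)).toAlgebra
    exact tower_of_galois N M n hM hrN
  have hNC := noCube3_towerQ N hT
  refine ⟨hT, odd_discr hrN, ?_⟩
  -- the degree of `L` over `N`
  obtain ⟨k, hk⟩ : ∃ k : ℕ, Module.finrank N L = 2 ^ k := by
    have h1 := Module.finrank_mul_finrank ℚ N L
    have h2 := Module.finrank_mul_finrank ℚ L M
    have h3 : Module.finrank N L ∣ 2 ^ n := by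
      rw [← hM, ← h2, ← h1]
      exact ⟨Module.finrank ℚ N * Module.finrank L M, by ring⟩
    obtain ⟨k, -, hk⟩ := (Nat.dvd_prime_pow Nat.prime_two).1 h3
    exact ⟨k, hk⟩
  obtain ⟨d, x, D, hd, hx, hD⟩ := exists_tw k hk W C hC
  by_cases hy : ∃ y : N, algebraMap N L y = x
  · left
    obtain ⟨y, rfl⟩ := hy
    have hdy : d = y ^ 2 := by
      apply (algebraMap N L).injective
      rw [← hx, map_pow]
    have hy0 : y ≠ 0 := by
      rintro rfl
      apply hd
      rw [hdy, zero_pow two_ne_zero]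
    subst hdy
    obtain ⟨D', hD'⟩ := exists_iso_sq y hy0
    refine ⟨?_, ?_, ?_⟩
    · intro v
      by_cases h3 : (3 : 𝓞 N) ∈ v.asIdeal
      · rw [E_eq, locPoly_fermatCubic_three v h3 (hNC v h3),
          locPoly_iso_three W (y ^ 2) (pow_ne_zero 2 hy0) D hD hNC v h3]
      · exact locPoly_of_iso W (D' * D) (by rw [mul_smul, hD, hD']) v h3
    · obtain ⟨C₁, hC₁⟩ := exists_tw_scale (1 : N) y hy0
      rw [one_mul] at hC₁
      exact ⟨C₁⁻¹ * D, by rw [mul_smul, hD, ← hC₁, inv_smul_smul]⟩
    · have hbc : W.baseChange N = W := by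
        show W.map (algebraMap N N) = W
        rw [Algebra.algebraMap_self]
        exact W.map_id
      rw [hbc]
      exact ⟨D' * D, by rw [mul_smul, hD, hD']⟩
  · right
    obtain ⟨N', i1, i2, i3, δ, x', α, hodd, hδ, hx', hn, hgen, hα, hα2⟩ :=
      exists_adm_odd N L M n hM hL d x hx hy
    obtain ⟨a, b, hab⟩ := hδ.sq
    obtain ⟨C', hC'⟩ := exists_tw_scale d α hα
    have hDW : (C' * D) • W = tw (δ : N) := by rw [mul_smul, hD, hC', hα2]
    have hx0 : x' ≠ 0 := by
      rintro rfl
      exact hn ⟨0, map_zero _⟩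
    obtain ⟨C₂, hC₂⟩ := exists_iso_sq x' hx0
    have hbase : ((C' * D).map (algebraMap N N')) • (W.baseChange N') = tw (x' ^ 2) := by
      have h1 : ((C' * D).map (algebraMap N N')) • (W.baseChange N') =
          ((C' * D) • W).map (algebraMap N N') :=
        (WeierstrassCurve.map_variableChange _ _ _)
      rw [h1, hDW, tw_map, hx']
    refine ⟨N', i1, i2, i3, δ, x', C' * D, C₂ * (C' * D).map (algebraMap N N'), hodd, hδ, hx', hn,
      hgen, ?_, hDW, by rw [mul_smul, hbase, hC₂]⟩
    subst hab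
    exact twistLoc_iso (S4.finrank_step _ x' hx' hn hgen) a b x' hx' hn hgen hδ.odd hNC W
      (C' * D) hDW

end Pool.Agent.Lib.MP_1a91b9_ntT.CT
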