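import Pool.Agent.Lib.MP_1a91b9_ntT.S9.MC

/-!
# JOB Sc: cocycles with values in `E` which are trivial at the finite places

PROOF. `local_all`, `two_cocycle`, `two_class` of `S9/MC.lean` use only `c ∈ coc (E N)` and the conditions at the finite places from
`hc : c ∈ shaCoc (E N)`. Copy them with this weaker hypothesis (coboundaries satisfy it by `cob_le_coc`, `cob_le_trivOver`), then
induction on `n` (`2 ^ (n + 1) • c = 2 ^ n • (c + c)`: apply the statement for `n` to `c + c`, then the case `n = 1`).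
-/

set_option autoImplicit false

namespace Pool.Agent.Lib.MP_1a91b9_ntT.CT

open WeierstrassCurve NumberField IsDedekindDomain
open Pool.Agent.Lib.MP_1a91b9_ntT.S9 Pool.Agent.Lib.MP_1a91b9_ntT.S5
open scoped Classical

universe u

private theorem sc_local_all {N : Type u} [Field N] [NumberField N]
    (c : Gal N → Pts (E N) (AlgebraicClosure N))
    (hc : ∀ v : HeightOneSpectrum (𝓞 N), c ∈ trivOver (E N) (v.adicCompletion N))
    (h2 : ∀ σ, c σ + c σ = 0) (A : IntermediateField N (AlgebraicClosure N)) [NumberField A]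
    (t : A) (ht : t ^ 3 = 2) (ht' : (t : AlgebraicClosure N) ^ 3 = 2)
    (b : AlgebraicClosure N) (α : A) (hα : (α : AlgebraicClosure N) = b ^ 2)
    (hb : ∀ σ : Gal N, (∀ x : A, σ x = x) →
      σ b = (((pr (c σ) (tp (E_bc N (AlgebraicClosure N)) (t : AlgebraicClosure N) ht') : ℤˣ) :
        ℤ) : AlgebraicClosure N) * b) (w : HeightOneSpectrum (𝓞 A)) :
    ∃ φ : (below N w).adicCompletion N →+*
      w.adicCompletion A, (∀ x, Valued.v (φ x) = (Valued.v x) ^ ram N w) ∧
      ∃ (x y : (below N w).adicCompletion N) (β : w.adicCompletion A), y ^ 2 + y = x ^ 3 ∧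
        4 * φ x + 2 * algebraMap A _ t ≠ 0 ∧
        algebraMap A _ α * (4 * φ x + 2 * algebraMap A _ t) = β ^ 2 := by
  obtain ⟨φ, h1, hv⟩ := exists_compMap N w
  refine ⟨φ, hv, ?_⟩
  have : CharZero ((below N w).adicCompletion N) :=
    charZero_of_injective_algebraMap (algebraMap N ((below N w).adicCompletion N)).injective
  have : CharZero (w.adicCompletion A) :=
    charZero_of_injective_algebraMap (algebraMap A (w.adicCompletion A)).injective
  let _ : Algebra ((below N w).adicCompletion N) (w.adicCompletion A) := φ.toAlgebra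
  let _ : Algebra N (w.adicCompletion A) :=
    ((algebraMap A (w.adicCompletion A)).comp (algebraMap N A)).toAlgebra
  have : IsScalarTower N ((below N w).adicCompletion N) (w.adicCompletion A) :=
    IsScalarTower.of_algebraMap_eq fun x => (h1 x).symm
  have : IsScalarTower N A (w.adicCompletion A) :=
    IsScalarTower.of_algebraMap_eq fun x => rfl
  have hcv : c ∈ trivOver (E N) ((below N w).adicCompletion N) := hc (below N w)
  exact local_main c hcv h2 t ht A.val ht' b α hα hb

private theorem sc_omega (F : Type*) [Field F] [CharZero F] [IsAlgClosed F] :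
    ∃ z : F, z ^ 2 + z + 1 = 0 := by
  obtain ⟨s, hs⟩ := IsAlgClosed.exists_pow_nat_eq (-3 : F) (n := 2) (by norm_num)
  exact ⟨(-1 + s) / 2, by linear_combination (1 / 4 : F) * hs⟩

private theorem sc_min {N A' : Type*} [Field N] [Field A'] [Algebra N A']
    (h : ∀ x : N, x ^ 3 ≠ 2) {θ : A'} (hθ : θ ^ 3 = 2) :
    IsIntegral N θ ∧ Module.finrank N (IntermediateField.adjoin N {θ}) = 3 := by
  have hirr : Irreducible (Polynomial.X ^ 3 - Polynomial.C (2 : N)) :=
    X_pow_sub_C_irreducible_of_prime Nat.prime_three h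
  have hmon : (Polynomial.X ^ 3 - Polynomial.C (2 : N)).Monic :=
    Polynomial.monic_X_pow_sub_C _ (by norm_num)
  have hroot : Polynomial.aeval θ (Polynomial.X ^ 3 - Polynomial.C (2 : N)) = 0 := by
    simp [hθ, map_ofNat]
  have hint : IsIntegral N θ := ⟨_, hmon, by rwa [Polynomial.aeval_def] at hroot⟩
  refine ⟨hint, ?_⟩
  rw [IntermediateField.adjoin.finrank hint, ← minpoly.eq_of_irreducible_of_monic hirr hroot hmon,
    Polynomial.natDegree_X_pow_sub_C]

private theorem sc_nf {N : Type*} [Field N] [NumberField N]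
    (A : IntermediateField N (AlgebraicClosure N)) [FiniteDimensional N A] : NumberField A :=
  { to_charZero := inferInstance
    to_finiteDimensional := FiniteDimensional.trans ℚ N A }

private theorem sc_act {N : Type*} [Field N] [CharZero N] (g : Gal N) (s : AlgebraicClosure N)
    (hs : s ^ 3 = 2) (hs' : (g s) ^ 3 = 2) :
    actP (E N) g (tp (E_bc N (AlgebraicClosure N)) s hs) =
      tp (E_bc N (AlgebraicClosure N)) (g s) hs' := by
  unfold tp actP
  rw [Affine.Point.map_some]
  have h2 : g 2 = 2 := map_ofNat g 2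
  congr 1
  · simp [h2]
  · simp [h2]

private theorem sc_two_cocycle {N : Type u} [Field N] [NumberField N] (hG : Good N)
    (c : Gal N → Pts (E N) (AlgebraicClosure N)) (hcc : c ∈ coc (E N))
    (hc : ∀ v : HeightOneSpectrum (𝓞 N), c ∈ trivOver (E N) (v.adicCompletion N))
    (h2 : ∀ σ, c σ + c σ = 0) : c ∈ cob (E N) := by
  obtain ⟨t, ht⟩ := IsAlgClosed.exists_pow_nat_eq (2 : AlgebraicClosure N) (n := 3) (by norm_num)
  obtain ⟨z, hz⟩ := sc_omega (AlgebraicClosure N)
  have hz3 : z ^ 3 = 1 := by linear_combination (z - 1) * hz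
  have ht1 : (z * t) ^ 3 = 2 := by rw [mul_pow, hz3, ht, one_mul]
  have ht2 : (z ^ 2 * t) ^ 3 = 2 := by
    linear_combination (z ^ 3 + 1) * t ^ 3 * hz3 + ht
  have hk : ∀ x : N, x ^ 3 ≠ 2 := not_cube N hG.unr
  have S := setting hk t z ht hz ht1 c hcc h2
  obtain ⟨hint, hdeg⟩ := sc_min hk ht
  have hfd : FiniteDimensional N (IntermediateField.adjoin N {t}) :=
    IntermediateField.adjoin.finiteDimensional hint
  have hnf : NumberField (IntermediateField.adjoin N {t}) := sc_nf _
  set A : IntermediateField N (AlgebraicClosure N) := IntermediateField.adjoin N {t} with hA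
  have htA : t ∈ A := IntermediateField.mem_adjoin_simple_self N t
  have hCub : Cub N A (⟨t, htA⟩ : A) := by
    refine ⟨Subtype.ext ht, hdeg, fun x hx => hk x ?_⟩
    apply (algebraMap N (AlgebraicClosure N)).injective
    have h1 : algebraMap N (AlgebraicClosure N) x = t := congrArg Subtype.val hx
    rw [map_pow, h1, ht, map_ofNat]
  obtain ⟨b, α, hb0, hα, hb⟩ := exists_kummer t ht c hcc S A htA
  have hfixA : ∀ g : Gal N, g t = t → ∀ x : A, g x = x := by
    intro g hg x
    have h1 : (x : AlgebraicClosure N) ∈ IntermediateField.adjoin N {t} := x.2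
    have h3 : IntermediateField.adjoin N {t} ≤
        IntermediateField.fixedField (Subgroup.zpowers g) := by
      rw [IntermediateField.adjoin_le_iff, Set.singleton_subset_iff]
      rintro ⟨σ, hσ⟩
      obtain ⟨n, rfl⟩ := Subgroup.mem_zpowers_iff.1 hσ
      have h4 : g ∈ MulAction.stabilizer (Gal N) t := hg
      exact Subgroup.zpow_mem _ h4 n
    exact h3 h1 ⟨g, Subgroup.mem_zpowers g⟩
  have hact : ∀ g : Gal N, ∀ (s : AlgebraicClosure N) (hs : s ^ 3 = 2) (hs' : (g s) ^ 3 = 2),
      actP (E N) g (tp (E_bc N (AlgebraicClosure N)) s hs) =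
        tp (E_bc N (AlgebraicClosure N)) (g s) hs' := fun g s hs hs' => sc_act g s hs hs'
  have hpw : ∀ (g : Gal N) (s : AlgebraicClosure N), s ^ 3 = 2 → (g s) ^ 3 = 2 := by
    intro g s hs
    rw [← map_pow, hs, map_ofNat]
  have hstab : ∀ g : Gal N, actP (E N) g (tp (E_bc N (AlgebraicClosure N)) t ht) =
      tp (E_bc N (AlgebraicClosure N)) t ht → g t = t := by
    intro g hg
    rw [hact g t ht (hpw g t ht), tp_inj] at hg
    exact hg
  obtain ⟨g₁, hg₁⟩ := S.tr _ S.ne1 S.two1
  have hg₁t : g₁ t = z * t := by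
    have h1 := hg₁
    rw [hact g₁ t ht (hpw g₁ t ht), tp_inj] at h1
    exact h1
  have hne2 : tp (E_bc N (AlgebraicClosure N)) t ht +
      tp (E_bc N (AlgebraicClosure N)) (z * t) ht1 ≠ 0 := by
    rw [tp_add (E_bc N (AlgebraicClosure N)) t z ht hz ht1 ht2]
    exact tp_ne _ _ _
  have htw2 : (tp (E_bc N (AlgebraicClosure N)) t ht +
      tp (E_bc N (AlgebraicClosure N)) (z * t) ht1) + (tp (E_bc N (AlgebraicClosure N)) t ht +
      tp (E_bc N (AlgebraicClosure N)) (z * t) ht1) = 0 := by
    rw [tp_add (E_bc N (AlgebraicClosure N)) t z ht hz ht1 ht2]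
    exact tp_two _ _ _
  obtain ⟨g₂, hg₂⟩ := S.tr _ hne2 htw2
  have hg₂t : g₂ t = z ^ 2 * t := by
    have h1 := hg₂
    rw [hact g₂ t ht (hpw g₂ t ht), tp_add (E_bc N (AlgebraicClosure N)) t z ht hz ht1 ht2,
      tp_inj] at h1
    exact h1
  have hprod := S.prod_fixed (fun g : Gal N => (g : AlgebraicClosure N →+* AlgebraicClosure N))
    (fun x => rfl) (fun g h x => rfl) b (fun g hg => hb g (hfixA g (hstab g hg))) g₁ g₂ hg₁ hg₂
  obtain ⟨n, hn⟩ := fixed_elem (b * g₁ b * g₂ b) (fun g => hprod g)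
  have hnorm : algebraMap N (AlgebraicClosure N) (Algebra.norm N α) =
      (α : AlgebraicClosure N) * g₁ (α : AlgebraicClosure N) * g₂ (α : AlgebraicClosure N) :=
    norm_prod hCub A.val (g₁ : AlgebraicClosure N →ₐ[N] AlgebraicClosure N)
      (g₂ : AlgebraicClosure N →ₐ[N] AlgebraicClosure N) z hz hg₁t hg₂t α
  have hns : IsSquare (Algebra.norm N α) := by
    refine ⟨n, ?_⟩
    apply (algebraMap N (AlgebraicClosure N)).injective
    rw [hnorm, map_mul, hn, hα, map_pow, map_pow]
    ring
  have hα0 : α ≠ 0 := by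
    rintro rfl
    have h1 : (0 : AlgebraicClosure N) = b ^ 2 := hα
    exact hb0 (pow_eq_zero_iff (two_ne_zero)|>.1 h1.symm)
  have hSel : Sel N A α := sel_of_local hCub hG.unr hG.tame α hα0 hns
    (fun w => sc_local_all c hc h2 A ⟨t, htA⟩ hCub.cube ht b α hα hb w)
  obtain ⟨β, hβ⟩ := hG.sel A _ hCub α hSel
  have hbβ : b = (β : AlgebraicClosure N) ∨ b = -(β : AlgebraicClosure N) := by
    rw [← sq_eq_sq_iff_eq_or_eq_neg, ← hα, hβ]
    exact (pow_two _).symm
  obtain ⟨R, _, hR⟩ := S.cob_of_stab (fun g hg => by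
    have hfix := hfixA g (hstab g hg)
    have h1 := hb g hfix
    have h3 : g b = b := by
      rcases hbβ with h4 | h4
      · rw [h4]
        exact hfix β
      · rw [h4, map_neg]
        exact congrArg _ (hfix β)
    by_contra hcon
    push Not at hcon
    have h5 : pr (c g) (tp (E_bc N (AlgebraicClosure N)) t ht) = -1 := by
      unfold pr
      rw [if_neg]
      push Not
      exact ⟨hcon.1, S.ne0, hcon.2⟩
    rw [h5, h3] at h1
    have h6 : (2 : AlgebraicClosure N) * b = 0 := by
      push_cast at h1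
      linear_combination h1
    rcases mul_eq_zero.1 h6 with h7 | h7
    · exact two_ne_zero h7
    · exact hb0 h7)
  exact ⟨R, hR⟩

private theorem sc_two_class {N : Type u} [Field N] [NumberField N] (hG : Good N)
    (c : Gal N → Pts (E N) (AlgebraicClosure N)) (hcc : c ∈ coc (E N))
    (hc : ∀ v : HeightOneSpectrum (𝓞 N), c ∈ trivOver (E N) (v.adicCompletion N))
    (h2 : c + c ∈ cob (E N)) : c ∈ cob (E N) := by
  obtain ⟨Q, hQ⟩ := h2
  obtain ⟨R, hR⟩ := exists_half_closed (E_bc N (AlgebraicClosure N)) Q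
  have hd : (fun σ : Gal N => actP (E N) σ R - R) ∈ cob (E N) := ⟨R, fun σ => rfl⟩
  have hc' : c - (fun σ : Gal N => actP (E N) σ R - R) ∈ cob (E N) := by
    refine sc_two_cocycle hG _ (sub_mem hcc (cob_le_coc (E N) hd))
      (fun v => sub_mem (hc v) (cob_le_trivOver (E N) hd)) fun σ => ?_
    have h1 : c σ + c σ = actP (E N) σ Q - Q := hQ σ
    have h3 : actP (E N) σ Q = actP (E N) σ R + actP (E N) σ R := by
      rw [← hR, _root_.map_add]
    rw [h3, ← hR] at h1
    simp only [Pi.sub_apply]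
    have h4 : c σ - (actP (E N) σ R - R) + (c σ - (actP (E N) σ R - R)) =
        (c σ + c σ) - (actP (E N) σ R + actP (E N) σ R - (R + R)) := by abel
    rw [h4, h1, sub_self]
  have h5 := add_mem hc' hd
  rwa [sub_add_cancel] at h5

theorem pow_class {N : Type u} [Field N] [NumberField N] (hG : Good N)
    (c : Gal N → Pts (E N) (AlgebraicClosure N)) (hc : c ∈ coc (E N))
    (hv : ∀ v : HeightOneSpectrum (𝓞 N), c ∈ trivOver (E N) (v.adicCompletion N))
    (n : ℕ) (h2 : 2 ^ n • c ∈ cob (E N)) : c ∈ cob (E N) := by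
  induction n generalizing c with
  | zero => simpa using h2
  | succ n ih =>
    refine sc_two_class hG c hc hv (ih (c + c) (add_mem hc hc) (fun v => add_mem (hv v) (hv v)) ?_)
    rw [← two_nsmul, ← mul_nsmul', ← pow_succ]
    exact h2

end Pool.Agent.Lib.MP_1a91b9_ntT.CT
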