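import Pool.Agent.Lib.MP_1a91b9_ntT.S9.MB

/-!
# JOB Sd: descent of triviality through a quadratic extension

`j : kbar ≃ₐ[k] k'bar`, `k' = k(x)`, `x² = d ∈ k`; `H` the subgroup of the `τ : Gal k` which fix `j⁻¹(k')`, i.e. fix
`y = j⁻¹(x)` (`hgen`); a `τ` not in `H` has `τ y = -y` (`y² = d`). PROOF. Subtract the coboundary of `P`: `c' = c - ∂P` vanishes
on `H`. If `H` is everything, done. Otherwise fix `σ₀ ∉ H` and `R = c' σ₀`. For every `σ ∉ H`: `σ₀⁻¹ σ ∈ H`, so
`c' σ = c' σ₀ + σ₀ (c' (σ₀⁻¹ σ)) = R`. For `τ ∈ H`: `τ σ₀ ∉ H`, `R = c' (τ σ₀) = c' τ + τ R = τ R`. And `σ ∉ H`: `σ σ ∈ H`,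
`0 = c' σ + σ (c' σ) = R + σ R`: `σ R = -R`. The point `j R : Pts W k'bar` is fixed by the Galois group of `k'` (for
`σ' ∈ Gal k'` the automorphism `j⁻¹ σ' j` is in `H`), so by `fixed_pt` (S9/KB.lean, `L = k'`) it comes from `Pts W k'`, and `hodd` gives
`(2 n + 1) • R = 0`. Put `Q = n • R`: `τ Q - Q = 0 = c' τ` for `τ ∈ H`, `σ Q - Q = -2 Q = -(2 n) • R = R = c' σ` for `σ ∉ H`.
So `c' = ∂Q` and `c = ∂(P + Q)`.
-/

set_option autoImplicit false

namespace Pool.Agent.Lib.MP_1a91b9_ntT.CT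

open WeierstrassCurve Pool.Agent.Lib.MP_1a91b9_ntT.S9
open scoped Classical

theorem descend {k k' : Type*} [Field k] [CharZero k] [Field k'] [CharZero k'] [Algebra k k']
    (x : k') (d : k) (hx : x ^ 2 = algebraMap k k' d)
    (hgen : ∀ z : k', ∃ a b : k, z = algebraMap k k' a + algebraMap k k' b * x)
    (W : WeierstrassCurve k) (j : AlgebraicClosure k ≃ₐ[k] AlgebraicClosure k')
    (n : ℕ) (hodd : ∀ R : Pts W k', (2 * n + 1) • R = 0)
    (c : Gal k → Pts W (AlgebraicClosure k)) (hc : c ∈ coc W)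
    (P : Pts W (AlgebraicClosure k)) (hP : ∀ τ : Gal k,
      (∀ z : k', τ (j.symm (algebraMap k' _ z)) = j.symm (algebraMap k' _ z)) →
      c τ = Affine.Point.map (τ : AlgebraicClosure k →ₐ[k] _) P - P) : c ∈ cob W := by
  -- the point `y`
  set y : AlgebraicClosure k := j.symm (algebraMap k' _ x) with hy
  have hy2 : y ^ 2 = algebraMap k _ d := by
    rw [hy, ← map_pow, ← map_pow, hx, ← IsScalarTower.algebraMap_apply k k', j.symm.commutes]
  have hfix : ∀ τ : Gal k, τ y = y →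
      ∀ z : k', τ (j.symm (algebraMap k' _ z)) = j.symm (algebraMap k' _ z) := by
    intro τ h z
    obtain ⟨a, b, rfl⟩ := hgen z
    have e : j.symm (algebraMap k' (AlgebraicClosure k')
        (algebraMap k k' a + algebraMap k k' b * x)) =
        algebraMap k _ a + algebraMap k _ b * y := by
      rw [_root_.map_add, _root_.map_mul, ← IsScalarTower.algebraMap_apply k k',
        ← IsScalarTower.algebraMap_apply k k', _root_.map_add, _root_.map_mul, j.symm.commutes,
        j.symm.commutes]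
    rw [e, _root_.map_add, _root_.map_mul, τ.commutes, τ.commutes, h]
  have hsgn : ∀ τ : Gal k, τ y = y ∨ τ y = -y := by
    intro τ
    have h1 : (τ y) ^ 2 = y ^ 2 := by rw [← map_pow, hy2, τ.commutes]
    exact sq_eq_sq_iff_eq_or_eq_neg.mp h1
  -- the modified cocycle
  set c' : Gal k → Pts W (AlgebraicClosure k) := fun τ =>
    c τ - (Affine.Point.map (τ : AlgebraicClosure k →ₐ[k] _) P - P) with hc'
  have hcoc : c' ∈ coc W := by
    have h1 : (fun τ : Gal k => Affine.Point.map (τ : AlgebraicClosure k →ₐ[k] _) P - P) ∈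
        coc W := cob_le_coc W ⟨P, fun σ => rfl⟩
    exact sub_mem hc h1
  have hH : ∀ τ : Gal k, τ y = y → c' τ = 0 := by
    intro τ h
    have h1 := hP τ (hfix τ h)
    rw [hc']
    simp only [h1, sub_self]
  suffices hs : c' ∈ cob W by
    have h1 : (fun τ : Gal k => Affine.Point.map (τ : AlgebraicClosure k →ₐ[k] _) P - P) ∈
        cob W := ⟨P, fun σ => rfl⟩
    have h2 : c = c' + fun τ : Gal k =>
        Affine.Point.map (τ : AlgebraicClosure k →ₐ[k] _) P - P := by
      funext τ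
      rw [Pi.add_apply, hc']
      simp only [sub_add_cancel]
    rw [h2]
    exact add_mem hs h1
  by_cases hall : ∀ τ : Gal k, τ y = y
  · refine ⟨0, fun σ => ?_⟩
    rw [hH σ (hall σ), _root_.map_zero, sub_zero]
  push Not at hall
  obtain ⟨σ₀, hσ₀⟩ := hall
  have hσ₀' : σ₀ y = -y := (hsgn σ₀).resolve_left hσ₀
  set R := c' σ₀ with hR
  have h1 : ∀ σ : Gal k, σ y = -y → c' σ = R := by
    intro σ hσ
    have h2 : (σ₀⁻¹ * σ) y = y := by
      rw [AlgEquiv.mul_apply, hσ]
      apply σ₀.injective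
      rw [← AlgEquiv.mul_apply, mul_inv_cancel, AlgEquiv.one_apply, hσ₀']
    have h3 := hcoc.2 σ₀ (σ₀⁻¹ * σ)
    rw [mul_inv_cancel_left, hH _ h2, _root_.map_zero, add_zero] at h3
    exact h3
  have h2 : ∀ τ : Gal k, τ y = y → Affine.Point.map (τ : AlgebraicClosure k →ₐ[k] _) R = R := by
    intro τ hτ
    have h3 : (τ * σ₀) y = -y := by rw [AlgEquiv.mul_apply, hσ₀', _root_.map_neg, hτ]
    have h4 := hcoc.2 τ σ₀
    rw [h1 _ h3, hH τ hτ, zero_add] at h4
    exact h4.symm
  have h3 : ∀ σ : Gal k, σ y = -y →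
      Affine.Point.map (σ : AlgebraicClosure k →ₐ[k] _) R = -R := by
    intro σ hσ
    have h4 : (σ * σ) y = y := by rw [AlgEquiv.mul_apply, hσ, _root_.map_neg, hσ, neg_neg]
    have h5 := hcoc.2 σ σ
    rw [hH _ h4, h1 σ hσ] at h5
    exact (neg_eq_of_add_eq_zero_right h5.symm).symm
  -- the odd order
  have hfp : ∃ Q : Pts W k', up W k' (AlgebraicClosure k') Q =
      Affine.Point.map (j : AlgebraicClosure k →ₐ[k] AlgebraicClosure k') R := by
    refine fixed_pt W _ fun σ => ?_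
    set τ : Gal k := (j.trans (σ.restrictScalars k)).trans j.symm with hτ
    have hτy : τ y = y := by
      change j.symm (σ (j y)) = y
      rw [hy, j.apply_symm_apply, σ.commutes]
    have h4 := h2 τ hτy
    conv_rhs => rw [← h4]
    rw [Affine.Point.map_map, Affine.Point.map_map]
    congr 2
    ext z
    change σ (j z) = j (j.symm (σ (j z)))
    rw [j.apply_symm_apply]
  have hR0 : (2 * n + 1) • R = 0 := by
    obtain ⟨Q, hQ⟩ := hfp
    have h4 : Affine.Point.map (j : AlgebraicClosure k →ₐ[k] AlgebraicClosure k')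
        ((2 * n + 1) • R) = 0 := by
      rw [_root_.map_nsmul, ← hQ, ← _root_.map_nsmul, hodd, _root_.map_zero]
    have hinj := Affine.Point.map_injective (W' := W)
      (j : AlgebraicClosure k →ₐ[k] AlgebraicClosure k')
    apply hinj
    rw [h4, _root_.map_zero]
  refine ⟨n • R, fun σ => ?_⟩
  rcases hsgn σ with h | h
  · rw [hH σ h, _root_.map_nsmul, h2 σ h, sub_self]
  · rw [h1 σ h, _root_.map_nsmul, h3 σ h]
    have h5 : n • R + n • R + R = 0 := by
      rw [← hR0, add_smul, two_mul, add_smul, one_smul]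
    rw [smul_neg, eq_sub_iff_add_eq, eq_neg_iff_add_eq_zero, ← h5]
    abel

end Pool.Agent.Lib.MP_1a91b9_ntT.CT
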