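import Pool.Agent.Lib.MP_1a91b9_ntT.CT.Sb
import Pool.Agent.Lib.MP_1a91b9_ntT.CT.Sl
import Pool.Agent.Lib.MP_1a91b9_ntT.CT.Sc
import Pool.Agent.Lib.MP_1a91b9_ntT.CT.Sd
import Pool.Agent.Lib.MP_1a91b9_ntT.S9.Fin

/-!
# JOB Se: the 2-primary part of the Tate-Shafarevich group of a twist; the points

PROOF. (`card_pts`) `Pts W N' ≃+ Pts (E N') N'` by `tr hC N'`, and `Pts (E N') N'` is `(E N').toAffine.Point` up to `map_id`
(`odd_points hG` : finite of odd order; `Affine.baseChange (E N') N' = E N'`). `W(N) → Pts W N'` (`Affine.Point.map`, injective: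
`Affine.Point.map_injective`) is an injective hom: the order divides (`Subgroup.card_dvd_of_injective`/`AddSubgroup...`), so it is odd.
(`odd_exp`) `(2 n + 1) • R = 0` with `2 n + 1 = Nat.card`.
(`sha_sub`) `x ∈ ShaTwo W` is the class of `c ∈ shaCoc W` with `2 ^ m • c ∈ cob W` (see `shaTwo_trivial` in S9/MC.lean). Choose
`j : AlgebraicClosure N ≃ₐ[N] AlgebraicClosure N'` (`IsAlgClosure.equiv` with `IsAlgClosure.ofAlgebraic`/`IsAlgClosure N (AlgebraicClosure N')`).
`c' = res hC j c`: `c' ∈ coc (E N')` (`res_coc`), `2 ^ m • c' ∈ cob (E N')` (`res_nsmul`, `res_cob`), and for a place `w` of `N'`: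
`c ∈ trivOver W N_v`, `v = below N w`, `exists_compMap` gives `φ : N_v →+* N'_w`, `Algebra` structures as in `local_all` (S9/MC.lean), and
`res_triv`. `pow_class` for `N'`: `c' ∈ cob (E N')`. `cob_res` and `descend` (`odd_exp`): `c ∈ cob W`.
-/

set_option autoImplicit false

namespace Pool.Agent.Lib.MP_1a91b9_ntT.CT

open WeierstrassCurve NumberField IsDedekindDomain
open Pool.Agent.Lib.MP_1a91b9_ntT.S9 Pool.Agent.Lib.MP_1a91b9_ntT.S5
open scoped Classical

universe u

variable {N N' : Type u} [Field N] [NumberField N] [Field N'] [NumberField N'] [Algebra N N']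

private theorem se_base {F : Type*} [Field F] (W : WeierstrassCurve F) :
    Affine.baseChange W F = W.toAffine := by
  show W.map (algebraMap F F) = W
  rw [Algebra.algebraMap_self]
  exact W.map_id

private theorem se_pts (hG : Good N') (W : WeierstrassCurve N) (C : VariableChange N')
    (hC : C • W.baseChange N' = E N') : Finite (Pts W N') ∧ Odd (Nat.card (Pts W N')) := by
  have h1 : Finite (Pts (E N') N') ∧ Odd (Nat.card (Pts (E N') N')) := by
    have h2 : ∀ V : Affine N', V = (E N').toAffine → Finite V.Point ∧ Odd (Nat.card V.Point) := by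
      rintro _ rfl
      exact odd_points hG
    exact h2 _ (se_base (E N'))
  have h3 : Finite (Pts (E N') N') := h1.1
  refine ⟨Finite.of_equiv _ (tr hC N').toEquiv, ?_⟩
  rw [← Nat.card_congr (tr hC N').toEquiv]
  exact h1.2

theorem card_pts (hG : Good N') (W : WeierstrassCurve N) (C : VariableChange N')
    (hC : C • W.baseChange N' = E N') :
    Finite W.toAffine.Point ∧ Odd (Nat.card W.toAffine.Point) := by
  obtain ⟨h4, h5⟩ := se_pts hG W C hC
  have h6 : Function.Injective (Affine.Point.map (W' := W) (Algebra.ofId N N')) :=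
    Affine.Point.map_injective _
  have h7 : Finite (Pts W N) := Finite.of_injective _ h6
  have h8 : Nat.card (Pts W N) ∣ Nat.card (Pts W N') := AddSubgroup.card_dvd_of_injective _ h6
  have h9 : Odd (Nat.card (Pts W N)) := Odd.of_dvd_nat h5 h8
  have h10 : ∀ V : Affine N, V = Affine.baseChange W N →
      Finite V.Point ∧ Odd (Nat.card V.Point) := by
    rintro _ rfl
    exact ⟨h7, h9⟩
  exact h10 _ (se_base W).symm

theorem odd_exp (hG : Good N') (W : WeierstrassCurve N) (C : VariableChange N')
    (hC : C • W.baseChange N' = E N') : ∃ n : ℕ, ∀ R : Pts W N', (2 * n + 1) • R = 0 := by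
  obtain ⟨h4, n, hn⟩ := se_pts hG W C hC
  refine ⟨n, fun R => ?_⟩
  rw [← hn]
  exact card_nsmul_eq_zero'

theorem sha_sub (hG : Good N') (x : N') (d : N) (hx : x ^ 2 = algebraMap N N' d)
    (hgen : ∀ z : N', ∃ a b : N, z = algebraMap N N' a + algebraMap N N' b * x)
    (W : WeierstrassCurve N) (C : VariableChange N') (hC : C • W.baseChange N' = E N') :
    Subsingleton (ShaTwo W) := by
  obtain ⟨m, hodd⟩ := odd_exp hG W C hC
  have hfin : FiniteDimensional N N' := Module.Finite.of_restrictScalars_finite ℚ N N'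
  have halg : Algebra.IsAlgebraic N N' := Algebra.IsAlgebraic.of_finite N N'
  have hcl : IsAlgClosure N (AlgebraicClosure N') :=
    IsAlgClosure.ofAlgebraic N N' (AlgebraicClosure N')
  obtain ⟨j⟩ : Nonempty (AlgebraicClosure N ≃ₐ[N] AlgebraicClosure N') :=
    ⟨IsAlgClosure.equiv N (AlgebraicClosure N) (AlgebraicClosure N')⟩
  have key : ∀ n : ℕ, ∀ y : shaCoc W ⧸ (cob W).addSubgroupOf (shaCoc W),
      2 ^ n • y = 0 → y = 0 := by
    intro n y hy
    obtain ⟨⟨c, hc⟩, rfl⟩ := QuotientAddGroup.mk_surjective y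
    rw [← QuotientAddGroup.mk_nsmul, QuotientAddGroup.eq_zero_iff,
      AddSubgroup.mem_addSubgroupOf] at hy
    rw [QuotientAddGroup.eq_zero_iff, AddSubgroup.mem_addSubgroupOf]
    have hy' : 2 ^ n • c ∈ cob W := hy
    have hcc : c ∈ coc W := hc.1.1
    have h1 : res hC j c ∈ coc (E N') := res_coc hC j c hcc
    have h2 : 2 ^ n • res hC j c ∈ cob (E N') := by
      rw [← res_nsmul]
      exact res_cob hC j _ hy'
    have h3 : ∀ w : HeightOneSpectrum (𝓞 N'),
        res hC j c ∈ trivOver (E N') (w.adicCompletion N') := by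
      intro w
      obtain ⟨φ, hφ, -⟩ := exists_compMap N w
      have : CharZero ((below N w).adicCompletion N) :=
        charZero_of_injective_algebraMap (algebraMap N ((below N w).adicCompletion N)).injective
      let _ : Algebra ((below N w).adicCompletion N) (w.adicCompletion N') := φ.toAlgebra
      let _ : Algebra N (w.adicCompletion N') :=
        ((algebraMap N' (w.adicCompletion N')).comp (algebraMap N N')).toAlgebra
      have : IsScalarTower N ((below N w).adicCompletion N) (w.adicCompletion N') :=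
        IsScalarTower.of_algebraMap_eq fun x => (hφ x).symm
      have : IsScalarTower N N' (w.adicCompletion N') :=
        IsScalarTower.of_algebraMap_eq fun x => rfl
      have hcv : c ∈ trivOver W ((below N w).adicCompletion N) := by
        have h : c ∈ ⨅ v : HeightOneSpectrum (𝓞 N), trivOver W (v.adicCompletion N) := hc.1.2
        exact AddSubgroup.mem_iInf.1 h (below N w)
      exact res_triv hC j c hcv
    have h4 := pow_class hG (res hC j c) h1 h3 n h2
    obtain ⟨P, hP⟩ := cob_res hC j c h4
    exact descend x d hx hgen W j m hodd c hcc P hP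
  have h1 : ∀ x : AddCommGroup.primaryComponent (Sha W) 2, x = 0 := by
    rintro ⟨x, n, hn⟩
    exact Subtype.ext (key n x hn)
  exact ⟨fun x y => (h1 x).trans (h1 y).symm⟩

end Pool.Agent.Lib.MP_1a91b9_ntT.CT
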