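import Pool.Agent.Lib.MP_1a91b9_ntT.CT.A2
import Pool.Agent.Lib.MP_1a91b9_ntT.CT.Lg2
import Pool.Agent.Lib.MP_1a91b9_ntT.CT.Lf1
import Pool.Agent.Lib.MP_1a91b9_ntT.CT.Se
import Pool.Agent.Lib.MP_1a91b9_ntT.CT.Red
import Pool.Agent.Lib.MP_1a91b9_ntT.Rq.TwoPartQ

/-!
# The 2-part of the formula for all curves which become isomorphic to `E`: assembly
-/

set_option autoImplicit false

namespace Pool.Agent.Lib.MP_1a91b9_ntT.CT

open WeierstrassCurve NumberField IsDedekindDomain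
open Pool.Agent.Lib.MP_1a91b9_ntT.S9 Pool.Agent.Lib.MP_1a91b9_ntT.S5
open Pool.Agent.Lib.MP_1a91b9_ntT.TW Pool.Agent.Lib.MP_1a91b9_ntT.S8
open scoped Classical

universe u

theorem prod_tw_pos {N : Type u} [Field N] [NumberField N] (d : N) (hd : d ≠ 0) :
    0 < ∏ v : InfinitePlace N, Per.perAt (tw d) v := by
  have h := norm_pos_iff.2 Om_ne_zero
  have h2 : 0 < |(Algebra.norm ℚ d : ℝ)| := by
    rw [abs_pos]
    exact_mod_cast (Algebra.norm_ne_zero_iff.2 hd)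
  rw [prod_tw d hd]
  positivity

theorem val_rat_odd {A : ValuationSubring ℂ} (hA : Two A) {q : ℚ} (hqn : Odd q.num)
    (hqd : Odd q.den) : A.valuation (q : ℂ) = 1 := by
  have h4 : (q : ℂ) * ((q.den : ℕ) : ℂ) = (q.num : ℂ) := by
    rw [Rat.cast_def, div_mul_cancel₀ _ (by exact_mod_cast q.den_nz)]
  have h5 := congrArg A.valuation h4
  rw [map_mul, val_natCast hA hqd, mul_one, S3.v_odd hA hqn] at h5
  exact h5

theorem assemble {N : Type u} [Field N] [NumberField N] (hG : Good N) (W : WeierstrassCurve N)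
    (D : VariableChange N) (δ : 𝓞 N) (hδ : Adm N δ) (hD : D • W = tw (δ : N))
    (hA : Ana W (δ : N)) (hp : Finite W.toAffine.Point ∧ Odd (Nat.card W.toAffine.Point))
    (hs : Subsingleton (ShaTwo W)) :
    Rq.TwoPartQ W ∧ Nat.card (ShaTwo W) = 1 ∧ (∀ v, Odd (tam W v)) ∧
      Odd (Nat.card W.toAffine.Point) := by
  obtain ⟨hf, hodd⟩ := hp
  have htam : ∀ v, Odd (tam W v) := fun v => tam_tw hδ hD hG.tame v
  have hc : Nat.card (ShaTwo W) = 1 :=
    Nat.card_eq_one_iff_unique.2 ⟨hs, ⟨(0 : AddCommGroup.primaryComponent (Sha W) 2)⟩⟩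
  refine ⟨?_, hc, htam, hodd⟩
  obtain ⟨g, q, hg, hg2, hg1, hqn, hqd, hq⟩ := hA
  obtain ⟨κ, hκ, hκ2⟩ := finprod_norm hδ hD
  have hδ0 : (δ : N) ≠ 0 := by
    intro h
    exact adm_ne_zero hδ (RingOfIntegers.ext h)
  have hTo : Odd (∏ᶠ v : HeightOneSpectrum (𝓞 N), tam W v) :=
    finprod_induction (p := fun n : ℕ => Odd n) odd_one (fun _ _ => Odd.mul) htam
  obtain ⟨T, hT⟩ : ∃ T : ℕ, T = ∏ᶠ v : HeightOneSpectrum (𝓞 N), tam W v := ⟨_, rfl⟩
  obtain ⟨c, hcd⟩ : ∃ c : ℕ, c = Nat.card W.toAffine.Point := ⟨_, rfl⟩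
  rw [← hT] at hTo
  rw [← hcd] at hodd
  have hT0 : (T : ℂ) ≠ 0 := Nat.cast_ne_zero.2 hTo.pos.ne'
  have hC0 : (c : ℂ) ≠ 0 := Nat.cast_ne_zero.2 hodd.pos.ne'
  have hκ0 : (κ : ℂ) ≠ 0 := by
    obtain ⟨A, hA⟩ := S3.exists_A
    intro h0
    have h1 := hκ A hA
    rw [h0, map_zero] at h1
    exact zero_ne_one h1
  -- the period
  obtain ⟨P, hPd⟩ : ∃ P : ℝ, P = 2 ^ Module.finrank ℚ N *
      ∏ v : InfinitePlace N, Per.perAt (tw (δ : N)) v := ⟨_, rfl⟩
  have hP0 : P ≠ 0 := by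
    rw [hPd]
    exact mul_ne_zero (pow_ne_zero _ two_ne_zero) (prod_tw_pos _ hδ0).ne'
  have hPC : (P : ℂ) ≠ 0 := by exact_mod_cast hP0
  have hper : period W = (κ : ℝ) * P := by
    have h1 := prod_vc W D
    rw [hD] at h1
    rw [period, hκ2, hPd, h1]
    ring
  have hval : ∀ A : ValuationSubring ℂ, Two A →
      A.valuation (((q * (c : ℚ) ^ 2 / ((T : ℚ) * κ) : ℚ)) : ℂ) = 1 := by
    intro A hA
    push_cast
    rw [map_div₀, map_mul, map_mul, map_pow, val_rat_odd hA hqn hqd, hκ A hA,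
      val_natCast hA hodd, val_natCast hA hTo]
    simp
  obtain ⟨o1, o2⟩ := Rq.odd_of_unit hval
  refine ⟨g, _, hg, hg2, hg1, hf, Finite.of_subsingleton, o1, o2, ?_⟩
  rw [← hPd] at hq
  rw [hq, hper, hc, ← hT, ← hcd]
  push_cast
  field_simp

theorem adm_one {N : Type u} [Field N] [NumberField N] : Adm N (1 : 𝓞 N) where
  sq := ⟨1, 0, by ring⟩
  odd := isCoprime_one_left
  bad := by
    rintro v - ⟨k, hk, -⟩
    exfalso
    have h1 : (1 : 𝓞 N) ∈ v.asIdeal := Ideal.pow_le_self (by omega) hk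
    exact v.isPrime.ne_top ((Ideal.eq_top_iff_one _).2 h1)

/-- **Theorem C for the twists.** -/
theorem thmC (N L M : Type u) [Field N] [NumberField N] [Field L] [NumberField L]
    [Field M] [NumberField M] [Algebra N L] [Algebra L M] [IsGalois ℚ M] (n : ℕ)
    (hM : Module.finrank ℚ M = 2 ^ n) (hL : RamCond L) (W : WeierstrassCurve N)
    (C : WeierstrassCurve.VariableChange L) (hC : C • (W.baseChange L) = E L) :
    Rq.TwoPartQ W ∧ Nat.card (ShaTwo W) = 1 ∧ (∀ v, Odd (tam W v)) ∧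
      Odd (Nat.card W.toAffine.Point) := by
  obtain ⟨hT, hd, ⟨hloc, ⟨D, hD⟩, C', hC'⟩ |
    ⟨N', _, _, _, δ, x', D, C', hd', hδ, hx', hn, hgen, hW, hD, hC'⟩⟩ :=
    reductionD N L M n hM hL W C hC
  · have hG := tower_good hT
    have h1 : ((1 : 𝓞 N) : N) = 1 := rfl
    refine assemble hG W D 1 adm_one (by rw [h1]; exact hD) (ana_one N hT hd W hloc)
      (card_pts hG W C' hC') ?_
    exact sha_sub hG (1 : N) 1 (by rw [one_pow, map_one])
      (fun z => ⟨z, 0, by simp⟩) W C' hC'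
  · have hG := tower_good hT
    have hT' : Tower N' := Tower.step N N' δ hδ x' hx' hn hgen hT
    have hG' := tower_good hT'
    exact assemble hG W D δ hδ hD (ana_twist N N' hT hd hd' δ hδ x' hx' hn hgen W hW)
      (card_pts hG' W C' hC') (sha_sub hG' x' (δ : N) hx' hgen W C' hC')

end Pool.Agent.Lib.MP_1a91b9_ntT.CT
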