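import Pool.Agent.Lib.MP_1a91b9_ntT.CT.La
import Pool.Agent.Lib.MP_1a91b9_ntT.CT.Lb

/-!
# JOB Lc: the places where the twist is ramified and `2` is not a cube

`k = N_v`, `v ∤ 6`, `δ ∈ k` of odd order, `2` is not a cube modulo `v`, `M = C • tw δ` minimal.
PROOF. `u = C.u`, `I` from `min_int`; `λ = 36 δ u⁻²`.
(1) `v(λ) = exp (-1)`: `Δ M = u⁻¹^12 Δ(tw δ) = -(2^12 3^3) (δ u⁻²)^6` (`tw_Δ`), value `v(λ)^6`. It is `≤ 1` (integral).
`v(δ) = exp (2 k + 1)`: take `p : k` with `v(p) = exp (-(k+1))` (`HeightOneSpectrum.valuedAdicCompletion_surjective N v _`),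
`δ' = δ p²` has value `exp (-1)`; `tw δ'` is integral (`16 δ'^3` in the valuation ring), and `C₁ • tw δ = tw δ'` for the explicit
`C₁ = ⟨p⁻¹, 0, 0, 0⟩` (see `exists_tw_scale`), `(C * C₁⁻¹) • tw δ' = M`. `min_le`: `exp (-6) = v(Δ(tw δ')) ≤ v(λ)^6`.
As `v(λ) = v(δ) v(u)⁻²` is `exp` of an odd integer `m`, `-6 ≤ 6 m ≤ 0`: `m = -1`.
(2) For a point `(x, y)` of `M` put `X = 36 x + 3 b₂`, `Y = 108 (2 y + a₁ x + a₃)`. Then `Y² = X³ - 27 c₄ X - 54 c₆`
(identity, use the equation: `linear_combination (coefficient) * he` after unfolding `b₂ b₄ b₆ c₄ c₆`), `c₄ M = 0`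
(`variableChange_c₄`, `tw_c₄`), `-54 c₆ M = 16 λ³` (`variableChange_c₆`, `c₆ (tw δ) = -864 * 16 * δ³`), so `Y² = X³ + 16 λ³`.
(3) Let `(x, y)` be a point with `v(x) ≤ 1`; claim `v(2 y + a₁ x + a₃) = 1`. Otherwise (it is integral, `int_point`)
`v(Y) ≤ exp (-1)`. (`v` of `2` and `3` is `1`, so `v(36) = v(108) = 1`.) `v(X³) = v(Y² - 16 λ³) ≤ exp (-2)`, so `v(X) ≤ exp (-1)`,
`t = X/λ` is integral, and `Y² = λ³ (t³ + 16)`. If `v(t³ + 16) = 1` then `v(Y)² = exp (-3)`, impossible (`Y = 0` too).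
So `v(t³ + 16) < 1`; then with `s = -t/2` (integral) `s³ - 2 = -(t³ + 16)/8` has value `< 1`, against `hc`.
(4) Every point is in the generating set: `ns M = ⊤` (as in `tam_good`, S9/QB.lean).
-/

set_option autoImplicit false

namespace Pool.Agent.Lib.MP_1a91b9_ntT.CT

open NumberField IsDedekindDomain WeierstrassCurve WithZero Pool.Agent.Lib.MP_1a91b9_ntT.S9
open Pool.Agent.Lib.MP_1a91b9_ntT.TW
open scoped Classical

variable {N : Type*} [Field N] [NumberField N]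

private theorem Lc_val {v : HeightOneSpectrum (𝓞 N)} {n : ℕ} [n.AtLeastTwo]
    (h : v.valuation N (OfNat.ofNat n) = 1) :
    Valued.v (OfNat.ofNat n : v.adicCompletion N) = 1 := by
  have h1 := MP_1a91b9_nt.valued_algebraMap v (OfNat.ofNat n : N)
  rw [map_ofNat] at h1
  rw [h1, h]

private theorem Lc_exp {v : HeightOneSpectrum (𝓞 N)} {x : v.adicCompletion N} (hx : x ≠ 0) :
    ∃ m : ℤ, Valued.v x = exp m :=
  ⟨log (Valued.v x), (exp_log ((Valuation.ne_zero_iff _).2 hx)).symm⟩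

private theorem Lc_lam {v : HeightOneSpectrum (𝓞 N)} (h2 : v.valuation N 2 = 1)
    (h3 : v.valuation N 3 = 1)
    (δ : v.adicCompletion N) (k : ℤ) (hδ : Valued.v δ = exp (2 * k + 1))
    (C : VariableChange (v.adicCompletion N))
    (hm : IsMinimal (v.adicCompletionIntegers N) (C • tw δ)) :
    Valued.v (δ * ((C.u⁻¹ : (v.adicCompletion N)ˣ) : v.adicCompletion N) ^ 2) = exp (-1) := by
  have hV2 : Valued.v (2 : v.adicCompletion N) = 1 := Lc_val h2
  have hV3 : Valued.v (3 : v.adicCompletion N) = 1 := Lc_val h3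
  obtain ⟨I, hI⟩ := min_int _ hm
  obtain ⟨j, hj⟩ := Lc_exp (C.u⁻¹ : (v.adicCompletion N)ˣ).ne_zero
  -- the scaled model
  obtain ⟨p, hp⟩ := HeightOneSpectrum.valuedAdicCompletion_surjective N v (exp (-(k + 1)))
  have hp0 : p ≠ 0 := by
    rintro rfl
    rw [map_zero] at hp
    exact exp_ne_zero hp.symm
  have hδ' : Valued.v (δ * p ^ 2) = exp (-1) := by
    rw [map_mul, map_pow, hp, hδ, ← exp_nsmul, ← exp_add, exp_inj]
    simp only [nsmul_eq_mul]
    push_cast
    ring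
  obtain ⟨C₁, hC₁⟩ := exists_tw_scale δ p hp0
  have hle : Valued.v (δ * p ^ 2) ≤ 1 := by
    rw [hδ', ← exp_zero, exp_le_exp]
    norm_num
  have hint : tw (δ * p ^ 2) = (tw (⟨δ * p ^ 2, hle⟩ : v.adicCompletionIntegers N)).baseChange
      (v.adicCompletion N) := by
    rw [WeierstrassCurve.baseChange, tw_map]
    rfl
  have hM : (C * C₁⁻¹) • tw (δ * p ^ 2) = C • tw δ := by
    rw [← hC₁, mul_smul, inv_smul_smul]
  have h5 := min_le (tw (δ * p ^ 2)) _ hint (C * C₁⁻¹) (by rw [hM]; exact hm)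
  rw [hM] at h5
  have hΔ : ∀ d : v.adicCompletion N, Valued.v (tw d).Δ = Valued.v d ^ 6 := by
    intro d
    rw [tw_Δ, Valuation.map_neg, map_mul, map_mul, map_pow, map_pow, map_pow, hV2, hV3, one_pow,
      one_pow, one_mul, one_mul]
  have hMΔ : Valued.v (C • tw δ).Δ = exp (6 * (2 * k + 1 + 2 * j)) := by
    rw [variableChange_Δ, map_mul, hΔ, map_pow, hj, hδ, ← exp_nsmul, ← exp_nsmul, ← exp_add,
      exp_inj]
    simp only [nsmul_eq_mul]
    push_cast
    ring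
  have hM1 : Valued.v (C • tw δ).Δ ≤ 1 := by
    rw [hI, WeierstrassCurve.baseChange, WeierstrassCurve.map_Δ]
    exact I.Δ.2
  rw [hΔ, hδ', hMΔ, ← exp_nsmul, exp_le_exp] at h5
  rw [hMΔ, ← exp_zero, exp_le_exp] at hM1
  simp only [nsmul_eq_mul] at h5
  push_cast at h5
  have h6 : 2 * k + 1 + 2 * j = -1 := by omega
  rw [map_mul, map_pow, hj, hδ, ← exp_nsmul, ← exp_add, exp_inj]
  simp only [nsmul_eq_mul]
  push_cast
  linarith

private theorem Lc_le {v : HeightOneSpectrum (𝓞 N)} {x : v.adicCompletion N}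
    (h : Valued.v x < 1) : Valued.v x ≤ exp (-1) := by
  by_cases hx : x = 0
  · rw [hx, map_zero]
    exact zero_le
  · obtain ⟨m, hm⟩ := Lc_exp hx
    rw [hm, ← exp_zero, exp_lt_exp] at h
    rw [hm, exp_le_exp]
    omega

/-- The arithmetic of step (3). -/
private theorem Lc_key {v : HeightOneSpectrum (𝓞 N)} (h2 : v.valuation N 2 = 1)
    (hc : ∀ x : v.adicCompletion N, Valued.v x ≤ 1 → Valued.v (x ^ 3 - 2) = 1)
    (l X Y : v.adicCompletion N) (hl : Valued.v l = exp (-1)) (hY : Valued.v Y < 1)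
    (he : Y ^ 2 = X ^ 3 + 16 * l ^ 3) : False := by
  have hV2 : Valued.v (2 : v.adicCompletion N) = 1 := Lc_val h2
  have hl0 : l ≠ 0 := by
    rintro rfl
    rw [map_zero] at hl
    exact exp_ne_zero hl.symm
  have h20 : (2 : v.adicCompletion N) ≠ 0 := by
    intro h
    rw [h, map_zero] at hV2
    exact zero_ne_one hV2
  have hY1 := Lc_le hY
  have h16 : Valued.v (16 * l ^ 3) = exp (-3) := by
    rw [show (16 : v.adicCompletion N) = 2 ^ 4 by norm_num, map_mul, map_pow, map_pow, hV2, hl,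
      one_pow, one_mul, ← exp_nsmul, exp_inj]
    norm_num
  have hX3 : Valued.v (X ^ 3) ≤ exp (-2) := by
    have h1 : X ^ 3 = Y ^ 2 - 16 * l ^ 3 := by rw [he]; ring
    rw [h1]
    refine (Valuation.map_sub _ _ _).trans (max_le ?_ ?_)
    · rw [map_pow]
      calc Valued.v Y ^ 2 ≤ exp (-1) ^ 2 := pow_le_pow_left₀ zero_le hY1 2
        _ = exp (-2) := by rw [← exp_nsmul]; norm_num
    · rw [h16, exp_le_exp]
      norm_num
  have hX : Valued.v X ≤ exp (-1) := by
    by_cases hx : X = 0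
    · rw [hx, map_zero]
      exact zero_le
    · obtain ⟨m, hm⟩ := Lc_exp hx
      rw [map_pow, hm, ← exp_nsmul, exp_le_exp] at hX3
      simp only [nsmul_eq_mul] at hX3
      push_cast at hX3
      rw [hm, exp_le_exp]
      omega
  have hs : Valued.v (-(X / (2 * l))) ≤ 1 := by
    rw [Valuation.map_neg, map_div₀, map_mul, hV2, one_mul, hl]
    exact div_le_one_of_le₀ hX zero_le
  have h3 := hc _ hs
  have h4 : Y ^ 2 = -(8 * l ^ 3 * ((-(X / (2 * l))) ^ 3 - 2)) := by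
    rw [he]
    field_simp
    ring
  have h5 : Valued.v Y ^ 2 = exp (-3) := by
    rw [← map_pow, h4, Valuation.map_neg, map_mul, h3, mul_one,
      show (8 : v.adicCompletion N) = 2 ^ 3 by norm_num, map_mul, map_pow, map_pow, hV2, hl,
      one_pow, one_mul, ← exp_nsmul, exp_inj]
    norm_num
  by_cases hY0 : Y = 0
  · rw [hY0, map_zero, zero_pow two_ne_zero] at h5
    exact exp_ne_zero h5.symm
  · obtain ⟨m, hm⟩ := Lc_exp hY0
    rw [hm, ← exp_nsmul, exp_inj] at h5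
    simp only [nsmul_eq_mul] at h5
    push_cast at h5
    omega

theorem ns_bad {v : HeightOneSpectrum (𝓞 N)} (h2 : v.valuation N 2 = 1)
    (h3 : v.valuation N 3 = 1)
    (hc : ∀ x : v.adicCompletion N, Valued.v x ≤ 1 → Valued.v (x ^ 3 - 2) = 1)
    (δ : v.adicCompletion N) (k : ℤ) (hδ : Valued.v δ = exp (2 * k + 1))
    (C : VariableChange (v.adicCompletion N))
    (hm : IsMinimal (v.adicCompletionIntegers N) (C • tw δ)) : ns (C • tw δ) = ⊤ := by
  have hV2 : Valued.v (2 : v.adicCompletion N) = 1 := Lc_val h2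
  have hV3 : Valued.v (3 : v.adicCompletion N) = 1 := Lc_val h3
  have hlam := Lc_lam h2 h3 δ k hδ C hm
  obtain ⟨I, hI⟩ := min_int _ hm
  have hc4 : (C • tw δ).c₄ = 0 := by
    rw [variableChange_c₄, tw_c₄, mul_zero]
  have hc6 : (C • tw δ).c₆ =
      -(13824 * (δ * ((C.u⁻¹ : (v.adicCompletion N)ˣ) : v.adicCompletion N) ^ 2) ^ 3) := by
    rw [variableChange_c₆]
    simp only [tw, WeierstrassCurve.c₆, WeierstrassCurve.b₂, WeierstrassCurve.b₄,
      WeierstrassCurve.b₆]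
    ring
  generalize ((C.u⁻¹ : (v.adicCompletion N)ˣ) : v.adicCompletion N) = w at hlam hc6
  generalize C • tw δ = M at hI hc4 hc6 ⊢
  have ha1 : Valued.v M.a₁ ≤ 1 := by rw [hI]; exact I.a₁.2
  have ha3 : Valued.v M.a₃ ≤ 1 := by rw [hI]; exact I.a₃.2
  rw [eq_top_iff]
  rintro P -
  apply AddSubgroup.subset_closure
  rcases P with _ | ⟨x, y, h⟩
  · exact Or.inl rfl
  · refine Or.inr ⟨x, y, h, rfl, ?_⟩
    by_cases hx : 1 < Valued.v x
    · exact Or.inl hx
    refine Or.inr (Or.inl ?_)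
    have hx1 : Valued.v x ≤ 1 := not_lt.1 hx
    have hy1 : Valued.v y ≤ 1 := int_point M I hI x y h.1 hx1
    have hT1 : Valued.v (2 * y + M.a₁ * x + M.a₃) ≤ 1 := by
      refine (Valuation.map_add _ _ _).trans (max_le ?_ ha3)
      refine (Valuation.map_add _ _ _).trans (max_le ?_ ?_)
      · rw [map_mul, hV2, one_mul]; exact hy1
      · rw [map_mul]; exact mul_le_one' ha1 hx1
    refine le_antisymm hT1 (not_lt.1 fun hT => ?_)
    have he := h.1
    rw [WeierstrassCurve.Affine.equation_iff'] at he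
    refine Lc_key h2 hc (36 * (δ * w ^ 2)) (36 * x + 3 * M.b₂) (108 * (2 * y + M.a₁ * x + M.a₃))
      ?_ ?_ ?_
    · rw [show (36 : v.adicCompletion N) = 2 ^ 2 * 3 ^ 2 by norm_num, map_mul, hlam, map_mul,
        map_pow, map_pow, hV2, hV3, one_pow, one_mul, one_mul]
    · rw [show (108 : v.adicCompletion N) = 2 ^ 2 * 3 ^ 3 by norm_num, map_mul, map_mul,
        map_pow, map_pow, hV2, hV3, one_pow, one_pow, one_mul, one_mul]
      exact hT
    · have h7 : (108 * (2 * y + M.a₁ * x + M.a₃)) ^ 2 =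
          (36 * x + 3 * M.b₂) ^ 3 - 27 * M.c₄ * (36 * x + 3 * M.b₂) - 54 * M.c₆ := by
        simp only [WeierstrassCurve.c₄, WeierstrassCurve.c₆, WeierstrassCurve.b₂,
          WeierstrassCurve.b₄, WeierstrassCurve.b₆]
        linear_combination 46656 * he
      rw [h7, hc4, hc6]
      ring

end Pool.Agent.Lib.MP_1a91b9_ntT.CT
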