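import Pool.Agent.Lib.MP_1a91b9_ntT.S9.QC
import Pool.Agent.Lib.MP_1a91b9_ntT.S9.QD

/-!
# JOB Le1: the quartic equation at the tame places above 3

`γ = 4 X³ + 1`. PROOF (compare `qe_caseA`, `qe_caseB` of `S9/QE.lean`, which are the case `y₀² = 16 γ`). `ρ = v(3)`, `v(2) = 1`
(`qe_two`), `γ ≠ 0` by `tame_bound` (`ρ ≤ v(γ)` if `v(X) ≤ 1`) or `v(γ) = v(X)³` (if `v(X) > 1`).
Case `v(X) ≤ 1`: `ρ ≤ v(γ) ≤ 1`. Put `t₀ = -3 X²/(4 γ)`, `t = t₀ + m`. Then
`γ² t⁴ - 6 X γ t² - 4 γ t - 3 X² = γ (A + B m + C m² + D m³ + F m⁴)`, with `A = γ t₀⁴ - 6 X t₀²`, `B = 4 γ t₀³ - 12 X t₀ - 4`,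
`C = 6 γ t₀² - 6 X`, `D = 4 γ t₀`, `F = γ` (use `4 γ t₀ = -3 X²`). `v(t₀) v(γ) ≤ ρ`, so `v(t₀) ≤ 1` and
`v(γ t₀⁴) ≤ ρ v(t₀)³ ≤ ρ < 1`, `v(6 X t₀²) ≤ ρ < 1`: `v(A) < 1`; `v(4 γ t₀³) ≤ ρ < 1`, `v(12 X t₀) ≤ ρ < 1`, `v(4) = 1`: `v(B) = 1`;
`v(C), v(D), v(F) ≤ 1`. `hensel_small`.
Case `v(X) > 1`: `w = X³/γ`, `v(w) = 1`; `hensel_small` with `A = -3 w²`, `B = -4 w`, `C = -6 w`, `D = 0`, `F = 1` gives `m`; `t = m/X`:
`X⁴ (γ² t⁴ - 6 X γ t² - 4 γ t - 3 X²) = γ² (m⁴ - 6 w m² - 4 w m - 3 w²)`.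
`bound_y`: `v(4 X³ + 1) ≥ ρ` in both cases.
-/

set_option autoImplicit false

namespace Pool.Agent.Lib.MP_1a91b9_ntT.CT

open NumberField IsDedekindDomain WithZero Pool.Agent.Lib.MP_1a91b9_ntT.S9

variable {N : Type*} [Field N] [NumberField N]

private theorem le1_three (v : HeightOneSpectrum (𝓞 N)) :
    Valued.v (3 : v.adicCompletion N) = v.valuation N 3 := by
  rw [← Pool.Agent.Lib.MP_1a91b9_nt.valued_algebraMap v 3, map_ofNat (algebraMap N _) 3]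

private theorem le1_ne (v : HeightOneSpectrum (𝓞 N)) (n : ℕ) (hn : n ≠ 0) :
    (n : v.adicCompletion N) ≠ 0 := by
  have h1 : (n : N) ≠ 0 := by exact_mod_cast hn
  rw [← map_natCast (algebraMap N (v.adicCompletion N)) n]
  exact (map_ne_zero _).mpr h1

private theorem le1_two {v : HeightOneSpectrum (𝓞 N)}
    (hρ : Valued.v (3 : v.adicCompletion N) < 1) : Valued.v (2 : v.adicCompletion N) = 1 := by
  have h0 : Valued.v (3 : v.adicCompletion N) < Valued.v (1 : v.adicCompletion N) := by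
    rw [Valuation.map_one]
    exact hρ
  have h1 : Valued.v ((3 : v.adicCompletion N) + 1) = Valued.v (1 : v.adicCompletion N) :=
    Valuation.map_add_eq_of_lt_right _ h0
  rw [map_one, show (3 : v.adicCompletion N) + 1 = 2 ^ 2 by norm_num, map_pow] at h1
  exact (pow_eq_one_iff_of_nonneg zero_le two_ne_zero).mp h1

private theorem le1_big {v : HeightOneSpectrum (𝓞 N)}
    (hv4 : Valued.v (4 : v.adicCompletion N) = 1) (X : v.adicCompletion N)
    (hx : 1 < Valued.v X) : Valued.v (4 * X ^ 3 + 1) = Valued.v X ^ 3 := by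
  have hX : (1 : ℤᵐ⁰) < Valued.v X ^ 3 := one_lt_pow₀ hx three_ne_zero
  rw [Valuation.map_add_eq_of_lt_left, map_mul, hv4, one_mul, map_pow]
  rw [map_mul, hv4, one_mul, map_pow, Valuation.map_one]
  exact hX

private theorem le1_caseA (v : HeightOneSpectrum (𝓞 N))
    (hρ : Valued.v (3 : v.adicCompletion N) < 1) (hρ0 : Valued.v (3 : v.adicCompletion N) ≠ 0)
    (hv4 : Valued.v (4 : v.adicCompletion N) = 1)
    (hv6 : Valued.v (6 : v.adicCompletion N) = Valued.v (3 : v.adicCompletion N))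
    (X c : v.adicCompletion N) (hx : Valued.v X ≤ 1)
    (hb : Valued.v (3 : v.adicCompletion N) ≤ Valued.v c) (hc1 : Valued.v c ≤ 1) :
    ∃ t, c ^ 2 * t ^ 4 - 6 * X * c * t ^ 2 - 4 * c * t - 3 * X ^ 2 = 0 := by
  have hγ0 : Valued.v c ≠ 0 := by
    intro h0
    rw [h0] at hb
    exact hρ0 (le_zero_iff.mp hb)
  have hc0 : c ≠ 0 := (Valuation.ne_zero_iff _).mp hγ0
  have h40 : (4 : v.adicCompletion N) ≠ 0 := by
    have := le1_ne (N := N) v 4 (by norm_num)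
    exact_mod_cast this
  obtain ⟨l₀, hl₀⟩ : ∃ l₀, l₀ = -3 * X ^ 2 / (4 * c) := ⟨_, rfl⟩
  have hl : 4 * c * l₀ = - (3 * X ^ 2) := by
    rw [hl₀]
    field_simp
  have ha : Valued.v c * Valued.v l₀ ≤ Valued.v (3 : v.adicCompletion N) := by
    have h1 := congrArg Valued.v hl
    rw [map_mul, map_mul, hv4, one_mul, Valuation.map_neg, map_mul, map_pow] at h1
    rw [h1]
    exact mul_le_of_le_one_right' (pow_le_one' hx 2)
  have ha1 : Valued.v l₀ ≤ 1 := by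
    have h1 : Valued.v c * Valued.v l₀ ≤ Valued.v c * 1 := by
      rw [mul_one]
      exact ha.trans hb
    exact (mul_le_mul_iff_right₀ (zero_lt_iff.mpr hγ0)).mp h1
  have hx12 : Valued.v (12 * X * l₀) ≤ Valued.v (3 : v.adicCompletion N) := by
    rw [show (12 : v.adicCompletion N) * X * l₀ = 4 * (3 * (X * l₀)) by ring, map_mul, hv4, one_mul,
      map_mul, map_mul]
    exact mul_le_of_le_one_right' (mul_le_one' hx ha1)
  have hc3 : ∀ n : ℕ, Valued.v (c * l₀ ^ (n + 1)) ≤ Valued.v (3 : v.adicCompletion N) := by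
    intro n
    rw [pow_succ', ← mul_assoc, map_mul, map_mul, map_pow]
    exact (mul_le_mul' ha (pow_le_one' ha1 n)).trans (mul_one _).le
  have hA : Valued.v (c * l₀ ^ 4 - 6 * X * l₀ ^ 2) < 1 := by
    refine ((Valuation.map_sub _ _ _).trans (max_le (hc3 3) ?_)).trans_lt hρ
    rw [map_mul, map_mul, hv6, map_pow, mul_assoc]
    exact mul_le_of_le_one_right' (mul_le_one' hx (pow_le_one' ha1 2))
  have hB : Valued.v (4 * c * l₀ ^ 3 - 12 * X * l₀ - 4) = 1 := by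
    have h1 : Valued.v (4 * c * l₀ ^ 3 - 12 * X * l₀) < Valued.v (4 : v.adicCompletion N) := by
      rw [hv4]
      refine ((Valuation.map_sub _ _ _).trans (max_le ?_ hx12)).trans_lt hρ
      rw [mul_assoc, map_mul, hv4, one_mul]
      exact hc3 2
    rw [Valuation.map_sub_eq_of_lt_right _ h1, hv4]
  have hC : Valued.v (6 * c * l₀ ^ 2 - 6 * X) ≤ 1 := by
    refine (Valuation.map_sub _ _ _).trans (max_le ?_ ?_)
    · rw [mul_assoc, map_mul, hv6]
      exact mul_le_one' hρ.le ((hc3 1).trans hρ.le)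
    · rw [map_mul, hv6]
      exact mul_le_one' hρ.le hx
  have hD : Valued.v (4 * c * l₀) ≤ 1 := by
    rw [mul_assoc, map_mul, map_mul, hv4, one_mul]
    exact ha.trans hρ.le
  obtain ⟨m, _, hm⟩ := hensel_small v _ _ _ _ _ hA hB hC hD hc1
  refine ⟨l₀ + m, ?_⟩
  have h5 : c ^ 2 * (l₀ + m) ^ 4 - 6 * X * c * (l₀ + m) ^ 2 - 4 * c * (l₀ + m) - 3 * X ^ 2 =
      c * (c * l₀ ^ 4 - 6 * X * l₀ ^ 2 + (4 * c * l₀ ^ 3 - 12 * X * l₀ - 4) * m +
        (6 * c * l₀ ^ 2 - 6 * X) * m ^ 2 + 4 * c * l₀ * m ^ 3 + c * m ^ 4) -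
        (4 * c * l₀ + 3 * X ^ 2) := by
    ring
  rw [h5, hm, hl]
  ring

private theorem le1_caseB (v : HeightOneSpectrum (𝓞 N))
    (hρ : Valued.v (3 : v.adicCompletion N) < 1)
    (hv4 : Valued.v (4 : v.adicCompletion N) = 1)
    (hv6 : Valued.v (6 : v.adicCompletion N) = Valued.v (3 : v.adicCompletion N))
    (X c : v.adicCompletion N) (hx : 1 < Valued.v X) (hγ : Valued.v c = Valued.v X ^ 3) :
    ∃ t, c ^ 2 * t ^ 4 - 6 * X * c * t ^ 2 - 4 * c * t - 3 * X ^ 2 = 0 := by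
  have hx0 : X ≠ 0 := by
    intro h0
    rw [h0, map_zero] at hx
    exact not_lt_zero hx
  have hX : (1 : ℤᵐ⁰) < Valued.v X ^ 3 := one_lt_pow₀ hx three_ne_zero
  have hc0 : c ≠ 0 := by
    intro h0
    rw [h0, map_zero] at hγ
    rw [← hγ] at hX
    exact not_lt_zero hX
  obtain ⟨w, hw⟩ : ∃ w, w = X ^ 3 / c := ⟨_, rfl⟩
  have hwc : w * c = X ^ 3 := by
    rw [hw]
    field_simp
  have hvw : Valued.v w = 1 := by
    rw [hw, map_div₀, map_pow, hγ, div_self]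
    exact (zero_lt_one.trans hX).ne'
  have hA : Valued.v (-(3 * w ^ 2)) < 1 := by
    rw [Valuation.map_neg, map_mul, map_pow, hvw, one_pow, mul_one]
    exact hρ
  have hB : Valued.v (-(4 * w)) = 1 := by
    rw [Valuation.map_neg, map_mul, hvw, hv4, one_mul]
  have hC : Valued.v (-(6 * w)) ≤ 1 := by
    rw [Valuation.map_neg, map_mul, hvw, hv6, mul_one]
    exact hρ.le
  obtain ⟨m, _, hm⟩ := hensel_small v _ _ _ 0 1 hA hB hC (by rw [map_zero]; exact zero_le)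
    (Valuation.map_one _).le
  refine ⟨m / X, ?_⟩
  have h1 : X ^ 4 * (c ^ 2 * (m / X) ^ 4 - 6 * X * c * (m / X) ^ 2 - 4 * c * (m / X) - 3 * X ^ 2) =
      c ^ 2 * m ^ 4 - 6 * m ^ 2 * c * X ^ 3 - 4 * m * c * X ^ 3 - 3 * (X ^ 3) ^ 2 := by
    field_simp
  have h2 : X ^ 4 * (c ^ 2 * (m / X) ^ 4 - 6 * X * c * (m / X) ^ 2 - 4 * c * (m / X) - 3 * X ^ 2) =
      0 := by
    rw [h1, ← hwc]
    linear_combination c ^ 2 * hm
  exact (mul_eq_zero.mp h2).resolve_left (pow_ne_zero 4 hx0)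

theorem bound_y (v : HeightOneSpectrum (𝓞 N)) (h3 : v.valuation N 3 < 1)
    (ht : ∀ m : ℤ, v.valuation N 3 ≠ exp (3 * m)) (X : v.adicCompletion N) :
    v.valuation N 3 ≤ Valued.v (4 * X ^ 3 + 1) := by
  have hρ : Valued.v (3 : v.adicCompletion N) < 1 := by
    rw [le1_three]
    exact h3
  have hv4 : Valued.v (4 : v.adicCompletion N) = 1 := by
    rw [show (4 : v.adicCompletion N) = 2 * 2 by norm_num, map_mul, le1_two hρ, one_mul]
  rcases le_or_gt (Valued.v X) 1 with hx | hx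
  · exact tame_bound v h3 ht X hx
  · rw [le1_big hv4 X hx]
    exact h3.le.trans (one_lt_pow₀ hx three_ne_zero).le

theorem exists_t (v : HeightOneSpectrum (𝓞 N)) (h3 : v.valuation N 3 < 1)
    (ht : ∀ m : ℤ, v.valuation N 3 ≠ exp (3 * m)) (X : v.adicCompletion N) :
    ∃ t, (4 * X ^ 3 + 1) ^ 2 * t ^ 4 - 6 * X * (4 * X ^ 3 + 1) * t ^ 2 -
      4 * (4 * X ^ 3 + 1) * t - 3 * X ^ 2 = 0 := by
  have hρ : Valued.v (3 : v.adicCompletion N) < 1 := by
    rw [le1_three]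
    exact h3
  have hρ0 : Valued.v (3 : v.adicCompletion N) ≠ 0 := by
    rw [Valuation.ne_zero_iff]
    exact le1_ne (N := N) v 3 (by norm_num)
  have hv2 := le1_two hρ
  have hv4 : Valued.v (4 : v.adicCompletion N) = 1 := by
    rw [show (4 : v.adicCompletion N) = 2 * 2 by norm_num, map_mul, hv2, one_mul]
  have hv6 : Valued.v (6 : v.adicCompletion N) = Valued.v (3 : v.adicCompletion N) := by
    rw [show (6 : v.adicCompletion N) = 2 * 3 by norm_num, map_mul, hv2, one_mul]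
  rcases le_or_gt (Valued.v X) 1 with hx | hx
  · refine le1_caseA v hρ hρ0 hv4 hv6 X _ hx ?_ ?_
    · rw [le1_three]
      exact tame_bound v h3 ht X hx
    · refine (Valuation.map_add _ _ _).trans (max_le ?_ (Valuation.map_one _).le)
      rw [map_mul, hv4, one_mul, map_pow]
      exact pow_le_one' hx 3
  · exact le1_caseB v hρ hv4 hv6 X _ hx (le1_big hv4 X hx)

end Pool.Agent.Lib.MP_1a91b9_ntT.CT
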