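import Pool.Agent.Lib.MP_1a91b9_ntT.CT.Ld
import Pool.Agent.Lib.MP_1a91b9_ntT.CT.Lf
import Pool.Agent.Lib.MP_1a91b9_ntT.S5.Tower

/-!
# JOB Lf2: the scaling factors

Write `δ_v` for the image of `δ` in `N_v`; `Valued.v δ_v = v.valuation N δ` (`HeightOneSpectrum.valuedAdicCompletion_eq_valuation'`).
Use `minModel_tw` (the curve `C • tw δ_v` is minimal by `minModel_isMinimal`, S9/QA.lean).
(`val_u_two`) `v(2) < 1`: `δ = a² + 4 b` (`hδ.sq`), `v(δ) = 1` (`hδ.odd`): `ns_two`.
(`finite_bad`) the exceptional places contain `6 δ` (finitely many primes: `Ideal.finite_factors`): if `v(2) < 1`, `val_u_two`; if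
`v(2) = v(3) = v(δ) = 1`: `u_even` and `v(2) = 1`.
-/

set_option autoImplicit false

namespace Pool.Agent.Lib.MP_1a91b9_ntT.CT

open NumberField IsDedekindDomain WeierstrassCurve WithZero Pool.Agent.Lib.MP_1a91b9_ntT.S9
open Pool.Agent.Lib.MP_1a91b9_ntT.TW
open scoped Classical

variable {N : Type*} [Field N] [NumberField N]

theorem val_u_two {W : WeierstrassCurve N} {D : VariableChange N} {δ : 𝓞 N} (hδ : Adm N δ)
    (hD : D • W = tw (δ : N)) (v : HeightOneSpectrum (𝓞 N)) (h2 : v.valuation N 2 < 1) :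
    Valued.v (uu W D v) = v.valuation N 2 := by
  obtain ⟨a, b, hab⟩ := hδ.sq
  obtain ⟨C, hCu, hC⟩ := minModel_tw hD v
  have hval : ∀ x : N, Valued.v (algebraMap N (v.adicCompletion N) x) = v.valuation N x := fun x =>
    HeightOneSpectrum.valuedAdicCompletion_eq_valuation' v x
  have h2m : (2 : 𝓞 N) ∈ v.asIdeal := by
    rw [← HeightOneSpectrum.valuation_lt_one_iff_mem (K := N)]
    show v.valuation N (algebraMap (𝓞 N) N 2) < 1
    rw [map_ofNat]
    exact h2
  have hδv : δ ∉ v.asIdeal := by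
    intro h
    obtain ⟨u, w, huw⟩ := hδ.odd
    apply v.isPrime.ne_top
    rw [Ideal.eq_top_iff_one, ← huw]
    exact v.asIdeal.add_mem (v.asIdeal.mul_mem_left _ h) (v.asIdeal.mul_mem_left _ h2m)
  have hδ1 : v.valuation N (δ : N) = 1 :=
    (HeightOneSpectrum.valuation_eq_one_iff_notMem (K := N) v).2 hδv
  have hδe : algebraMap N (v.adicCompletion N) (δ : N) =
      algebraMap N (v.adicCompletion N) (a : N) ^ 2 + 4 * algebraMap N (v.adicCompletion N) (b : N) := by
    have h5 : (δ : N) = (a : N) ^ 2 + 4 * (b : N) := by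
      show algebraMap (𝓞 N) N δ = (algebraMap (𝓞 N) N a) ^ 2 + 4 * algebraMap (𝓞 N) N b
      rw [hab, map_add, map_mul, map_pow, map_ofNat]
    rw [h5, map_add, map_mul, map_pow, map_ofNat]
  have hm : IsMinimal (v.adicCompletionIntegers N) (C • tw
      (algebraMap N (v.adicCompletion N) (a : N) ^ 2 + 4 * algebraMap N (v.adicCompletion N) (b : N))) := by
    rw [← hδe, ← hC]
    exact minModel_isMinimal W v
  have h6 := (ns_two h2 (algebraMap N (v.adicCompletion N) (a : N))
    (algebraMap N (v.adicCompletion N) (b : N))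
    (by rw [hval]; exact HeightOneSpectrum.valuation_le_one v a)
    (by rw [hval]; exact HeightOneSpectrum.valuation_le_one v b)
    (by rw [← hδe, hval, hδ1]) C hm).2
  rw [← hCu]
  exact h6

theorem finite_bad {W : WeierstrassCurve N} {D : VariableChange N} {δ : 𝓞 N} (hδ : Adm N δ)
    (hD : D • W = tw (δ : N)) :
    {v : HeightOneSpectrum (𝓞 N) | Valued.v (uu W D v) ≠ v.valuation N 2}.Finite := by
  have hδ0 : δ ≠ 0 := adm_ne_zero hδ
  have h60 : (Ideal.span {6 * δ} : Ideal (𝓞 N)) ≠ 0 := by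
    rw [Ne, Ideal.zero_eq_bot, Ideal.span_singleton_eq_bot]
    exact mul_ne_zero (by norm_num) hδ0
  refine (Ideal.finite_factors h60).subset fun v hv => ?_
  rw [Set.mem_ofPred_eq] at hv ⊢
  rw [Ideal.dvd_span_singleton]
  by_contra hcon
  have hval : ∀ x : N, Valued.v (algebraMap N (v.adicCompletion N) x) = v.valuation N x := fun x =>
    HeightOneSpectrum.valuedAdicCompletion_eq_valuation' v x
  have h2m : (2 : 𝓞 N) ∉ v.asIdeal := by
    intro h
    apply hcon
    have h1 : (6 : 𝓞 N) * δ = (3 * δ) * 2 := by ring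
    rw [h1]
    exact v.asIdeal.mul_mem_left _ h
  have h3m : (3 : 𝓞 N) ∉ v.asIdeal := by
    intro h
    apply hcon
    have h1 : (6 : 𝓞 N) * δ = (2 * δ) * 3 := by ring
    rw [h1]
    exact v.asIdeal.mul_mem_left _ h
  have hδm : δ ∉ v.asIdeal := fun h => hcon (v.asIdeal.mul_mem_left _ h)
  have h2 : v.valuation N 2 = 1 := by
    have h1 := (HeightOneSpectrum.valuation_eq_one_iff_notMem (K := N) v).2 h2m
    rwa [map_ofNat] at h1
  have h3 : v.valuation N 3 = 1 := by
    have h1 := (HeightOneSpectrum.valuation_eq_one_iff_notMem (K := N) v).2 h3m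
    rwa [map_ofNat] at h1
  have hδ1 : v.valuation N (δ : N) = 1 :=
    (HeightOneSpectrum.valuation_eq_one_iff_notMem (K := N) v).2 hδm
  obtain ⟨C, hCu, hC⟩ := minModel_tw hD v
  have hm : IsMinimal (v.adicCompletionIntegers N)
      (C • tw (algebraMap N (v.adicCompletion N) (δ : N))) := by
    rw [← hC]
    exact minModel_isMinimal W v
  have h4 := u_even h2 h3 (algebraMap N (v.adicCompletion N) (δ : N)) (by rw [hval, hδ1]) C hm
  apply hv
  rw [← hCu, h4, h2]

end Pool.Agent.Lib.MP_1a91b9_ntT.CT
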