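import Pool.Agent.Lib.MP_1a91b9_ntT.P.Real

/-!
# JOB Pa: the real period of `y² = 4 x³ - 1`

PROOF. The copy of the section The imaginary axis and The integral of `P/Real.lean` for the real axis. `pp y = (℘ y).re`,
`pd y = (℘' y).re` for real `y ∈ (0, 1/2]`; both are real: `P_real`, and the same for `℘'` with `Q_conj`. `pd² = 4 pp³ - g3r`
(`S3.diff_eq`: `℘'² = 4 ℘³ + Om⁶`, `Om_pow`, `g3r_eq`), `pp' = pd` (`S3.hasDerivAt_P`, `HasDerivAt.real_of_complex`);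
`y ∈ (0, 1/2)`: `2 y ∉ L` (`real_mem`, `int_zero`), `pd y ≠ 0` (`Q_ne`), `pp` is injective there (`P_inj`);
`4 pp(1/2)³ = g3r` (see `g3r_pos`), `pp → +∞` at `0` (`tendsto_axis` with `u = 1`); so `pp '' (0, 1/2) = {x | 0 < 4 x³ - g3r}`;
the change of variables gives `∫ (√(4 x³ - g3r))⁻¹ = 1/2` and scaling by `‖Om‖²` (`norm_Om_pow`) gives the result.
-/

set_option autoImplicit false

namespace Pool.Agent.Lib.MP_1a91b9_ntT.CT

open MeasureTheory Complex Filter Topology Set Pool.Agent.Lib.MP_1a91b9_ntT.Per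

noncomputable section

/-- The real function `℘(y)`. -/
def Pa_pp (y : ℝ) : ℝ := (PP.weierstrassP (y : ℂ)).re

/-- Its derivative. -/
def Pa_pd (y : ℝ) : ℝ := (PP.derivWeierstrassP (y : ℂ)).re

theorem Pa_P (y : ℝ) : PP.weierstrassP (y : ℂ) = (Pa_pp y : ℂ) := P_real y

theorem Pa_Q (y : ℝ) : PP.derivWeierstrassP (y : ℂ) = (Pa_pd y : ℂ) := by
  have h := Q_conj (y : ℂ)
  rw [Complex.conj_ofReal] at h
  exact (Complex.conj_eq_iff_re.1 h.symm).symm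

theorem Pa_curve {y : ℝ} (hy : (y : ℂ) ∉ PP.lattice) : Pa_pd y ^ 2 = 4 * Pa_pp y ^ 3 - g3r := by
  have h := S3.diff_eq hy
  rw [Pa_P, Pa_Q, Om_pow, ← g3r_eq] at h
  have h1 : ((Pa_pd y ^ 2 : ℝ) : ℂ) = ((4 * Pa_pp y ^ 3 - g3r : ℝ) : ℂ) := by
    push_cast
    linear_combination h
  exact_mod_cast h1

theorem Pa_hasDerivAt {y : ℝ} (hy : (y : ℂ) ∉ PP.lattice) : HasDerivAt Pa_pp (Pa_pd y) y :=
  (S3.hasDerivAt_P hy).real_of_complex

theorem Pa_two {y : ℝ} (h0 : 0 < y) (h1 : y < 1 / 2) : 2 * (y : ℂ) ∉ PP.lattice := by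
  have e : 2 * (y : ℂ) = ((2 * y : ℝ) : ℂ) := by push_cast; rfl
  rw [e, real_mem]
  rintro ⟨m, hm⟩
  have e2 := int_zero hm (by linarith) (by linarith)
  linarith

theorem Pa_injOn : InjOn Pa_pp (Ioo 0 (1 / 2)) := by
  intro y hy z hz h
  have hP : PP.weierstrassP (y : ℂ) = PP.weierstrassP (z : ℂ) := by rw [Pa_P, Pa_P, h]
  rcases P_inj (Pa_two hz.1 hz.2) (S3.notMem_of_two_mul (Pa_two hy.1 hy.2)) hP with h1 | h1
  · have e : (y : ℂ) - z = ((y - z : ℝ) : ℂ) := by push_cast; ring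
    rw [e, real_mem] at h1
    obtain ⟨m, hm⟩ := h1
    have h5 := int_zero hm (by linarith [hy.1, hz.2]) (by linarith [hy.2, hz.1])
    linarith
  · have e : (y : ℂ) + z = ((y + z : ℝ) : ℂ) := by push_cast; ring
    rw [e, real_mem] at h1
    obtain ⟨m, hm⟩ := h1
    have h5 := int_zero hm (by linarith [hy.1, hz.1]) (by linarith [hy.2, hz.2])
    linarith [hy.1, hz.1]

theorem Pa_pd_ne {y : ℝ} (hy : y ∈ Ioo (0 : ℝ) (1 / 2)) : Pa_pd y ≠ 0 := by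
  intro h
  apply Q_ne (Pa_two hy.1 hy.2)
  rw [Pa_Q, h, Complex.ofReal_zero]

theorem Pa_end : 4 * Pa_pp (1 / 2) ^ 3 - g3r = 0 := by
  have e : (((1 / 2 : ℝ)) : ℂ) = 1 / 2 := by push_cast; ring
  have h1 : (((1 / 2 : ℝ)) : ℂ) ∉ PP.lattice := by
    rw [e]; exact S3.half_notMem
  have h4 : PP.derivWeierstrassP (((1 / 2 : ℝ)) : ℂ) = 0 := by
    rw [e]; exact S3.Q_half (by norm_num [S3.one_mem])
  rw [Pa_Q] at h4
  have h6 : Pa_pd (1 / 2) = 0 := by exact_mod_cast h4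
  rw [← Pa_curve h1, h6]
  ring

theorem Pa_notMem {y : ℝ} (h0 : 0 < y) (h1 : y ≤ 1 / 2) : (y : ℂ) ∉ PP.lattice := by
  rw [real_mem]
  rintro ⟨m, hm⟩
  have h5 := int_zero hm (by linarith) (by linarith)
  linarith

theorem Pa_image : Pa_pp '' (Ioo 0 (1 / 2)) = {x : ℝ | 0 < 4 * x ^ 3 - g3r} := by
  ext c
  constructor
  · rintro ⟨y, hy, rfl⟩
    show 0 < 4 * Pa_pp y ^ 3 - g3r
    rw [← Pa_curve (Pa_notMem hy.1 hy.2.le)]
    exact lt_of_le_of_ne (sq_nonneg _) (pow_ne_zero 2 (Pa_pd_ne hy)).symm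
  · intro hc
    have hc' : 0 < 4 * c ^ 3 - g3r := hc
    have hq := Pa_end
    have h1 : Pa_pp (1 / 2) < c := by
      by_contra hn
      push Not at hn
      have h2 : c ^ 3 ≤ Pa_pp (1 / 2) ^ 3 :=
        (Odd.strictMono_pow (by decide : Odd 3)).monotone hn
      linarith
    have h2 := tendsto_axis (u := 1) one_ne_zero
    have h4 : ∀ᶠ t : ℝ in 𝓝[>] 0, t < 1 / 2 :=
      (eventually_lt_nhds (by norm_num)).filter_mono nhdsWithin_le_nhds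
    obtain ⟨t, ⟨ht1, ht2⟩, ht3⟩ :=
      ((h2.eventually (eventually_gt_atTop c)).and h4 |>.and self_mem_nhdsWithin).exists
    have ht3' : 0 < t := ht3
    rw [one_pow, one_mul, one_mul, Pa_P, Complex.ofReal_re] at ht1
    have hcont : ContinuousOn Pa_pp (Icc t (1 / 2)) := fun x hx =>
      (Pa_hasDerivAt (Pa_notMem (ht3'.trans_le hx.1) hx.2)).continuousAt.continuousWithinAt
    obtain ⟨x, hx, hx0⟩ := intermediate_value_Icc' ht2.le hcont ⟨h1.le, ht1.le⟩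
    refine ⟨x, ⟨ht3'.trans_le hx.1, lt_of_le_of_ne hx.2 ?_⟩, hx0⟩
    intro he
    rw [he] at hx0
    linarith

theorem Pa_jac {y : ℝ} (hy : y ∈ Ioo (0 : ℝ) (1 / 2)) :
    |Pa_pd y| • (Real.sqrt (4 * Pa_pp y ^ 3 - g3r))⁻¹ = 1 := by
  rw [← Pa_curve (Pa_notMem hy.1 hy.2.le), Real.sqrt_sq_eq_abs, smul_eq_mul,
    mul_inv_cancel₀ (abs_ne_zero.2 (Pa_pd_ne hy))]

theorem Pa_zero {x : ℝ} (hx : x ∉ {x : ℝ | 0 < 4 * x ^ 3 - g3r}) :
    (Real.sqrt (4 * x ^ 3 - g3r))⁻¹ = 0 := by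
  have h : 4 * x ^ 3 - g3r ≤ 0 := not_lt.1 hx
  rw [Real.sqrt_eq_zero_of_nonpos h, inv_zero]

theorem Pa_integral : ∫ x : ℝ, (Real.sqrt (4 * x ^ 3 - g3r))⁻¹ = 1 / 2 := by
  have h1 := integral_image_eq_integral_abs_deriv_smul measurableSet_Ioo
    (fun y hy => (Pa_hasDerivAt (Pa_notMem hy.1 hy.2.le)).hasDerivWithinAt) Pa_injOn
    (fun x : ℝ => (Real.sqrt (4 * x ^ 3 - g3r))⁻¹)
  rw [Pa_image, setIntegral_congr_fun measurableSet_Ioo (fun z hz => Pa_jac hz), setIntegral_const,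
    smul_eq_mul, measureReal_def, Real.volume_Ioo, sub_zero,
    ENNReal.toReal_ofReal (by positivity), mul_one,
    setIntegral_eq_integral_of_forall_compl_eq_zero (fun x hx => Pa_zero hx)] at h1
  exact h1

theorem Pa_scale (x : ℝ) : (Real.sqrt (4 * (‖Om‖ ^ 2 * x) ^ 3 - g3r))⁻¹ =
    (‖Om‖ ^ 3)⁻¹ * (Real.sqrt (4 * x ^ 3 - 1))⁻¹ := by
  have h0 : 0 < ‖Om‖ := norm_pos_iff.2 Om_ne_zero
  have e : 4 * (‖Om‖ ^ 2 * x) ^ 3 - g3r = (‖Om‖ ^ 3) ^ 2 * (4 * x ^ 3 - 1) := by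
    rw [← norm_Om_pow]
    ring
  rw [e, Real.sqrt_mul (by positivity), Real.sqrt_sq (by positivity), mul_inv]

end

theorem integral_neg : ∫ x : ℝ, (Real.sqrt (4 * x ^ 3 - 1))⁻¹ = ‖Om‖ / 2 := by
  have h0 : 0 < ‖Om‖ := norm_pos_iff.2 Om_ne_zero
  have h1 := Measure.integral_comp_mul_left
    (fun x : ℝ => (Real.sqrt (4 * x ^ 3 - g3r))⁻¹) (‖Om‖ ^ 2)
  simp only [Pa_scale] at h1
  rw [integral_const_mul, Pa_integral, abs_of_pos (by positivity), smul_eq_mul] at h1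
  have h2 : ‖Om‖ ^ 3 * ((‖Om‖ ^ 3)⁻¹ * ∫ x : ℝ, (Real.sqrt (4 * x ^ 3 - 1))⁻¹) =
      ‖Om‖ ^ 3 * ((‖Om‖ ^ 2)⁻¹ * (1 / 2)) := by rw [h1]
  rw [← mul_assoc, mul_inv_cancel₀ (pow_ne_zero 3 h0.ne'), one_mul] at h2
  rw [h2]
  field_simp

end Pool.Agent.Lib.MP_1a91b9_ntT.CT
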