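import Pool.Agent.Lib.MP_1a91b9_ntT.CT.Pa
import Pool.Agent.Lib.MP_1a91b9_ntT.CT.Pb
import Pool.Agent.Lib.MP_1a91b9_ntT.TW.Curve

/-!
# JOB Pc: the periods of the twists

PROOF. Over a field `k` of characteristic zero, for `α ≠ 0`, `C = ⟨(2 α)⁻¹ , 0, 0, ...⟩`: combine the explicit changes of
`exists_tw_scale` (`u = α⁻¹`: `C₁ • tw d = tw (d α²)`) and `exists_twm` (`u = 2`, `a = 1`, `b = 0`: `C₂ • tw 1 = E k`):
`tw (α²) = (C₁ * C₂⁻¹) • E k` with `u = α⁻¹ 2⁻¹`. Real `d > 0`: `α = √d`, `perR_vc`, `perR_E`. Complex `d`: `α² = d`, `perC_vc`, `perC_E`,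
`‖α‖² = ‖d‖`. Real `d < 0`: `α = √(-d)`, `C₁ • tw (-1) = tw (-α²) = tw d`, and `perR (tw (-1)) = ‖Om‖ / 2`: `tw (-1)` is
`y² = x³ - 16`, by `perR_vc` with `u = 2` it is `2⁻¹` times `perR` of `⟨0, 0, 1, 0, -1/2⟩` (that is `(2 y + 1)² = 4 x³ - 1`), whose fibre
sums are `2 (√(4 x³ - 1))⁻¹` (copy `fib_R` of `P/Fib.lean`), `integral_neg`.
-/

set_option autoImplicit false

namespace Pool.Agent.Lib.MP_1a91b9_ntT.CT

open MeasureTheory WeierstrassCurve Pool.Agent.Lib.MP_1a91b9_ntT.Per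
open Pool.Agent.Lib.MP_1a91b9_ntT.TW

/-- The curve `(2 y + 1)² = 4 x³ + δ`. -/
private def Pc_M {k : Type*} [Field k] (δ : k) : WeierstrassCurve k := ⟨0, 0, 1, 0, (δ - 1) / 4⟩

private theorem Pc_M_one {k : Type*} [Field k] : Pc_M (1 : k) = E k := by
  unfold Pc_M
  rw [sub_self, zero_div]
  rfl

private theorem Pc_vc {k : Type*} [Field k] (δ α : k) (h2 : (2 : k) ≠ 0) (hα : α ≠ 0)
    (hδ : δ ^ 3 = δ) :
    (⟨(Units.mk0 (2 * α) (mul_ne_zero h2 hα))⁻¹, 0, 0, -1 / 2⟩ : VariableChange k) • Pc_M δ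
      = tw (δ * α ^ 2) := by
  have h4 : (4 : k) ≠ 0 := by
    have : (4 : k) = 2 * 2 := by norm_num
    rw [this]
    exact mul_ne_zero h2 h2
  rw [WeierstrassCurve.variableChange_def]
  ext
  · simp [tw, Pc_M]
  · simp [tw, Pc_M]
  · simp only [tw, Pc_M, inv_inv, Units.val_mk0]
    field_simp
    ring
  · simp [tw, Pc_M]
  · simp only [tw, Pc_M, inv_inv, Units.val_mk0]
    have e : (16 : k) * (δ * α ^ 2) ^ 3 = 16 * δ * α ^ 6 := by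
      rw [mul_pow, hδ]
      ring
    rw [e]
    field_simp
    ring

private theorem Pc_eq {x y : ℝ} :
    (Pc_M (-1 : ℝ)).toAffine.Equation x y ↔ (2 * y + 1) ^ 2 = 4 * x ^ 3 - 1 := by
  rw [WeierstrassCurve.Affine.equation_iff]
  show y ^ 2 + 0 * x * y + 1 * y = x ^ 3 + 0 * x ^ 2 + 0 * x + (-1 - 1) / 4 ↔ _
  constructor <;> intro h <;> linarith

private theorem Pc_iff {x y d : ℝ} (hd : d ^ 2 = 4 * x ^ 3 - 1) :
    (Pc_M (-1 : ℝ)).toAffine.Equation x y ↔ y = (-1 + d) / 2 ∨ y = (-1 - d) / 2 := by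
  rw [Pc_eq]
  constructor
  · intro h
    have h1 : (2 * y + 1 - d) * (2 * y + 1 + d) = 0 := by linear_combination h - hd
    rcases mul_eq_zero.1 h1 with h2 | h2
    · left
      linear_combination h2 / 2
    · right
      linear_combination h2 / 2
  · rintro (rfl | rfl)
    · linear_combination hd
    · linear_combination hd

private theorem Pc_fib_sum {x d : ℝ} (hd : d ^ 2 = 4 * x ^ 3 - 1) (h0 : d ≠ 0) (f : ℝ → ℝ) :
    ∑' y : {y : ℝ // (Pc_M (-1 : ℝ)).toAffine.Equation x y}, f y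
      = f ((-1 + d) / 2) + f ((-1 - d) / 2) := by
  classical
  have hne : (-1 + d) / 2 ≠ (-1 - d) / 2 := by
    intro h
    apply h0
    linarith
  have e : {y : ℝ | (Pc_M (-1 : ℝ)).toAffine.Equation x y} =
      (({(-1 + d) / 2, (-1 - d) / 2} : Finset ℝ) : Set ℝ) := by
    ext y
    rw [Finset.coe_pair, Set.mem_ofPred_eq, Pc_iff hd]
    rfl
  show ∑' y : ({y : ℝ | (Pc_M (-1 : ℝ)).toAffine.Equation x y} : Set ℝ), f y = _
  rw [e, Finset.tsum_subtype', Finset.sum_pair hne]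

private theorem Pc_fib_sum_zero {x : ℝ} (hx : 4 * x ^ 3 - 1 = 0)
    (f : ℝ → ℝ) (hf : f ((-1) / 2) = 0) :
    ∑' y : {y : ℝ // (Pc_M (-1 : ℝ)).toAffine.Equation x y}, f y = 0 := by
  have h : ∀ y : {y : ℝ // (Pc_M (-1 : ℝ)).toAffine.Equation x y}, f y = 0 := by
    rintro ⟨y, hy⟩
    have hd : (0 : ℝ) ^ 2 = 4 * x ^ 3 - 1 := by rw [hx]; ring
    rw [Pc_iff hd, add_zero, sub_zero, or_self] at hy
    show f y = 0
    rw [hy, hf]
  rw [tsum_congr h, tsum_zero]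

private theorem Pc_fib (x : ℝ) : ∑' y : {y : ℝ // (Pc_M (-1 : ℝ)).toAffine.Equation x y},
    |2 * (y : ℝ) + (Pc_M (-1 : ℝ)).a₁ * x + (Pc_M (-1 : ℝ)).a₃|⁻¹
      = 2 * (Real.sqrt (4 * x ^ 3 - 1))⁻¹ := by
  show ∑' y : {y : ℝ // (Pc_M (-1 : ℝ)).toAffine.Equation x y},
    |2 * (y : ℝ) + 0 * x + 1|⁻¹ = _
  rcases lt_trichotomy (4 * x ^ 3 - 1) 0 with h | h | h
  · have he : IsEmpty {y : ℝ // (Pc_M (-1 : ℝ)).toAffine.Equation x y} := by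
      refine ⟨?_⟩
      rintro ⟨y, hy⟩
      rw [Pc_eq] at hy
      nlinarith [sq_nonneg (2 * y + 1)]
    rw [tsum_empty, Real.sqrt_eq_zero_of_nonpos h.le]
    norm_num
  · rw [h, Pc_fib_sum_zero h (fun y => |2 * (y : ℝ) + 0 * x + 1|⁻¹) (by norm_num)]
    norm_num
  · have hd := Real.sq_sqrt h.le
    have h0 := Real.sqrt_pos.2 h
    rw [Pc_fib_sum hd h0.ne' (fun y => |2 * (y : ℝ) + 0 * x + 1|⁻¹)]
    have e1 : 2 * ((-1 + √(4 * x ^ 3 - 1)) / 2) + 0 * x + 1 = √(4 * x ^ 3 - 1) := by ring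
    have e2 : 2 * ((-1 - √(4 * x ^ 3 - 1)) / 2) + 0 * x + 1 = -√(4 * x ^ 3 - 1) := by ring
    rw [e1, e2, abs_neg, abs_of_pos h0, two_mul]

private theorem Pc_perR_M : perR (Pc_M (-1 : ℝ)) = ‖Om‖ := by
  rw [perR]
  simp only [Pc_fib]
  rw [integral_const_mul, integral_neg]
  ring

private theorem Pc_abs_u (α : ℝ) (hα : 0 < α) :
    |(((Units.mk0 (2 * α) (mul_ne_zero two_ne_zero hα.ne'))⁻¹ : ℝˣ) : ℝ)| = (2 * α)⁻¹ := by
  rw [Units.val_inv_eq_inv_val, Units.val_mk0, abs_of_pos]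
  positivity

theorem perR_tw (d : ℝ) (hd : d ≠ 0) :
    perR (tw d) = (if 0 < d then Real.sqrt 3 else 1) * (‖Om‖ / (2 * Real.sqrt |d|)) := by
  have ha : 0 < Real.sqrt |d| := Real.sqrt_pos.2 (abs_pos.2 hd)
  have hsq : Real.sqrt |d| ^ 2 = |d| := Real.sq_sqrt (abs_nonneg d)
  rcases lt_or_gt_of_ne hd with h | h
  · have h1 := Pc_vc (-1 : ℝ) (Real.sqrt |d|) two_ne_zero ha.ne' (by norm_num)
    have e : (-1 : ℝ) * Real.sqrt |d| ^ 2 = d := by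
      rw [hsq, abs_of_neg h]
      ring
    rw [e] at h1
    rw [← h1, perR_vc, Pc_perR_M, if_neg (not_lt.2 h.le), Pc_abs_u _ ha]
    rw [one_mul, div_eq_inv_mul]
  · have h1 := Pc_vc (1 : ℝ) (Real.sqrt |d|) two_ne_zero ha.ne' (by norm_num)
    have e : (1 : ℝ) * Real.sqrt |d| ^ 2 = d := by
      rw [hsq, abs_of_pos h]
      ring
    rw [e] at h1
    rw [← h1, perR_vc, Pc_M_one, perR_E, if_pos h, Pc_abs_u _ ha, div_eq_inv_mul]
    ring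

theorem perC_tw (d : ℂ) (hd : d ≠ 0) :
    perC (tw d) = Real.sqrt 3 / 2 * (‖Om‖ / (2 * Real.sqrt ‖d‖)) ^ 2 := by
  obtain ⟨α, hα⟩ := IsAlgClosed.exists_pow_nat_eq d (n := 2) (by norm_num)
  have h0 : α ≠ 0 := by
    rintro rfl
    apply hd
    rw [← hα]
    ring
  have h1 := Pc_vc (1 : ℂ) α two_ne_zero h0 (by norm_num)
  have e : (1 : ℂ) * α ^ 2 = d := by rw [hα, one_mul]
  rw [e] at h1
  have hs : Real.sqrt ‖d‖ = ‖α‖ := by
    rw [← hα, norm_pow, Real.sqrt_sq (norm_nonneg _)]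
  have hu : ‖(((Units.mk0 (2 * α) (mul_ne_zero two_ne_zero h0))⁻¹ : ℂˣ) : ℂ)‖ = (2 * ‖α‖)⁻¹ := by
    rw [Units.val_inv_eq_inv_val, Units.val_mk0, norm_inv, norm_mul]
    norm_num
  rw [← h1, perC_vc, Pc_M_one, perC_E, hs, hu, div_eq_inv_mul ‖Om‖]
  ring

end Pool.Agent.Lib.MP_1a91b9_ntT.CT
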