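import Pool.Agent.Lib.MP_1a91b9_ntT.CT.Pc
import Pool.Agent.Lib.MP_1a91b9_ntT.P.Unit

/-!
# JOB Pd1: the product of the periods at the infinite places

(`prod_vc`) `perAt (D • W) v = (v u) ^ mult v * perAt W v` from `perR_vc`, `perC_vc` (`map_variableChange`;
`|embedding_of_isReal h u| = v u`, `‖v.embedding u‖ = v u`: `InfinitePlace.norm_embedding_eq`,
`InfinitePlace.norm_embedding_of_isReal`), and `∏ (v u) ^ mult v = |norm u|` (`InfinitePlace.prod_eq_abs_norm`).
(`prod_tw`) `perAt (tw d) v = (if Pos d v then √3 else 1) * (‖Om‖ / (2 √(v d))) ^ mult v` (`tw_map`, `perR_tw`, `perC_tw`), product as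
in `prod_perAt` of `P/Unit.lean`: `∏ (√(v d)) ^ mult = √(∏ (v d) ^ mult) = √|norm d|`.
-/

set_option autoImplicit false

namespace Pool.Agent.Lib.MP_1a91b9_ntT.CT

open NumberField WeierstrassCurve Pool.Agent.Lib.MP_1a91b9_ntT.Per
open Pool.Agent.Lib.MP_1a91b9_ntT.TW

variable {N : Type*} [Field N]

/-- `v` is complex, or real and `d` is positive at `v`. -/
def Pos (d : N) (v : InfinitePlace N) : Prop :=
  ∀ h : v.IsReal, 0 < InfinitePlace.embedding_of_isReal h d

/-- The number of the infinite places at which `d` is positive. -/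
noncomputable def npos (d : N) : ℕ := Nat.card {v : InfinitePlace N // Pos d v}

private theorem Pd1_perAt_vc (W : WeierstrassCurve N) (D : VariableChange N) (v : InfinitePlace N) :
    perAt (D • W) v = v (D.u : N) ^ v.mult * perAt W v := by
  rw [perAt, perAt]
  split_ifs with h
  · rw [← map_variableChange, perR_vc, InfinitePlace.mult, if_pos h, pow_one]
    congr 1
    exact InfinitePlace.norm_embedding_of_isReal h (D.u : N)
  · rw [← map_variableChange, perC_vc, InfinitePlace.mult, if_neg h]
    have h1 : ‖(((D.map v.embedding).u : ℂˣ) : ℂ)‖ = v (D.u : N) :=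
      InfinitePlace.norm_embedding_eq v (D.u : N)
    rw [h1]
    ring

theorem prod_vc [NumberField N] (W : WeierstrassCurve N) (D : VariableChange N) :
    ∏ v : InfinitePlace N, perAt (D • W) v =
      |(Algebra.norm ℚ (D.u : N) : ℝ)| * ∏ v : InfinitePlace N, perAt W v := by
  simp only [Pd1_perAt_vc]
  rw [Finset.prod_mul_distrib, InfinitePlace.prod_eq_abs_norm]
  push_cast
  rfl

open Classical in
private theorem Pd1_perAt_tw (d : N) (hd : d ≠ 0) (v : InfinitePlace N) :
    perAt (tw d) v =
      (if Pos d v then Real.sqrt 3 else 1) * (‖Om‖ / (2 * Real.sqrt (v d))) ^ v.mult := by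
  rw [perAt]
  split_ifs with h h2 h2
  · have h0 : InfinitePlace.embedding_of_isReal h d ≠ 0 :=
      (map_ne_zero_iff _ (InfinitePlace.embedding_of_isReal h).injective).2 hd
    have h1 : |InfinitePlace.embedding_of_isReal h d| = v d :=
      InfinitePlace.norm_embedding_of_isReal h d
    rw [tw_map, perR_tw _ h0, if_pos (h2 h), h1, InfinitePlace.mult, if_pos h, pow_one]
  · have h0 : InfinitePlace.embedding_of_isReal h d ≠ 0 :=
      (map_ne_zero_iff _ (InfinitePlace.embedding_of_isReal h).injective).2 hd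
    have h1 : |InfinitePlace.embedding_of_isReal h d| = v d :=
      InfinitePlace.norm_embedding_of_isReal h d
    have h3 : ¬ 0 < InfinitePlace.embedding_of_isReal h d := fun h4 => h2 (fun _ => h4)
    rw [tw_map, perR_tw _ h0, if_neg h3, h1, InfinitePlace.mult, if_pos h, pow_one]
  · have h0 : v.embedding d ≠ 0 := (map_ne_zero_iff _ v.embedding.injective).2 hd
    rw [tw_map, perC_tw _ h0, InfinitePlace.norm_embedding_eq, InfinitePlace.mult, if_neg h]
    ring
  · exact absurd (fun h3 => absurd h3 h) h2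

theorem prod_tw [NumberField N] (d : N) (hd : d ≠ 0) :
    ∏ v : InfinitePlace N, perAt (tw d) v =
      Real.sqrt 3 ^ npos d * ‖Om‖ ^ Module.finrank ℚ N /
        (2 ^ Module.finrank ℚ N * Real.sqrt |(Algebra.norm ℚ d : ℝ)|) := by
  classical
  have h1 : ∏ v : InfinitePlace N, Real.sqrt (v d) ^ v.mult = Real.sqrt |(Algebra.norm ℚ d : ℝ)| := by
    have h2 := InfinitePlace.prod_eq_abs_norm d
    push_cast at h2
    rw [← h2, Real.sqrt_prod]
    · refine Finset.prod_congr rfl (fun v _ => ?_)
      have hv : 0 ≤ v d := apply_nonneg v d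
      symm
      rw [Real.sqrt_eq_iff_mul_self_eq (pow_nonneg hv _) (pow_nonneg (Real.sqrt_nonneg _) _), ← mul_pow,
        Real.mul_self_sqrt hv]
    · intro v _
      exact pow_nonneg (apply_nonneg v d) _
  have h3 : ∏ v : InfinitePlace N, (if Pos d v then Real.sqrt 3 else 1) = Real.sqrt 3 ^ npos d := by
    rw [Finset.prod_ite, Finset.prod_const, Finset.prod_const_one, mul_one, npos,
      Nat.card_eq_fintype_card, Fintype.card_subtype]
  have h4 : ∏ v : InfinitePlace N, (‖Om‖ / (2 * Real.sqrt (v d))) ^ v.mult =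
      ‖Om‖ ^ Module.finrank ℚ N /
        (2 ^ Module.finrank ℚ N * Real.sqrt |(Algebra.norm ℚ d : ℝ)|) := by
    simp only [div_pow, mul_pow]
    rw [Finset.prod_div_distrib, Finset.prod_mul_distrib, Finset.prod_pow_eq_pow_sum,
      Finset.prod_pow_eq_pow_sum, InfinitePlace.sum_mult_eq, h1]
  simp only [Pd1_perAt_tw d hd]
  rw [Finset.prod_mul_distrib, h3, h4]
  ring

end Pool.Agent.Lib.MP_1a91b9_ntT.CT
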