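import Pool.Agent.Lib.MP_1a91b9_nt.VcPoint
import Pool.Agent.Lib.MP_1a91b9_ntT.S9.KB

/-!
# JOB Sa: the transport of points by a change of variables over an extension

`W` over `k`, `k' ⊇ k`, `C • W_{k'} = W'`. PROOF. (`exists_tr`) over `F ⊇ k'`: `exists_point_equiv (W.map (algebraMap k F)) (C.map
(algebraMap k' F))` (file `Pool/Agent/Lib/MP_1a91b9_nt/VcPoint.lean`), and `(C_F) • W_F = W'_F`: `map_variableChange`, `map_map`,
`IsScalarTower.algebraMap_eq`. (Generalise the left curve: first `∀ V, V = C_F • W_F → ∃ e : V.Point ≃+ W_F.Point, ...` and `subst`.)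
(`tr_map`) both sides are zero for `P = 0`, otherwise compare coordinates (`Affine.Point.map_some`, `f` commutes with
`algebraMap k'`: `AlgHom.commutes`). `f.restrictScalars k` is a `k`-algebra map.
-/

set_option autoImplicit false

namespace Pool.Agent.Lib.MP_1a91b9_ntT.CT

open WeierstrassCurve Pool.Agent.Lib.MP_1a91b9_ntT.S9
open scoped Classical

private theorem sa_aux {F : Type*} [Field F] (V U : WeierstrassCurve F) (C : VariableChange F)
    (hV : C • V = U) :
    ∃ e : U.toAffine.Point ≃+ V.toAffine.Point,
      ∀ (x y : F) (h : U.toAffine.Nonsingular x y), ∃ h',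
        e (Affine.Point.some x y h) = Affine.Point.some
          ((C.u : F) ^ 2 * x + C.r) ((C.u : F) ^ 3 * y + (C.u : F) ^ 2 * C.s * x + C.t) h' := by
  subst hV
  exact Pool.Agent.Lib.MP_1a91b9_nt.exists_point_equiv V C

theorem exists_tr {k k' : Type*} [Field k] [Field k'] [Algebra k k'] (W : WeierstrassCurve k)
    (W' : WeierstrassCurve k') (C : VariableChange k') (hC : C • W.baseChange k' = W')
    (F : Type*) [Field F] [Algebra k F] [Algebra k' F] [IsScalarTower k k' F] :
    ∃ e : Pts W' F ≃+ Pts W F, ∀ (x y : F) (h : (Affine.baseChange W' F).Nonsingular x y), ∃ h',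
      e (Affine.Point.some x y h) = Affine.Point.some
        (algebraMap k' F C.u ^ 2 * x + algebraMap k' F C.r)
        (algebraMap k' F C.u ^ 3 * y + algebraMap k' F C.u ^ 2 * algebraMap k' F C.s * x +
          algebraMap k' F C.t) h' := by
  have h1 : (C.map (algebraMap k' F)) • (W.map (algebraMap k F)) = W'.map (algebraMap k' F) := by
    have h2 : W.map (algebraMap k F) = (W.map (algebraMap k k')).map (algebraMap k' F) := by
      rw [WeierstrassCurve.map_map, ← IsScalarTower.algebraMap_eq]
    rw [h2, WeierstrassCurve.map_variableChange]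
    exact congrArg (fun Z => WeierstrassCurve.map Z (algebraMap k' F)) hC
  exact sa_aux (W.map (algebraMap k F)) (W'.map (algebraMap k' F)) (C.map (algebraMap k' F)) h1

/-- The transport of points. -/
noncomputable def tr {k k' : Type*} [Field k] [Field k'] [Algebra k k'] {W : WeierstrassCurve k}
    {W' : WeierstrassCurve k'} {C : VariableChange k'} (hC : C • W.baseChange k' = W')
    (F : Type*) [Field F] [Algebra k F] [Algebra k' F] [IsScalarTower k k' F] :
    Pts W' F ≃+ Pts W F :=
  (exists_tr W W' C hC F).choose

theorem tr_map {k k' : Type*} [Field k] [Field k'] [Algebra k k'] {W : WeierstrassCurve k}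
    {W' : WeierstrassCurve k'} {C : VariableChange k'} (hC : C • W.baseChange k' = W')
    {F F' : Type*} [Field F] [Algebra k F] [Algebra k' F] [IsScalarTower k k' F]
    [Field F'] [Algebra k F'] [Algebra k' F'] [IsScalarTower k k' F'] (f : F →ₐ[k'] F')
    (P : Pts W' F) :
    tr hC F' (Affine.Point.map f P) = Affine.Point.map (f.restrictScalars k) (tr hC F P) := by
  cases P with
  | zero =>
    change tr hC F' (Affine.Point.map f 0) = Affine.Point.map (f.restrictScalars k) (tr hC F 0)
    rw [_root_.map_zero, _root_.map_zero, _root_.map_zero, _root_.map_zero]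
  | some x y h =>
    obtain ⟨h1, e1⟩ := (exists_tr W W' C hC F).choose_spec x y h
    have h3 : (Affine.baseChange W' F').Nonsingular (f x) (f y) :=
      (Affine.baseChange_nonsingular (W := W'.toAffine) (f := f) f.injective x y).mpr h
    obtain ⟨h2, e2⟩ := (exists_tr W W' C hC F').choose_spec (f x) (f y) h3
    have e3 : Affine.Point.map f (Affine.Point.some x y h) = Affine.Point.some (f x) (f y) h3 := rfl
    have e4 : tr hC F (Affine.Point.some x y h) = _ := e1
    have e5 : tr hC F' (Affine.Point.some (f x) (f y) h3) = _ := e2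
    rw [e3, e4, e5, Affine.Point.map_some]
    simp only [Affine.Point.some.injEq, AlgHom.coe_restrictScalars', map_add, map_mul, map_pow,
      AlgHom.commutes, and_self]

end Pool.Agent.Lib.MP_1a91b9_ntT.CT
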